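import Mathlib

/-!
# Classes of tasks in an infinite-dimensional Hilbert space
-/

set_option autoImplicit false

namespace Pool.Agent.W2helper13.Am

open Set Filter Topology

universe u v w

variable {X : Type u} [NormedAddCommGroup X] [InnerProductSpace ℝ X]

/-- A dense sequence in the span of a finite set. -/
lemma exists_dense_seq {ι : Type v} (B : ι → X) (S : Finset ι) :
    ∃ d : ℕ → X, (∀ k, d k ∈ Submodule.span ℝ (B '' S)) ∧
      ∀ y ∈ Submodule.span ℝ (B '' S), ∀ η : ℝ, 0 < η → ∃ k, ‖d k - y‖ < η := by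
  classical
  set V := Submodule.span ℝ (B '' (S : Set ι)) with hV
  have hfd : FiniteDimensional ℝ V := FiniteDimensional.span_of_finite ℝ (S.finite_toSet.image B)
  have : ProperSpace V := FiniteDimensional.proper_real V
  have : SecondCountableTopology V := inferInstance
  refine ⟨fun k => (TopologicalSpace.denseSeq V k : X), fun k => (TopologicalSpace.denseSeq V k).2,
    fun y hy η hη => ?_⟩
  obtain ⟨k, hk⟩ := (TopologicalSpace.denseRange_denseSeq V).exists_dist_lt ⟨y, hy⟩ hη
  refine ⟨k, ?_⟩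
  rw [dist_comm, dist_eq_norm] at hk
  exact hk

/-- The classes. -/
theorem exists_classes [CompleteSpace X] (hinf : ¬ FiniteDimensional ℝ X) :
    ∃ (D : Type u) (Q : D → X) (w : D × D → ℕ → X) (avoid : ℕ → D → Prop),
      (∀ p n, ‖w p n‖ = 1) ∧ (∀ p n d, avoid n d → inner ℝ (w p n) (Q d) = 0) ∧
      (∀ p p' n, p ≠ p' → inner ℝ (w p n) (w p' n) = 0) ∧
      ∀ (x y : X) (η : ℝ), 0 < η → ∃ a b n, avoid n a ∧ avoid n b ∧ ‖Q a - x‖ < η ∧
        ‖Q b - y‖ < η := by
  classical
  obtain ⟨Γ, b, -⟩ := exists_hilbertBasis ℝ X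
  have hΓ : Infinite Γ := by
    by_contra hfin
    rw [not_infinite_iff_finite] at hfin
    apply hinf
    have h1 : FiniteDimensional ℝ (Submodule.span ℝ (Set.range b)) :=
      FiniteDimensional.span_of_finite ℝ (Set.finite_range b)
    have h2 : (Submodule.span ℝ (Set.range b)).topologicalClosure = Submodule.span ℝ (Set.range b) :=
      (Submodule.closed_of_finiteDimensional _).submodule_topologicalClosure_eq
    rw [b.dense_span] at h2
    rw [← h2] at h1
    exact Module.Finite.of_surjective (⊤ : Submodule ℝ X).subtype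
      fun x => ⟨⟨x, Submodule.mem_top⟩, rfl⟩
  have hcard : Cardinal.mk (Γ × ℕ) = Cardinal.mk Γ := by
    simp
  obtain ⟨E⟩ := Cardinal.eq.1 hcard
  obtain ⟨B, hB⟩ : ∃ B : Γ × ℕ → X, ∀ i, B i = b (E i) := ⟨_, fun i => rfl⟩
  have hBo : Orthonormal ℝ B := by
    have : B = b ∘ E := funext hB
    rw [this]
    exact b.orthonormal.comp E E.injective
  have hBd : Dense (Submodule.span ℝ (Set.range B) : Set X) := by
    have h1 : Set.range B = Set.range b := by
      have : B = b ∘ E := funext hB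
      rw [this, E.surjective.range_comp]
    rw [h1]
    have h2 := b.dense_span
    rw [Submodule.dense_iff_topologicalClosure_eq_top]
    exact h2
  choose d hd1 hd2 using fun S : Finset (Γ × ℕ) => exists_dense_seq B S
  have hcardD : Cardinal.mk ((Finset (Γ × ℕ) × ℕ) × (Finset (Γ × ℕ) × ℕ)) = Cardinal.mk Γ := by
    have h1 : Cardinal.mk (Finset (Γ × ℕ) × ℕ) = Cardinal.mk Γ := by
      rw [Cardinal.mk_prod, Cardinal.mk_finset_of_infinite]
      simp
    rw [Cardinal.mk_prod, h1, Cardinal.lift_id]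
    exact Cardinal.mul_eq_self (Cardinal.aleph0_le_mk Γ)
  obtain ⟨j⟩ := Cardinal.eq.1 hcardD
  refine ⟨Finset (Γ × ℕ) × ℕ, fun q => d q.1 q.2, fun p n => B (j p, n),
    fun n q => ∀ s ∈ q.1, s.2 ≠ n, fun p n => hBo.1 _, fun p n q hq => ?_,
    fun p p' n hpp => ?_, fun x y η hη => ?_⟩
  · have h1 : Submodule.span ℝ (B '' (q.1 : Set (Γ × ℕ))) ≤ (ℝ ∙ B (j p, n))ᗮ := by
      rw [Submodule.span_le]
      rintro _ ⟨s, hs, rfl⟩
      rw [SetLike.mem_coe, Submodule.mem_orthogonal_singleton_iff_inner_right]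
      apply hBo.2
      intro h
      exact hq s hs (by rw [← h])
    have h2 := h1 (hd1 q.1 q.2)
    rwa [Submodule.mem_orthogonal_singleton_iff_inner_right] at h2
  · apply hBo.2
    intro h
    exact hpp (j.injective (congrArg Prod.fst h))
  · have key : ∀ z : X, ∃ q : Finset (Γ × ℕ) × ℕ, ‖d q.1 q.2 - z‖ < η := by
      intro z
      obtain ⟨z', hz', hzz⟩ := Metric.mem_closure_iff.1 (hBd z) (η / 2) (by positivity)
      obtain ⟨S, hS1, hS2⟩ := Submodule.mem_span_finite_of_mem_span hz'
      obtain ⟨S', hS'⟩ : ∃ S' : Finset (Γ × ℕ), (S : Set X) ⊆ B '' (S' : Set (Γ × ℕ)) := by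
        obtain ⟨S', hS'⟩ := Finset.subset_set_image_iff.1
          (show (S : Set X) ⊆ B '' univ by rw [image_univ]; exact hS1)
        refine ⟨S', ?_⟩
        rw [← hS'.2]
        simp
      obtain ⟨k, hk⟩ := hd2 S' z' (Submodule.span_mono hS' hS2) (η / 2) (by positivity)
      refine ⟨(S', k), ?_⟩
      rw [dist_comm, dist_eq_norm] at hzz
      have : d S' k - z = (d S' k - z') + (z' - z) := by abel
      simp only
      rw [this]
      exact (norm_add_le _ _).trans_lt (by linarith)
    obtain ⟨a, ha⟩ := key x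
    obtain ⟨c, hc⟩ := key y
    obtain ⟨n, hn⟩ := Infinite.exists_notMem_finset ((a.1 ∪ c.1).image Prod.snd)
    refine ⟨a, c, n, fun s hs hsn => hn ?_, fun s hs hsn => hn ?_, ha, hc⟩
    · rw [Finset.mem_image]
      exact ⟨s, Finset.mem_union_left _ hs, hsn⟩
    · rw [Finset.mem_image]
      exact ⟨s, Finset.mem_union_right _ hs, hsn⟩

end Pool.Agent.W2helper13.Am
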