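import Mathlib

/-!
# Piecewise isometric maps of the plane with prescribed values at finitely many points
-/

set_option autoImplicit false

namespace Pool.Agent.W2helper13.Am

open Set Filter Topology

universe u v w

section seg

variable {V : Type u} [NormedAddCommGroup V] [NormedSpace ℝ V]

/-- A segment from a point of `S` to a point outside `S` meets the frontier. -/
lemma exists_frontier_seg {S : Set V} {x y : V} (hx : x ∈ S) (hy : y ∉ S) :
    ∃ z ∈ segment ℝ x y, z ∈ frontier S := by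
  by_contra hcon
  push Not at hcon
  have h1 : segment ℝ x y ⊆ interior S ∪ interior Sᶜ := by
    rw [← compl_frontier_eq_union_interior]
    exact fun z hz => hcon z hz
  have hx' : x ∈ interior S := by
    rcases h1 (left_mem_segment ℝ x y) with h | h
    · exact h
    · exact absurd hx (interior_subset h)
  have hy' : y ∈ interior Sᶜ := by
    rcases h1 (right_mem_segment ℝ x y) with h | h
    · exact absurd (interior_subset h) hy
    · exact h
  obtain ⟨z, -, hz1, hz2⟩ := (convex_segment x y).isPreconnected _ _ isOpen_interior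
    isOpen_interior h1 ⟨x, left_mem_segment ℝ x y, hx'⟩ ⟨y, right_mem_segment ℝ x y, hy'⟩
  exact interior_subset hz2 (interior_subset hz1)

lemma norm_add_of_mem_seg {x y z : V} (h : z ∈ segment ℝ x y) :
    ‖x - z‖ + ‖z - y‖ = ‖x - y‖ := by
  have h5 := dist_add_dist_of_mem_segment h
  rwa [dist_eq_norm, dist_eq_norm, dist_eq_norm] at h5

end seg

section general

variable {E : Type u} [NormedAddCommGroup E] [InnerProductSpace ℝ E]
  {H : Type v} [NormedAddCommGroup H] [InnerProductSpace ℝ H]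

/-- `φ` does not increase distances. -/
def Short {E : Type u} [NormedAddCommGroup E] {H : Type v} [NormedAddCommGroup H]
    (φ : E → H) : Prop := ∀ x y, ‖φ x - φ y‖ ≤ ‖x - y‖

lemma Short.continuous {φ : E → H} (h : Short φ) : Continuous φ := by
  have : LipschitzWith 1 φ := LipschitzWith.of_dist_le_mul fun x y => by
    rw [dist_eq_norm, dist_eq_norm, NNReal.coe_one, one_mul]
    exact h x y
  exact this.continuous

/-- Locally finitely piecewise isometric maps. -/
def PI {E : Type u} [NormedAddCommGroup E] {H : Type v} [NormedAddCommGroup H]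
    (φ : E → H) : Prop :=
  ∀ R : ℝ, ∃ (κ : Type) (col : E → κ), (col '' {x | ‖x‖ ≤ R}).Finite ∧
    ∀ x y, ‖x‖ ≤ R → ‖y‖ ≤ R → col x = col y → ‖φ x - φ y‖ = ‖x - y‖

variable (φ : E → H) (a : E) (b : H)

/-- The region where the map is changed. -/
def SS : Set E := {x | ‖x - a‖ ≤ ‖φ x - b‖}

/-- The exit factor. -/
noncomputable def TT (x : E) : ℝ := sSup {t : ℝ | 0 ≤ t ∧ a + t • (x - a) ∈ SS φ a b}

/-- The exit point. -/
noncomputable def ZZ (x : E) : E := a + TT φ a b x • (x - a)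

open Classical in
/-- The changed map. -/
noncomputable def cone (x : E) : H :=
  if x ∈ SS φ a b then b + (TT φ a b x)⁻¹ • (φ (ZZ φ a b x) - b) else φ x

variable {φ a b}

lemma isClosed_SS (h : Short φ) : IsClosed (SS φ a b) :=
  isClosed_le (by fun_prop) ((h.continuous.sub continuous_const).norm)

lemma mem_SS_self : a ∈ SS φ a b := by
  simp [SS]

lemma SS_bound {B : ℝ} (hB : ∀ x, ‖φ x‖ ≤ B) {x : E} (hx : x ∈ SS φ a b) :
    ‖x - a‖ ≤ B + ‖b‖ := by
  have h1 : ‖x - a‖ ≤ ‖φ x - b‖ := hx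
  exact h1.trans ((norm_sub_le _ _).trans (by linarith [hB x]))

lemma TT_self : TT φ a b a = 0 := by
  rw [TT]
  apply Real.sSup_of_not_bddAbove
  rintro ⟨M, hM⟩
  have : max 0 (M + 1) ≤ M := hM ⟨le_max_left _ _, by rw [sub_self, smul_zero, add_zero]; exact mem_SS_self⟩
  have := (le_max_right 0 (M + 1)).trans this
  linarith

lemma TT_spec (h : Short φ) {B : ℝ} (hB : ∀ x, ‖φ x‖ ≤ B) {x : E} (hx : x ∈ SS φ a b)
    (hxa : x ≠ a) : 1 ≤ TT φ a b x ∧ ZZ φ a b x ∈ SS φ a b ∧
      ∀ t, TT φ a b x < t → a + t • (x - a) ∉ SS φ a b := by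
  have hpos : 0 < ‖x - a‖ := norm_pos_iff.2 (sub_ne_zero.2 hxa)
  set A : Set ℝ := {t : ℝ | 0 ≤ t ∧ a + t • (x - a) ∈ SS φ a b} with hA
  have hbdd : BddAbove A := by
    refine ⟨(B + ‖b‖) / ‖x - a‖, ?_⟩
    rintro t ⟨ht0, ht⟩
    have := SS_bound hB ht
    rw [add_sub_cancel_left, norm_smul, Real.norm_eq_abs, abs_of_nonneg ht0] at this
    rwa [le_div_iff₀ hpos]
  have h1A : (1 : ℝ) ∈ A := ⟨zero_le_one, by rw [one_smul, add_sub_cancel]; exact hx⟩
  have hcl : IsClosed A := by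
    apply IsClosed.inter isClosed_Ici
    exact (isClosed_SS h).preimage (by fun_prop)
  have hmem : sSup A ∈ A := hcl.csSup_mem ⟨1, h1A⟩ hbdd
  refine ⟨le_csSup hbdd h1A, hmem.2, fun t ht hcon => ?_⟩
  have h2 : 1 ≤ TT φ a b x := le_csSup hbdd h1A
  have h3 : t ∈ A := ⟨by linarith, hcon⟩
  exact absurd (le_csSup hbdd h3) (not_le.2 ht)

lemma norm_ZZ (h : Short φ) {B : ℝ} (hB : ∀ x, ‖φ x‖ ≤ B) {x : E} (hx : x ∈ SS φ a b)
    (hxa : x ≠ a) : ‖φ (ZZ φ a b x) - b‖ = TT φ a b x * ‖x - a‖ := by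
  obtain ⟨h1, h2, h3⟩ := TT_spec h hB hx hxa
  have e : ‖ZZ φ a b x - a‖ = TT φ a b x * ‖x - a‖ := by
    rw [ZZ, add_sub_cancel_left, norm_smul, Real.norm_eq_abs, abs_of_nonneg (by linarith)]
  apply le_antisymm
  · -- continuity
    have hc : Continuous fun t : ℝ => ‖φ (a + t • (x - a)) - b‖ :=
      ((h.continuous.comp (by fun_prop)).sub continuous_const).norm
    have hc2 : Continuous fun t : ℝ => t * ‖x - a‖ := by fun_prop
    have hnb : (𝓝[>] (TT φ a b x)).NeBot := inferInstance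
    have t1 := (hc.tendsto (TT φ a b x)).mono_left (nhdsWithin_le_nhds (s := Ioi (TT φ a b x)))
    have t2 := (hc2.tendsto (TT φ a b x)).mono_left (nhdsWithin_le_nhds (s := Ioi (TT φ a b x)))
    refine le_of_tendsto_of_tendsto t1 t2 ?_
    filter_upwards [self_mem_nhdsWithin] with t ht
    have h4 := h3 t ht
    have h5 : ¬ ‖a + t • (x - a) - a‖ ≤ ‖φ (a + t • (x - a)) - b‖ := h4
    rw [add_sub_cancel_left, norm_smul, Real.norm_eq_abs, abs_of_nonneg (by
      have : TT φ a b x < t := ht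
      linarith)] at h5
    exact (not_le.1 h5).le
  · rw [← e]
    exact h2

lemma cone_mem {x : E} (hx : x ∈ SS φ a b) :
    cone φ a b x = b + (TT φ a b x)⁻¹ • (φ (ZZ φ a b x) - b) := by
  rw [cone, if_pos hx]

lemma cone_notMem {x : E} (hx : x ∉ SS φ a b) : cone φ a b x = φ x := by
  rw [cone, if_neg hx]

lemma cone_self : cone φ a b a = b := by
  rw [cone_mem mem_SS_self, TT_self, inv_zero, zero_smul, add_zero]

lemma norm_cone_sub (h : Short φ) {B : ℝ} (hB : ∀ x, ‖φ x‖ ≤ B) {x : E} (hx : x ∈ SS φ a b) :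
    ‖cone φ a b x - b‖ = ‖x - a‖ := by
  rcases eq_or_ne x a with rfl | hxa
  · rw [cone_self, sub_self, sub_self, norm_zero, norm_zero]
  · obtain ⟨h1, -, -⟩ := TT_spec h hB hx hxa
    rw [cone_mem hx, add_sub_cancel_left, norm_smul, norm_ZZ h hB hx hxa, Real.norm_eq_abs,
      abs_of_nonneg (by positivity), ← mul_assoc, inv_mul_cancel₀ (by linarith), one_mul]

lemma cone_inner (h : Short φ) {B : ℝ} (hB : ∀ x, ‖φ x‖ ≤ B) {x y : E} (hx : x ∈ SS φ a b)
    (hxa : x ≠ a) (hy : y ∈ SS φ a b) (hya : y ≠ a) :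
    ‖cone φ a b x - cone φ a b y‖ ^ 2 = ‖x - y‖ ^ 2 -
      (‖ZZ φ a b x - ZZ φ a b y‖ ^ 2 - ‖φ (ZZ φ a b x) - φ (ZZ φ a b y)‖ ^ 2)
        * ((TT φ a b x)⁻¹ * (TT φ a b y)⁻¹) := by
  obtain ⟨h1, -, -⟩ := TT_spec h hB hx hxa
  obtain ⟨h1', -, -⟩ := TT_spec h hB hy hya
  have n1 := norm_ZZ h hB hx hxa
  have n2 := norm_ZZ h hB hy hya
  set T := TT φ a b x with hT
  set T' := TT φ a b y with hT'
  set P := φ (ZZ φ a b x) - b with hP
  set P' := φ (ZZ φ a b y) - b with hP'
  have hT0 : T ≠ 0 := by linarith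
  have hT0' : T' ≠ 0 := by linarith
  have e1 : φ (ZZ φ a b x) - φ (ZZ φ a b y) = P - P' := by rw [hP, hP']; abel
  have e2 : cone φ a b x - cone φ a b y = T⁻¹ • P - T'⁻¹ • P' := by
    rw [cone_mem hx, cone_mem hy]; abel
  have e3 : ZZ φ a b x - ZZ φ a b y = T • (x - a) - T' • (y - a) := by
    rw [ZZ, ZZ]; abel
  have e4 : x - y = (x - a) - (y - a) := by abel
  rw [e1, e2, e3, e4]
  generalize x - a = p at *
  generalize y - a = q at *
  rw [norm_sub_sq_real (T⁻¹ • P), norm_sub_sq_real p, norm_sub_sq_real (T • p),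
    norm_sub_sq_real P,
    norm_smul, norm_smul, norm_smul, norm_smul, real_inner_smul_left, real_inner_smul_right,
    real_inner_smul_left, real_inner_smul_right, n1, n2, norm_inv, norm_inv]
  simp only [Real.norm_eq_abs]
  rw [abs_of_nonneg (by linarith : 0 ≤ T), abs_of_nonneg (by linarith : 0 ≤ T')]
  field_simp
  ring

lemma cone_short_mem (h : Short φ) {B : ℝ} (hB : ∀ x, ‖φ x‖ ≤ B) {x y : E} (hx : x ∈ SS φ a b)
    (hy : y ∈ SS φ a b) : ‖cone φ a b x - cone φ a b y‖ ≤ ‖x - y‖ := by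
  rcases eq_or_ne x a with rfl | hxa
  · rw [cone_self, norm_sub_rev, norm_cone_sub h hB hy, norm_sub_rev]
  rcases eq_or_ne y a with rfl | hya
  · rw [cone_self, norm_cone_sub h hB hx]
  have h1 := cone_inner h hB hx hxa hy hya
  obtain ⟨h2, -, -⟩ := TT_spec h hB hx hxa
  obtain ⟨h2', -, -⟩ := TT_spec h hB hy hya
  have h3 := h (ZZ φ a b x) (ZZ φ a b y)
  have h4 := pow_le_pow_left₀ (norm_nonneg _) h3 2
  have h5 : 0 ≤ (‖ZZ φ a b x - ZZ φ a b y‖ ^ 2 - ‖φ (ZZ φ a b x) - φ (ZZ φ a b y)‖ ^ 2)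
        * ((TT φ a b x)⁻¹ * (TT φ a b y)⁻¹) := mul_nonneg (by linarith) (by positivity)
  apply le_of_sq_le_sq _ (norm_nonneg _)
  linarith

lemma cone_eq (h : Short φ) {B : ℝ} (hB : ∀ x, ‖φ x‖ ≤ B) {x : E}
    (hx : ‖φ x - b‖ ≤ ‖x - a‖) : cone φ a b x = φ x := by
  by_cases hxS : x ∈ SS φ a b
  · have e : ‖φ x - b‖ = ‖x - a‖ := le_antisymm hx hxS
    rcases eq_or_ne x a with rfl | hxa
    · rw [cone_self]
      rw [sub_self, norm_zero] at e
      exact (sub_eq_zero.1 (norm_eq_zero.1 e)).symm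
    · obtain ⟨h1, -, -⟩ := TT_spec h hB hxS hxa
      have n1 := norm_ZZ h hB hxS hxa
      have h2 := h (ZZ φ a b x) x
      have e2 : ZZ φ a b x - x = (TT φ a b x - 1) • (x - a) := by
        rw [ZZ, sub_smul, one_smul]; abel
      rw [e2, norm_smul, Real.norm_eq_abs, abs_of_nonneg (by linarith)] at h2
      rw [cone_mem hxS]
      set T := TT φ a b x with hT
      set P := φ (ZZ φ a b x) - b with hP
      set p := φ x - b with hp
      have e3 : φ (ZZ φ a b x) - φ x = P - p := by rw [hP, hp]; abel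
      rw [e3] at h2
      have h3 := pow_le_pow_left₀ (norm_nonneg _) h2 2
      rw [norm_sub_sq_real, n1, e] at h3
      have h4 : ‖P - T • p‖ ^ 2 ≤ 0 := by
        rw [norm_sub_sq_real, norm_smul, real_inner_smul_right, n1, e, Real.norm_eq_abs,
          abs_of_nonneg (by linarith)]
        have h6 : 0 ≤ inner ℝ P p - T * ‖x - a‖ ^ 2 := by nlinarith
        nlinarith [mul_nonneg (by linarith : 0 ≤ T) h6]
      have h5 : P - T • p = 0 := by
        have : ‖P - T • p‖ = 0 := by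
          nlinarith [norm_nonneg (P - T • p)]
        exact norm_eq_zero.1 this
      rw [sub_eq_zero] at h5
      rw [h5, smul_smul, inv_mul_cancel₀ (by linarith), one_smul, hp]
      abel
  · exact cone_notMem hxS

lemma cone_short (h : Short φ) {B : ℝ} (hB : ∀ x, ‖φ x‖ ≤ B) : Short (cone φ a b) := by
  have key : ∀ x y, x ∈ SS φ a b → y ∉ SS φ a b → ‖cone φ a b x - cone φ a b y‖ ≤ ‖x - y‖ := by
    intro x y hx hy
    obtain ⟨z, hz1, hz2⟩ := exists_frontier_seg hx hy
    have hzS : z ∈ SS φ a b := (isClosed_SS h).frontier_subset hz2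
    have hz3 : ‖φ z - b‖ ≤ ‖z - a‖ := by
      have h1 : z ∈ closure (SS φ a b)ᶜ := by
        rw [frontier_eq_closure_inter_closure] at hz2
        exact hz2.2
      have h2 : closure (SS φ a b)ᶜ ⊆ {x | ‖φ x - b‖ ≤ ‖x - a‖} := by
        apply closure_minimal
        · intro x hx
          have hx' : ¬ ‖x - a‖ ≤ ‖φ x - b‖ := hx
          exact (not_le.1 hx').le
        · exact isClosed_le ((h.continuous.sub continuous_const).norm) (by fun_prop)
      exact h2 h1
    have h3 := cone_short_mem h hB hx hzS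
    rw [cone_eq h hB hz3] at h3
    rw [cone_notMem hy]
    have h4 := h z y
    have h5 := norm_add_of_mem_seg hz1
    calc ‖cone φ a b x - φ y‖ = ‖(cone φ a b x - φ z) + (φ z - φ y)‖ := by congr 1; abel
      _ ≤ _ := norm_add_le _ _
      _ ≤ ‖x - y‖ := by linarith
  intro x y
  by_cases hx : x ∈ SS φ a b
  · by_cases hy : y ∈ SS φ a b
    · exact cone_short_mem h hB hx hy
    · exact key x y hx hy
  · by_cases hy : y ∈ SS φ a b
    · rw [norm_sub_rev, norm_sub_rev x]
      exact key y x hy hx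
    · rw [cone_notMem hx, cone_notMem hy]
      exact h x y

open Classical in
lemma cone_PI (h : Short φ) {B : ℝ} (hB : ∀ x, ‖φ x‖ ≤ B) (hP : PI φ) : PI (cone φ a b) := by
  intro R
  obtain ⟨κ, col, hfin, hcol⟩ := hP (max R (‖a‖ + (B + ‖b‖)))
  set R' := max R (‖a‖ + (B + ‖b‖)) with hR'
  refine ⟨Option (κ ⊕ κ), fun x => if x ∈ SS φ a b then (if x = a then none else
    some (Sum.inl (col (ZZ φ a b x)))) else some (Sum.inr (col x)), ?_, ?_⟩
  · apply Set.Finite.subset (s := {none} ∪ ((fun k => some (Sum.inl k)) '' (col '' {x | ‖x‖ ≤ R'})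
      ∪ (fun k => some (Sum.inr k)) '' (col '' {x | ‖x‖ ≤ R'})))
    · exact (Set.finite_singleton _).union ((hfin.image _).union (hfin.image _))
    · rintro _ ⟨x, hx, rfl⟩
      have hx' : ‖x‖ ≤ R := hx
      by_cases hS : x ∈ SS φ a b
      · by_cases hxa : x = a
        · left
          simp only [hxa, if_true, mem_singleton_iff]
          rw [if_pos (hxa ▸ hS)]
        · right; left
          simp only [hS, hxa, if_true, if_false]
          refine ⟨_, ⟨ZZ φ a b x, ?_, rfl⟩, rfl⟩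
          change ‖ZZ φ a b x‖ ≤ R'
          have h1 := SS_bound hB (TT_spec h hB hS hxa).2.1
          have h2 : ZZ φ a b x = a + (ZZ φ a b x - a) := by abel
          rw [h2]
          exact (norm_add_le _ _).trans ((by linarith : _ ≤ ‖a‖ + (B + ‖b‖)).trans
            (le_max_right _ _))
      · right; right
        simp only [hS, if_false]
        exact ⟨_, ⟨x, hx'.trans (le_max_left _ _), rfl⟩, rfl⟩
  · intro x y hx hy hxy
    by_cases hxS : x ∈ SS φ a b
    · by_cases hyS : y ∈ SS φ a b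
      · simp only [hxS, hyS, if_true] at hxy
        by_cases hxa : x = a
        · by_cases hya : y = a
          · rw [hxa, hya, sub_self, sub_self, norm_zero, norm_zero]
          · simp [hxa, hya] at hxy
        · by_cases hya : y = a
          · simp [hxa, hya] at hxy
          · simp only [hxa, hya, if_false, Option.some.injEq, Sum.inl.injEq] at hxy
            have b1 : ∀ z, z ∈ SS φ a b → z ≠ a → ‖ZZ φ a b z‖ ≤ R' := by
              intro z hz hza
              have h1 := SS_bound hB (TT_spec h hB hz hza).2.1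
              have h2 : ZZ φ a b z = a + (ZZ φ a b z - a) := by abel
              rw [h2]
              exact (norm_add_le _ _).trans ((by linarith : _ ≤ ‖a‖ + (B + ‖b‖)).trans
                (le_max_right _ _))
            have h1 := hcol _ _ (b1 x hxS hxa) (b1 y hyS hya) hxy
            have h2 := cone_inner h hB hxS hxa hyS hya
            rw [h1, sub_self, zero_mul, sub_zero] at h2
            exact (sq_eq_sq₀ (norm_nonneg _) (norm_nonneg _)).1 h2
      · simp only [hxS, hyS, if_true, if_false] at hxy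
        by_cases hxa : x = a
        · simp [hxa] at hxy
        · simp [hxa] at hxy
    · by_cases hyS : y ∈ SS φ a b
      · simp only [hxS, hyS, if_true, if_false] at hxy
        by_cases hya : y = a
        · simp [hya] at hxy
        · simp [hya] at hxy
      · simp only [hxS, hyS, if_false, Option.some.injEq, Sum.inr.injEq] at hxy
        rw [cone_notMem hxS, cone_notMem hyS]
        exact hcol x y (hx.trans (le_max_left _ _)) (hy.trans (le_max_left _ _)) hxy

/-- One step. -/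
theorem cone_step (h : Short φ) (hbd : ∃ B, ∀ x, ‖φ x‖ ≤ B) (hP : PI φ) (a : E) (b : H) :
    ∃ φ' : E → H, Short φ' ∧ (∃ B, ∀ x, ‖φ' x‖ ≤ B) ∧ PI φ' ∧ φ' a = b ∧
      ∀ x, ‖φ x - b‖ ≤ ‖x - a‖ → φ' x = φ x := by
  obtain ⟨B, hB⟩ := hbd
  refine ⟨cone φ a b, cone_short h hB, ⟨B + 2 * ‖b‖, fun x => ?_⟩, cone_PI h hB hP, cone_self,
    fun x hx => cone_eq h hB hx⟩
  by_cases hx : x ∈ SS φ a b
  · have h1 := norm_cone_sub h hB hx
    have h2 := SS_bound hB hx
    have h3 : cone φ a b x = b + (cone φ a b x - b) := by abel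
    rw [h3]
    exact (norm_add_le _ _).trans (by linarith)
  · rw [cone_notMem hx]
    linarith [hB x, norm_nonneg b]

/-- Prescribed values at finitely many points. -/
theorem brehm (h : Short φ) (hbd : ∃ B, ∀ x, ‖φ x‖ ≤ B) (hP : PI φ) (a : ℕ → E) (b : ℕ → H)
    (n : ℕ) (hab : ∀ i j, i < n → j < n → ‖b i - b j‖ ≤ ‖a i - a j‖) :
    ∃ φ' : E → H, Short φ' ∧ (∃ B, ∀ x, ‖φ' x‖ ≤ B) ∧ PI φ' ∧ ∀ i < n, φ' (a i) = b i := by
  induction n with
  | zero => exact ⟨φ, h, hbd, hP, fun i hi => absurd hi (Nat.not_lt_zero _)⟩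
  | succ n ih =>
    obtain ⟨ψ, h1, h2, h3, h4⟩ := ih fun i j hi hj => hab i j (by omega) (by omega)
    obtain ⟨φ', k1, k2, k3, k4, k5⟩ := cone_step h1 h2 h3 (a n) (b n)
    refine ⟨φ', k1, k2, k3, fun i hi => ?_⟩
    rcases Nat.lt_succ_iff_lt_or_eq.1 hi with hi | rfl
    · rw [k5 (a i) (by rw [h4 i hi]; exact hab i n (by omega) (by omega)), h4 i hi]
    · exact k4

end general

section base

/-- A triangle wave. -/
noncomputable def tri (t : ℝ) : ℝ := |t - 2 * (⌊(t + 1) / 2⌋ : ℤ)|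

lemma tri_le_one (t : ℝ) : tri t ≤ 1 := by
  rw [tri, abs_le]
  have h1 := Int.floor_le ((t + 1) / 2)
  have h2 := Int.lt_floor_add_one ((t + 1) / 2)
  constructor <;> linarith

lemma tri_nonneg (t : ℝ) : 0 ≤ tri t := abs_nonneg _

lemma tri_le (t : ℝ) (m : ℤ) : tri t ≤ |t - 2 * m| := by
  rcases eq_or_ne m ⌊(t + 1) / 2⌋ with h | h
  · rw [tri, h]
  · have h1 := Int.floor_le ((t + 1) / 2)
    have h2 := Int.lt_floor_add_one ((t + 1) / 2)
    refine (tri_le_one t).trans ?_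
    rcases lt_or_gt_of_ne h with h3 | h3
    · have h4 : m + 1 ≤ ⌊(t + 1) / 2⌋ := h3
      have h5 : ((m : ℝ) + 1) ≤ ⌊(t + 1) / 2⌋ := by exact_mod_cast h4
      rw [le_abs]
      left
      linarith
    · have h4 : ⌊(t + 1) / 2⌋ + 1 ≤ m := h3
      have h5 : ((⌊(t + 1) / 2⌋ : ℝ) + 1) ≤ m := by exact_mod_cast h4
      rw [le_abs]
      right
      linarith

lemma tri_lip (s t : ℝ) : |tri s - tri t| ≤ |s - t| := by
  have key : ∀ s t : ℝ, tri s - tri t ≤ |s - t| := by
    intro s t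
    have h1 := tri_le s ⌊(t + 1) / 2⌋
    have h2 : |s - 2 * (⌊(t + 1) / 2⌋ : ℤ)| ≤ |s - t| + |t - 2 * (⌊(t + 1) / 2⌋ : ℤ)| :=
      abs_sub_le _ _ _
    have h3 : tri t = |t - 2 * (⌊(t + 1) / 2⌋ : ℤ)| := rfl
    linarith
  rw [abs_le]
  have h1 := key s t
  have h2 := key t s
  rw [abs_sub_comm] at h2
  constructor <;> linarith

lemma tri_isom {s t : ℝ} (h : ⌊s⌋ = ⌊t⌋) : |tri s - tri t| = |s - t| := by
  have hs1 := Int.floor_le s
  have hs2 := Int.lt_floor_add_one s
  have ht1 := Int.floor_le t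
  have ht2 := Int.lt_floor_add_one t
  rw [h] at hs1 hs2
  set k := ⌊t⌋ with hk
  rcases Int.even_or_odd k with ⟨m, hm⟩ | ⟨m, hm⟩
  · have hkm : (k : ℝ) = 2 * m := by rw [hm]; push_cast; ring
    have f1 : ∀ x : ℝ, (k : ℝ) ≤ x → x < k + 1 → tri x = x - 2 * m := by
      intro x h1 h2
      have : ⌊(x + 1) / 2⌋ = m := by
        rw [Int.floor_eq_iff]
        constructor <;> linarith
      rw [tri, this, abs_of_nonneg (by linarith)]
    rw [f1 s hs1 hs2, f1 t ht1 ht2]
    congr 1; ring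
  · have hkm : (k : ℝ) = 2 * m + 1 := by rw [hm]; push_cast; ring
    have f1 : ∀ x : ℝ, (k : ℝ) ≤ x → x < k + 1 → tri x = 2 * (m + 1) - x := by
      intro x h1 h2
      have : ⌊(x + 1) / 2⌋ = m + 1 := by
        rw [Int.floor_eq_iff]
        push_cast
        constructor <;> linarith
      rw [tri, this, abs_of_nonpos (by push_cast; linarith)]
      push_cast; ring
    rw [f1 s hs1 hs2, f1 t ht1 ht2, abs_sub_comm s t]
    congr 1; ring

variable {H : Type v} [NormedAddCommGroup H] [InnerProductSpace ℝ H]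

lemma norm_comb {h1 h2 : H} (n1 : ‖h1‖ = 1) (n2 : ‖h2‖ = 1) (n12 : inner ℝ h1 h2 = 0) (s t : ℝ) :
    ‖s • h1 + t • h2‖ ^ 2 = s ^ 2 + t ^ 2 := by
  rw [norm_add_sq_real, norm_smul, norm_smul, real_inner_smul_left, real_inner_smul_right, n1, n2,
    n12]
  simp

/-- The starting map. -/
noncomputable def base (h1 h2 : H) (z : ℂ) : H := tri z.re • h1 + tri z.im • h2

lemma base_sub (h1 h2 : H) (z w : ℂ) : base h1 h2 z - base h1 h2 w
    = (tri z.re - tri w.re) • h1 + (tri z.im - tri w.im) • h2 := by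
  rw [base, base, sub_smul, sub_smul]; abel

lemma norm_sq_complex (z : ℂ) : ‖z‖ ^ 2 = z.re ^ 2 + z.im ^ 2 := by
  rw [← Complex.normSq_eq_norm_sq, Complex.normSq_apply]; ring

lemma base_short {h1 h2 : H} (n1 : ‖h1‖ = 1) (n2 : ‖h2‖ = 1) (n12 : inner ℝ h1 h2 = 0) :
    Short (base h1 h2) := by
  intro z w
  apply le_of_sq_le_sq _ (norm_nonneg _)
  rw [base_sub, norm_comb n1 n2 n12, norm_sq_complex, Complex.sub_re, Complex.sub_im]
  have a1 := sq_le_sq.2 (tri_lip z.re w.re)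
  have a2 := sq_le_sq.2 (tri_lip z.im w.im)
  linarith

lemma base_bdd {h1 h2 : H} (n1 : ‖h1‖ = 1) (n2 : ‖h2‖ = 1) : ∃ B, ∀ z, ‖base h1 h2 z‖ ≤ B := by
  refine ⟨2, fun z => ?_⟩
  refine (norm_add_le _ _).trans ?_
  rw [norm_smul, norm_smul, n1, n2, Real.norm_eq_abs, Real.norm_eq_abs,
    abs_of_nonneg (tri_nonneg _), abs_of_nonneg (tri_nonneg _)]
  linarith [tri_le_one z.re, tri_le_one z.im]

lemma base_PI {h1 h2 : H} (n1 : ‖h1‖ = 1) (n2 : ‖h2‖ = 1) (n12 : inner ℝ h1 h2 = 0) :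
    PI (base h1 h2) := by
  intro R
  refine ⟨ℤ × ℤ, fun z => (⌊z.re⌋, ⌊z.im⌋), ?_, ?_⟩
  · apply Set.Finite.subset (s := (Set.Icc ⌊-R⌋ ⌊R⌋) ×ˢ (Set.Icc ⌊-R⌋ ⌊R⌋))
      ((Set.finite_Icc _ _).prod (Set.finite_Icc _ _))
    rintro _ ⟨z, hz, rfl⟩
    have hz' : ‖z‖ ≤ R := hz
    have h3 := abs_le.1 ((Complex.abs_re_le_norm z).trans hz')
    have h4 := abs_le.1 ((Complex.abs_im_le_norm z).trans hz')
    exact ⟨⟨Int.floor_le_floor h3.1, Int.floor_le_floor h3.2⟩,
      ⟨Int.floor_le_floor h4.1, Int.floor_le_floor h4.2⟩⟩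
  · intro z w _ _ hzw
    rw [Prod.mk.injEq] at hzw
    rw [← sq_eq_sq₀ (norm_nonneg _) (norm_nonneg _), base_sub, norm_comb n1 n2 n12,
      norm_sq_complex, Complex.sub_re, Complex.sub_im]
    have a1 := tri_isom hzw.1
    have a2 := tri_isom hzw.2
    rw [← sq_abs, a1, sq_abs, ← sq_abs (tri z.im - tri w.im), a2, sq_abs]

end base

end Pool.Agent.W2helper13.Am
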