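import Mathlib

/-!
# Kirszbraun's theorem for real Hilbert spaces
-/

set_option autoImplicit false

namespace Pool.Agent.W2helper13.Am

open Set Filter Topology

universe u v w

section finite

variable {X : Type u} [NormedAddCommGroup X] [InnerProductSpace ℝ X]
  {H : Type v} [NormedAddCommGroup H] [InnerProductSpace ℝ H]

/-- Variance identity. -/
lemma var_id {ι : Type w} [Fintype ι] (p : ι → ℝ) (hp : ∑ i, p i = 1) (v : ι → H) :
    ∑ i, p i * ‖v i‖ ^ 2 - ‖∑ i, p i • v i‖ ^ 2 =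
      (1 / 2) * ∑ i, ∑ j, p i * p j * ‖v i - v j‖ ^ 2 := by
  have h1 : ‖∑ i, p i • v i‖ ^ 2 = ∑ i, ∑ j, p i * p j * inner ℝ (v i) (v j) := by
    rw [← real_inner_self_eq_norm_sq, sum_inner]
    refine Finset.sum_congr rfl fun i _ => ?_
    rw [inner_sum]
    refine Finset.sum_congr rfl fun j _ => ?_
    rw [real_inner_smul_left, real_inner_smul_right]
    ring
  have h2 : ∀ i j, p i * p j * ‖v i - v j‖ ^ 2 =
      p j * (p i * ‖v i‖ ^ 2) - 2 * (p i * p j * inner ℝ (v i) (v j)) +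
        p i * (p j * ‖v j‖ ^ 2) := by
    intro i j
    rw [norm_sub_sq_real]
    ring
  have h3 : ∑ i, ∑ j, p i * p j * ‖v i - v j‖ ^ 2 =
      2 * ∑ i, p i * ‖v i‖ ^ 2 - 2 * ∑ i, ∑ j, p i * p j * inner ℝ (v i) (v j) := by
    simp only [h2, Finset.sum_add_distrib, Finset.sum_sub_distrib]
    have e1 : ∑ i, ∑ j, p j * (p i * ‖v i‖ ^ 2) = ∑ i, p i * ‖v i‖ ^ 2 := by
      refine Finset.sum_congr rfl fun i _ => ?_
      rw [← Finset.sum_mul, hp, one_mul]
    have e2 : ∑ i, ∑ j, p i * (p j * ‖v j‖ ^ 2) = ∑ i, p i * ‖v i‖ ^ 2 := by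
      simp only [← Finset.mul_sum]
      rw [← Finset.sum_mul, hp, one_mul]
    have e3 : ∑ i, ∑ j, 2 * (p i * p j * inner ℝ (v i) (v j)) =
        2 * ∑ i, ∑ j, p i * p j * inner ℝ (v i) (v j) := by
      simp only [← Finset.mul_sum]
    rw [e1, e2, e3]
    ring
  rw [h1, h3]
  ring

/-- One point extension for finite data. -/
lemma one_point {ι : Type w} [Fintype ι] [Nonempty ι] (A : ι → X) (b : ι → H)
    (x : X) (h : ∀ i j, ‖b i - b j‖ ≤ ‖A i - A j‖) :
    ∃ y : H, ∀ i, ‖y - b i‖ ≤ ‖x - A i‖ := by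
  classical
  set r : ι → ℝ := fun i => ‖x - A i‖ with hr
  set L : (ι → ℝ) → ℝ := fun p => ∑ i, p i * (‖b i‖ ^ 2 - r i ^ 2) - ‖∑ i, p i • b i‖ ^ 2 with hL
  have hcont : Continuous L := by
    refine Continuous.sub ?_ (Continuous.pow (Continuous.norm ?_) 2)
    · exact continuous_finsetSum _ fun i _ => (continuous_apply i).mul continuous_const
    · exact continuous_finsetSum _ fun i _ => (continuous_apply i).smul continuous_const
  have hne : (stdSimplex ℝ ι).Nonempty :=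
    ⟨_, single_mem_stdSimplex ℝ (Classical.arbitrary ι)⟩
  obtain ⟨p, hp, hmax⟩ := (isCompact_stdSimplex ℝ ι).exists_isMaxOn hne hcont.continuousOn
  have hp0 := hp.1
  have hp1 := hp.2
  set y : H := ∑ i, p i • b i with hy
  refine ⟨y, fun k => ?_⟩
  -- the dual value is nonpositive
  have hLp : L p ≤ 0 := by
    have e1 : L p = (∑ i, p i * ‖b i‖ ^ 2 - ‖∑ i, p i • b i‖ ^ 2) - ∑ i, p i * r i ^ 2 := by
      simp only [hL, mul_sub, Finset.sum_sub_distrib]
      ring
    have e2 := var_id p hp1 b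
    have e3 := var_id p hp1 (fun i => A i - x)
    have e4 : ∑ i, ∑ j, p i * p j * ‖b i - b j‖ ^ 2 ≤
        ∑ i, ∑ j, p i * p j * ‖(A i - x) - (A j - x)‖ ^ 2 := by
      refine Finset.sum_le_sum fun i _ => Finset.sum_le_sum fun j _ => ?_
      refine mul_le_mul_of_nonneg_left ?_ (mul_nonneg (hp0 i) (hp0 j))
      rw [sub_sub_sub_cancel_right]
      exact pow_le_pow_left₀ (norm_nonneg _) (h i j) 2
    have e6 : ∑ i, p i * r i ^ 2 = ∑ i, p i * ‖A i - x‖ ^ 2 := by
      refine Finset.sum_congr rfl fun i _ => ?_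
      simp only [hr]
      rw [norm_sub_rev x (A i)]
    have e7 : 0 ≤ ‖∑ i, p i • (A i - x)‖ ^ 2 := by positivity
    rw [e1, e2, e6]
    linarith [e4, e7, e3]
  -- first order condition
  have hfo : ‖b k‖ ^ 2 - r k ^ 2 - ∑ i, p i * (‖b i‖ ^ 2 - r i ^ 2) - 2 * inner ℝ y (b k - y) ≤ 0 := by
    have key : ∀ ε : ℝ, 0 < ε → ε ≤ 1 →
        ‖b k‖ ^ 2 - r k ^ 2 - ∑ i, p i * (‖b i‖ ^ 2 - r i ^ 2) - 2 * inner ℝ y (b k - y) ≤
          ε * ‖b k - y‖ ^ 2 := by
      intro ε he he1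
      set q : ι → ℝ := fun i => (1 - ε) * p i + ε * (Pi.single k (1 : ℝ) : ι → ℝ) i with hq
      have hqm : q ∈ stdSimplex ℝ ι := by
        refine ⟨fun i => ?_, ?_⟩
        · have h1 : 0 ≤ (Pi.single k (1 : ℝ) : ι → ℝ) i := (single_mem_stdSimplex ℝ k).1 i
          have h2 := hp0 i
          have : 0 ≤ 1 - ε := by linarith
          simp only [hq]
          positivity
        · simp only [hq, Finset.sum_add_distrib, ← Finset.mul_sum, hp1,
            (single_mem_stdSimplex ℝ k).2]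
          ring
      have h1 := hmax hqm
      have s1 : ∑ i, q i * (‖b i‖ ^ 2 - r i ^ 2) =
          (1 - ε) * ∑ i, p i * (‖b i‖ ^ 2 - r i ^ 2) + ε * (‖b k‖ ^ 2 - r k ^ 2) := by
        have : ∀ i, q i * (‖b i‖ ^ 2 - r i ^ 2) = (1 - ε) * (p i * (‖b i‖ ^ 2 - r i ^ 2)) +
            ε * ((Pi.single k (1 : ℝ) : ι → ℝ) i * (‖b i‖ ^ 2 - r i ^ 2)) := by
          intro i; simp only [hq]; ring
        simp only [this, Finset.sum_add_distrib, ← Finset.mul_sum]
        congr 2
        rw [Finset.sum_eq_single k]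
        · simp
        · intro i _ hi
          rw [Pi.single_eq_of_ne hi, zero_mul]
        · intro hk; exact absurd (Finset.mem_univ k) hk
      have s2 : ∑ i, q i • b i = y + ε • (b k - y) := by
        have : ∀ i, q i • b i = (1 - ε) • (p i • b i) +
            ε • ((Pi.single k (1 : ℝ) : ι → ℝ) i • b i) := by
          intro i; simp only [hq]; rw [add_smul, smul_smul, smul_smul]
        simp only [this, Finset.sum_add_distrib, ← Finset.smul_sum]
        rw [Finset.sum_eq_single k (f := fun i => (Pi.single k (1 : ℝ) : ι → ℝ) i • b i)]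
        · rw [Pi.single_eq_same, one_smul, ← hy]
          module
        · intro i _ hi
          rw [Pi.single_eq_of_ne hi, zero_smul]
        · intro hk; exact absurd (Finset.mem_univ k) hk
      have s3 : ‖y + ε • (b k - y)‖ ^ 2 = ‖y‖ ^ 2 + 2 * ε * inner ℝ y (b k - y) +
          ε ^ 2 * ‖b k - y‖ ^ 2 := by
        rw [norm_add_sq_real, real_inner_smul_right, norm_smul, mul_pow, Real.norm_eq_abs, sq_abs]
        ring
      simp only [hL, Set.mem_ofPred_eq] at h1
      rw [s1, s2, s3, ← hy] at h1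
      have h2 : ε * (‖b k‖ ^ 2 - r k ^ 2 - ∑ i, p i * (‖b i‖ ^ 2 - r i ^ 2) -
          2 * inner ℝ y (b k - y)) ≤ ε * (ε * ‖b k - y‖ ^ 2) := by
        nlinarith [h1]
      exact le_of_mul_le_mul_left h2 he
    by_contra hcon
    push Not at hcon
    set c := ‖b k‖ ^ 2 - r k ^ 2 - ∑ i, p i * (‖b i‖ ^ 2 - r i ^ 2) - 2 * inner ℝ y (b k - y) with hc
    set d := ‖b k - y‖ ^ 2 with hd
    have hd0 : 0 ≤ d := by positivity
    have hε : 0 < min 1 (c / (2 * (d + 1))) := lt_min one_pos (by positivity)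
    have h3 := key _ hε (min_le_left _ _)
    have h4 : min 1 (c / (2 * (d + 1))) * d ≤ c / (2 * (d + 1)) * d :=
      mul_le_mul_of_nonneg_right (min_le_right _ _) hd0
    have h5 : c / (2 * (d + 1)) * d < c := by
      rw [div_mul_eq_mul_div, div_lt_iff₀ (by positivity)]
      nlinarith
    linarith
  have hfin : ‖y - b k‖ ^ 2 ≤ r k ^ 2 := by
    have e1 : L p = ∑ i, p i * (‖b i‖ ^ 2 - r i ^ 2) - ‖y‖ ^ 2 := rfl
    rw [e1] at hLp
    rw [inner_sub_right, real_inner_self_eq_norm_sq] at hfo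
    rw [norm_sub_sq_real]
    linarith
  have hrk : 0 ≤ r k := by simp only [hr]; positivity
  exact abs_le_of_sq_le_sq' hfin hrk |>.2

end finite

section directed

variable {H : Type v} [NormedAddCommGroup H] [InnerProductSpace ℝ H] [CompleteSpace H]

/-- A downward directed family of nonempty closed convex sets, one of which is bounded, has a
common point. -/
lemma directed_inter {ι : Type w} (B : ι → Set H) (hcl : ∀ i, IsClosed (B i))
    (hcv : ∀ i, Convex ℝ (B i)) (i₀ : ι) {R : ℝ} (hR : ∀ x ∈ B i₀, ‖x‖ ≤ R)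
    (hne : ∀ s : Finset ι, (⋂ i ∈ s, B i).Nonempty) : (⋂ i, B i).Nonempty := by
  classical
  -- the element of least norm
  have hmin : ∀ s : Finset ι, ∃ c ∈ ⋂ i ∈ s, B i, ∀ x ∈ ⋂ i ∈ s, B i, ‖c‖ ≤ ‖x‖ := by
    intro s
    have h1 : IsClosed (⋂ i ∈ s, B i) := isClosed_biInter fun i _ => hcl i
    have h2 : Convex ℝ (⋂ i ∈ s, B i) := convex_iInter₂ fun i _ => hcv i
    obtain ⟨c, hc, h3⟩ := exists_norm_eq_iInf_of_complete_convex (hne s) h1.isComplete h2 (0 : H)
    refine ⟨c, hc, fun x hx => ?_⟩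
    rw [zero_sub, norm_neg] at h3
    rw [h3]
    have : (⨅ w : (⋂ i ∈ s, B i), ‖(0 : H) - w‖) ≤ ‖(0 : H) - (⟨x, hx⟩ : (⋂ i ∈ s, B i))‖ :=
      ciInf_le ⟨0, by rintro _ ⟨w, rfl⟩; exact norm_nonneg _⟩ _
    rwa [zero_sub, norm_neg] at this
  choose c hc hcm using hmin
  have hsub : ∀ {s t : Finset ι}, s ⊆ t → (⋂ i ∈ t, B i) ⊆ ⋂ i ∈ s, B i := fun {s t} hst =>
    biInter_mono (fun i hi => hst hi) fun _ _ => Subset.rfl
  have hmono : ∀ {s t : Finset ι}, s ⊆ t → ‖c s‖ ≤ ‖c t‖ := fun {s t} hst =>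
    hcm s _ (hsub hst (hc t))
  have hpar : ∀ {s t : Finset ι}, s ⊆ t → ‖c s - c t‖ ^ 2 ≤ 2 * (‖c t‖ ^ 2 - ‖c s‖ ^ 2) := by
    intro s t hst
    have h1 : (1 / 2 : ℝ) • c s + (1 / 2 : ℝ) • c t ∈ ⋂ i ∈ s, B i :=
      (convex_iInter₂ fun i _ => hcv i) (hc s) (hsub hst (hc t)) (by norm_num) (by norm_num)
        (by norm_num)
    have h2 := hcm s _ h1
    have h3 := parallelogram_law_with_norm ℝ (c s) (c t)
    have h4 : (1 / 2 : ℝ) • c s + (1 / 2 : ℝ) • c t = (1 / 2 : ℝ) • (c s + c t) := by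
      rw [smul_add]
    rw [h4, norm_smul, Real.norm_eq_abs, abs_of_nonneg (by norm_num : (0 : ℝ) ≤ 1 / 2)] at h2
    have h5 : ‖c s‖ ^ 2 ≤ (1 / 2 * ‖c s + c t‖) ^ 2 := pow_le_pow_left₀ (norm_nonneg _) h2 2
    nlinarith [h3, h5]
  have hbd : ∀ s : Finset ι, ‖c s‖ ≤ R := by
    intro s
    refine (hmono (Finset.subset_insert i₀ s)).trans ?_
    apply hR
    have := hc (insert i₀ s)
    rw [mem_iInter₂] at this
    exact this i₀ (Finset.mem_insert_self _ _)
  -- the supremum of the least norms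
  set M : ℝ := ⨆ s : Finset ι, ‖c s‖ ^ 2 with hM
  have hbdd : BddAbove (Set.range fun s : Finset ι => ‖c s‖ ^ 2) := by
    refine ⟨R ^ 2, ?_⟩
    rintro _ ⟨s, rfl⟩
    exact pow_le_pow_left₀ (norm_nonneg _) (hbd s) 2
  have hle : ∀ s, ‖c s‖ ^ 2 ≤ M := fun s => le_ciSup hbdd s
  have hex : ∀ n : ℕ, ∃ s : Finset ι, M - 1 / (n + 1) < ‖c s‖ ^ 2 := by
    intro n
    apply exists_lt_of_lt_ciSup
    have : (0 : ℝ) < 1 / (n + 1) := by positivity
    linarith
  choose S hS using hex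
  -- increasing sequence
  let T : ℕ → Finset ι := fun n => (Finset.range (n + 1)).biUnion S
  have hTmono : ∀ {m n : ℕ}, m ≤ n → T m ⊆ T n := fun {m n} hmn =>
    Finset.biUnion_subset_biUnion_of_subset_left _ (Finset.range_mono (by omega))
  have hT : ∀ n, M - 1 / (n + 1) < ‖c (T n)‖ ^ 2 := by
    intro n
    refine (hS n).trans_le (pow_le_pow_left₀ (norm_nonneg _) (hmono ?_) 2)
    exact Finset.subset_biUnion_of_mem S (Finset.mem_range.2 (by omega))
  have hclose : ∀ n (t : Finset ι), T n ⊆ t → ‖c (T n) - c t‖ ^ 2 ≤ 2 / (n + 1) := by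
    intro n t ht
    refine (hpar ht).trans ?_
    have h1 := hle t
    have h2 := hT n
    have : (2 : ℝ) / (n + 1) = 2 * (1 / (n + 1)) := by ring
    rw [this]
    linarith
  have hlim0 : Tendsto (fun n : ℕ => Real.sqrt (2 / ((n : ℝ) + 1))) atTop (𝓝 0) := by
    have h1 : Tendsto (fun n : ℕ => (2 : ℝ) / ((n : ℝ) + 1)) atTop (𝓝 0) := by
      have := (tendsto_one_div_add_atTop_nhds_zero_nat (𝕜 := ℝ)).const_mul 2
      rw [mul_zero] at this
      refine this.congr fun n => ?_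
      ring
    have h2 := (Real.continuous_sqrt.tendsto 0).comp h1
    rw [Real.sqrt_zero] at h2
    exact h2
  have hclose' : ∀ n (t : Finset ι), T n ⊆ t → ‖c (T n) - c t‖ ≤ Real.sqrt (2 / ((n : ℝ) + 1)) := by
    intro n t ht
    apply Real.le_sqrt_of_sq_le
    exact hclose n t ht
  have hcau : CauchySeq fun n => c (T n) := by
    rw [Metric.cauchySeq_iff']
    intro ε hε
    obtain ⟨N, hN⟩ := (Metric.tendsto_atTop.1 hlim0) ε hε
    refine ⟨N, fun n hn => ?_⟩
    have h1 := hN N le_rfl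
    rw [Real.dist_eq, sub_zero, abs_of_nonneg (Real.sqrt_nonneg _)] at h1
    rw [dist_eq_norm, norm_sub_rev]
    exact (hclose' N _ (hTmono hn)).trans_lt h1
  obtain ⟨z, hz⟩ := cauchySeq_tendsto_of_complete hcau
  refine ⟨z, mem_iInter.2 fun i => ?_⟩
  -- `c (insert i (T n))` tends to `z`, too
  have h2 : Tendsto (fun n => c (insert i (T n))) atTop (𝓝 z) := by
    have h3 : Tendsto (fun n => c (T n) - c (insert i (T n))) atTop (𝓝 0) := by
      refine squeeze_zero_norm (fun n => ?_) hlim0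
      exact hclose' n _ (Finset.subset_insert _ _)
    have h4 := hz.sub h3
    rw [sub_zero] at h4
    refine h4.congr fun n => ?_
    abel
  refine (hcl i).mem_of_tendsto h2 (Eventually.of_forall fun n => ?_)
  have := hc (insert i (T n))
  rw [mem_iInter₂] at this
  exact this i (Finset.mem_insert_self _ _)

end directed

section kirszbraun

variable {X : Type u} [NormedAddCommGroup X] [InnerProductSpace ℝ X]
  {H : Type v} [NormedAddCommGroup H] [InnerProductSpace ℝ H] [CompleteSpace H]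

/-- One point extension for arbitrary data. -/
lemma one_point' {ι : Type w} [Nonempty ι] (A : ι → X) (b : ι → H) (x : X)
    (h : ∀ i j, ‖b i - b j‖ ≤ ‖A i - A j‖) : ∃ y : H, ∀ i, ‖y - b i‖ ≤ ‖x - A i‖ := by
  classical
  obtain ⟨i₀⟩ := (inferInstance : Nonempty ι)
  have := directed_inter (fun i => Metric.closedBall (b i) ‖x - A i‖)
    (fun i => Metric.isClosed_closedBall) (fun i => convex_closedBall _ _) i₀
    (R := ‖b i₀‖ + ‖x - A i₀‖) (fun y hy => by
      rw [mem_closedBall_iff_norm] at hy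
      have h1 : y = b i₀ + (y - b i₀) := by abel
      rw [h1]
      exact (norm_add_le _ _).trans (by linarith)) (fun s => by
      rcases s.eq_empty_or_nonempty with rfl | hs
      · simp
      · have : Nonempty s := hs.to_subtype
        obtain ⟨y, hy⟩ := one_point (fun i : s => A i) (fun i : s => b i) x
          (fun i j => h i j)
        refine ⟨y, mem_iInter₂.2 fun i hi => ?_⟩
        rw [mem_closedBall_iff_norm]
        exact hy ⟨i, hi⟩)
  obtain ⟨y, hy⟩ := this
  refine ⟨y, fun i => ?_⟩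
  have := mem_iInter.1 hy i
  rwa [mem_closedBall_iff_norm] at this

/-- Kirszbraun's theorem. -/
theorem kirszbraun (A : Set X) (f : X → H) (hf : ∀ x ∈ A, ∀ y ∈ A, ‖f x - f y‖ ≤ ‖x - y‖) :
    ∃ g : X → H, (∀ x y, ‖g x - g y‖ ≤ ‖x - y‖) ∧ ∀ x ∈ A, g x = f x := by
  classical
  -- graphs
  let 𝒢 : Set (Set (X × H)) := {G | ∀ p ∈ G, ∀ q ∈ G, ‖p.2 - q.2‖ ≤ ‖p.1 - q.1‖}
  obtain ⟨G, hGsub, hG⟩ := zorn_subset_nonempty 𝒢 (by
    intro c hc hchain _
    refine ⟨⋃₀ c, ?_, fun s hs => subset_sUnion_of_mem hs⟩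
    rintro p ⟨s, hs, hps⟩ q ⟨t, ht, hqt⟩
    rcases hchain.total hs ht with hst | hst
    · exact hc ht p (hst hps) q hqt
    · exact hc hs p hps q (hst hqt)) ((fun x => (x, f x)) '' A) (by
    rintro _ ⟨x, hx, rfl⟩ _ ⟨y, hy, rfl⟩
    exact hf x hx y hy)
  have hGm : G ∈ 𝒢 := hG.prop
  -- every point is in the domain
  have hdom : ∀ x : X, ∃ y : H, (x, y) ∈ G := by
    intro x
    by_contra hcon
    push Not at hcon
    obtain ⟨y, hy⟩ : ∃ y : H, ∀ p ∈ G, ‖y - p.2‖ ≤ ‖x - p.1‖ := by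
      rcases G.eq_empty_or_nonempty with hG0 | hG0
      · exact ⟨0, fun p hp => by rw [hG0] at hp; exact absurd hp (notMem_empty _)⟩
      · have : Nonempty G := hG0.to_subtype
        obtain ⟨y, hy⟩ := one_point' (fun p : G => (p : X × H).1) (fun p : G => (p : X × H).2) x
          (fun p q => hGm p p.2 q q.2)
        exact ⟨y, fun p hp => hy ⟨p, hp⟩⟩
    have h1 : insert (x, y) G ∈ 𝒢 := by
      rintro p hp q hq
      rcases hp with rfl | hp
      · rcases hq with rfl | hq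
        · simp
        · exact hy q hq
      · rcases hq with rfl | hq
        · have := hy p hp
          rwa [norm_sub_rev, norm_sub_rev x] at this
        · exact hGm p hp q hq
    have h2 := hG.le_of_ge h1 (subset_insert _ _)
    exact hcon y (h2 (mem_insert _ _))
  choose g hg using hdom
  refine ⟨g, fun x y => hGm _ (hg x) _ (hg y), fun x hx => ?_⟩
  have h1 : (x, f x) ∈ G := hGsub ⟨x, hx, rfl⟩
  have h2 := hGm _ (hg x) _ h1
  simp only [sub_self, norm_zero] at h2
  exact sub_eq_zero.1 (norm_le_zero_iff.1 h2)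

/-- Kirszbraun's theorem with a constant. -/
theorem kirszbraun_const (A : Set X) (f : X → H) {L : ℝ} (hL : 0 ≤ L)
    (hf : ∀ x ∈ A, ∀ y ∈ A, ‖f x - f y‖ ≤ L * ‖x - y‖) :
    ∃ g : X → H, (∀ x y, ‖g x - g y‖ ≤ L * ‖x - y‖) ∧ ∀ x ∈ A, g x = f x := by
  rcases hL.eq_or_lt with rfl | hL
  · rcases A.eq_empty_or_nonempty with rfl | ⟨a, ha⟩
    · exact ⟨fun _ => 0, fun x y => by simp, fun x hx => absurd hx (notMem_empty _)⟩
    · refine ⟨fun _ => f a, fun x y => by simp, fun x hx => ?_⟩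
      have := hf a ha x hx
      rw [zero_mul] at this
      exact sub_eq_zero.1 (norm_le_zero_iff.1 this)
  · obtain ⟨g, h1, h2⟩ := kirszbraun A (fun x => L⁻¹ • f x) (by
      intro x hx y hy
      rw [← smul_sub, norm_smul, norm_inv, Real.norm_eq_abs, abs_of_pos hL,
        inv_mul_le_iff₀ hL]
      exact hf x hx y hy)
    refine ⟨fun x => L • g x, fun x y => ?_, fun x hx => ?_⟩
    · rw [← smul_sub, norm_smul, Real.norm_eq_abs, abs_of_pos hL]
      exact mul_le_mul_of_nonneg_left (h1 x y) hL.le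
    · change L • g x = f x
      rw [h2 x hx, smul_smul, mul_inv_cancel₀ hL.ne', one_smul]

end kirszbraun

end Pool.Agent.W2helper13.Am
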