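import Mathlib
import Pool.Agent.W2helper13.Am.Kirsz
import Pool.Agent.W2helper13.Am.Brehm

/-!
# Rigid points
-/

set_option autoImplicit false

namespace Pool.Agent.W2helper13.Am

open Set Filter Topology

universe u v w

variable {X : Type u} [NormedAddCommGroup X] [InnerProductSpace ℝ X]
  {H : Type v} [NormedAddCommGroup H] [InnerProductSpace ℝ H]

/-- The value `c` at `x` is compatible with the boundary data, with a margin `δ`. -/
def NRat {X : Type u} [NormedAddCommGroup X] {H : Type v} [NormedAddCommGroup H]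
    (C : Set X) (F : X → H) (x : X) (c : H) (δ : ℝ) : Prop :=
  0 < δ ∧ ∀ y ∈ frontier C, ‖F y - c‖ ≤ ‖x - y‖ - δ

/-- Nonrigid points. -/
def NR {X : Type u} [NormedAddCommGroup X] {H : Type v} [NormedAddCommGroup H]
    (C : Set X) (F : X → H) (x : X) : Prop := ∃ c δ, NRat C F x c δ

/-- The Lipschitz constant of `g` on `S` is at least one. -/
def Good {X : Type u} [NormedAddCommGroup X] {H : Type v} [NormedAddCommGroup H]
    (S : Set X) (g : X → H) : Prop :=
  ∀ l : ℝ, 0 ≤ l → l < 1 → ∃ p ∈ S, ∃ q ∈ S, l * ‖p - q‖ < ‖g p - g q‖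

lemma Good.mono {S T : Set X} {g : X → H} (h : Good S g) (hST : S ⊆ T) : Good T g := by
  intro l h0 h1
  obtain ⟨p, hp, q, hq, h2⟩ := h l h0 h1
  exact ⟨p, hST hp, q, hST hq, h2⟩

lemma isOpen_NR {C : Set X} {F : X → H} : IsOpen {x | NR C F x} := by
  rw [Metric.isOpen_iff]
  rintro x ⟨c, δ, hδ, h⟩
  refine ⟨δ / 2, by positivity, fun x' hx' => ⟨c, δ / 2, by positivity, fun y hy => ?_⟩⟩
  rw [mem_ball_iff_norm] at hx'
  have h1 := h y hy
  have h2 : ‖x - y‖ ≤ ‖x' - x‖ + ‖x' - y‖ := by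
    have : x - y = -(x' - x) + (x' - y) := by abel
    rw [this]
    exact (norm_add_le _ _).trans (by rw [norm_neg])
  linarith

lemma sq_norm_sub_unit {e ν : X} (he : ‖e‖ = 1) (hν : ‖ν‖ = 1) (m η : ℝ) :
    ‖m • e - η • ν‖ ^ 2 = m ^ 2 - 2 * (m * η * inner ℝ e ν) + η ^ 2 := by
  rw [norm_sub_sq_real, norm_smul, norm_smul, real_inner_smul_left, real_inner_smul_right,
    he, hν, mul_one, mul_one, Real.norm_eq_abs, Real.norm_eq_abs, sq_abs, sq_abs]
  ring

lemma sq_norm_add_unit {e ν : X} (he : ‖e‖ = 1) (hν : ‖ν‖ = 1) (m η : ℝ) :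
    ‖m • e + η • ν‖ ^ 2 = m ^ 2 + 2 * (m * η * inner ℝ e ν) + η ^ 2 := by
  rw [norm_add_sq_real, norm_smul, norm_smul, real_inner_smul_left, real_inner_smul_right,
    he, hν, mul_one, mul_one, Real.norm_eq_abs, Real.norm_eq_abs, sq_abs, sq_abs]
  ring

section

variable [CompleteSpace H] {C : Set X} {F : X → H} {g : X → H}

/-- Open sets with a rigid point. -/
lemma rigid_one (hC : IsOpen C) (hg : Short g) (hgF : ∀ y ∈ frontier C, g y = F y) {U : Set X}
    (hU : IsOpen U) (hUC : U ⊆ C) {x : X} (hx : x ∈ U) (hnr : ¬ NR C F x) :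
    Good (frontier U) g := by
  by_contra hcon
  rw [Good] at hcon
  push Not at hcon
  obtain ⟨l, h0, h1, h2⟩ := hcon
  obtain ⟨h, k1, k2⟩ := kirszbraun_const (frontier U) g h0 h2
  obtain ⟨ρ, hρ, hb⟩ := Metric.isOpen_iff.1 hU x hx
  apply hnr
  refine ⟨h x, (1 - l) * ρ, by nlinarith, fun y hy => ?_⟩
  have hyU : y ∉ U := fun hyU => by
    rw [hC.frontier_eq] at hy
    exact hy.2 (hUC hyU)
  obtain ⟨p, hp1, hp2⟩ := exists_frontier_seg hx hyU
  have e := norm_add_of_mem_seg hp1
  have hpU : p ∉ U := by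
    rw [hU.frontier_eq] at hp2
    exact hp2.2
  have h3 : ρ ≤ ‖x - p‖ := by
    by_contra hlt
    push Not at hlt
    apply hpU
    apply hb
    rw [mem_ball_iff_norm, norm_sub_rev]
    exact hlt
  have h4 : ‖F y - h x‖ ≤ ‖F y - g p‖ + ‖h p - h x‖ := by
    rw [k2 p hp2]
    have : F y - h x = (F y - g p) + (g p - h x) := by abel
    rw [this]
    exact norm_add_le _ _
  rw [← hgF y hy] at h4 ⊢
  have h5 := hg y p
  have h6 := k1 p x
  rw [norm_sub_rev y p] at h5
  rw [norm_sub_rev p x] at h6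
  nlinarith

/-- The quantitative part of the next lemma. -/
lemma rigid_two (hC : IsOpen C) (hg : Short g) (hgF : ∀ y ∈ frontier C, g y = F y) {Q : Set X}
    (hQC : Q ⊆ C) {l : ℝ} (hl0 : 0 ≤ l) (hl1 : l < 1)
    (hQ : ∀ p ∈ frontier Q, ∀ q ∈ frontier Q, ‖g p - g q‖ ≤ l * ‖p - q‖)
    {q₀ z : X} {r ρ s : ℝ} (hr : 0 < r) (hball : Metric.ball q₀ r ⊆ Q) (hz : z ∈ frontier Q)
    (hρ : 0 < ρ) (hzC : ∀ y ∈ frontier C, ρ ≤ ‖y - z‖) (hs : 0 < s) (hsρ : s ≤ ρ)
    (hsr : s ≤ (1 - l) * r / 8) (hzq : ‖z - q₀‖ ≤ r + (1 - l) * s / 16) : NR C F z := by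
  set k := 1 - l with hk
  have hk0 : 0 < k := by linarith
  have hk1 : k ≤ 1 := by linarith
  have hnb : ∀ p ∈ frontier Q, r ≤ ‖p - q₀‖ := by
    intro p hp
    by_contra hlt
    push Not at hlt
    have h1 : p ∈ interior Q := interior_maximal hball Metric.isOpen_ball
      (by rw [mem_ball_iff_norm]; exact hlt)
    exact hp.2 h1
  set d := ‖z - q₀‖ with hd
  have hrd : r ≤ d := hnb z hz
  have hd0 : 0 < d := by linarith
  set ν : X := d⁻¹ • (z - q₀) with hν
  have hνn : ‖ν‖ = 1 := by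
    rw [hν, norm_smul, norm_inv, Real.norm_eq_abs, abs_of_pos hd0, ← hd,
      inv_mul_cancel₀ hd0.ne']
  have hzν : z - q₀ = d • ν := by
    rw [hν, smul_smul, mul_inv_cancel₀ hd0.ne', one_smul]
  set θ := k / 16 with hθ
  have hθ0 : 0 < θ := by positivity
  set η := min (θ * ρ) (k * s / 4) with hη
  have hη0 : 0 < η := by positivity
  have hη1 : η ≤ θ * ρ := min_le_left _ _
  have hη2 : η ≤ k * s / 4 := min_le_right _ _
  refine ⟨g (z + η • ν), min (η * θ / 2) (k * s / 4), by positivity, fun y hy => ?_⟩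
  set m := ‖y - z‖ with hm
  have hm1 : ρ ≤ m := hzC y hy
  have hm0 : 0 < m := by linarith
  set e : X := m⁻¹ • (y - z) with he
  have hen : ‖e‖ = 1 := by
    rw [he, norm_smul, norm_inv, Real.norm_eq_abs, abs_of_pos hm0, ← hm,
      inv_mul_cancel₀ hm0.ne']
  have hyz : y - z = m • e := by
    rw [he, smul_smul, mul_inv_cancel₀ hm0.ne', one_smul]
  rw [norm_sub_rev z y, ← hm, ← hgF y hy]
  have hyC : y ∉ Q := fun h => by
    rw [hC.frontier_eq] at hy
    exact hy.2 (hQC h)
  rcases le_or_gt θ (inner ℝ e ν) with hA | hB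
  · -- outward directions
    have h1 : ‖g y - g (z + η • ν)‖ ≤ m - η * θ / 2 := by
      refine (hg _ _).trans ?_
      have e1 : y - (z + η • ν) = m • e - η • ν := by rw [← hyz]; abel
      rw [e1]
      have h2 : η * θ / 2 ≤ m := by nlinarith
      apply le_of_sq_le_sq _ (by linarith)
      rw [sq_norm_sub_unit hen hνn]
      have h3 : m * η * θ ≤ m * η * inner ℝ e ν := mul_le_mul_of_nonneg_left hA (by positivity)
      have h4 : η ≤ θ * m := hη1.trans (mul_le_mul_of_nonneg_left hm1 hθ0.le)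
      have h5 : η * η ≤ η * (θ * m) := mul_le_mul_of_nonneg_left h4 hη0.le
      nlinarith [sq_nonneg (η * θ)]
    linarith [min_le_left (η * θ / 2) (k * s / 4)]
  · -- the other directions
    have key : ‖g y - g z‖ ≤ m - k * s / 2 := by
      set w : X := z + s • e with hw
      have hwz : ‖w - z‖ = s := by
        rw [hw, add_sub_cancel_left, norm_smul, hen, Real.norm_eq_abs, abs_of_pos hs, mul_one]
      have hyw : ‖y - w‖ = m - s := by
        have : y - w = (m - s) • e := by
          rw [sub_smul, ← hyz, hw]; abel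
        rw [this, norm_smul, hen, mul_one, Real.norm_eq_abs, abs_of_nonneg (by linarith)]
      by_cases hwQ : w ∈ Q
      · obtain ⟨p, hp1, hp2⟩ := exists_frontier_seg hwQ hyC
        have e1 := norm_add_of_mem_seg hp1
        have h1 : ‖p - z‖ ≤ ‖w - p‖ + s := by
          have : p - z = -(w - p) + (w - z) := by abel
          rw [this]
          refine (norm_add_le _ _).trans ?_
          rw [norm_neg, hwz]
        have h2 := hQ p hp2 z hz
        have h3 := hg y p
        rw [norm_sub_rev y p] at h3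
        have h4 : ‖g y - g z‖ ≤ ‖g y - g p‖ + ‖g p - g z‖ := norm_sub_le_norm_sub_add_norm_sub _ _ _
        rw [norm_sub_rev w y, hyw] at e1
        have h5 : l * ‖p - z‖ ≤ l * (‖w - p‖ + s) := mul_le_mul_of_nonneg_left h1 hl0
        have h6 : 0 ≤ k * ‖w - p‖ := by positivity
        have h7 : 0 < k * s := by positivity
        have h8 : l * (‖w - p‖ + s) = (‖w - p‖ + s) - k * ‖w - p‖ - k * s := by rw [hk]; ring
        linarith
      · have hq₀ : q₀ ∈ Q := hball (Metric.mem_ball_self hr)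
        obtain ⟨p, hp1, hp2⟩ := exists_frontier_seg hq₀ hwQ
        have e1 := norm_add_of_mem_seg hp1
        have h1 := hnb p hp2
        rw [norm_sub_rev] at h1
        have h2 : ‖q₀ - w‖ ≤ d + s * θ + s ^ 2 / (2 * r) := by
          rw [norm_sub_rev]
          apply le_of_sq_le_sq _ (by positivity)
          have e2 : w - q₀ = d • ν + s • e := by rw [← hzν, hw]; abel
          rw [e2, sq_norm_add_unit hνn hen, real_inner_comm]
          have h3 : d * s * inner ℝ e ν ≤ d * s * θ := mul_le_mul_of_nonneg_left hB.le (by positivity)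
          have h4 : s ^ 2 ≤ 2 * d * (s ^ 2 / (2 * r)) := by
            have : 2 * d * (s ^ 2 / (2 * r)) = (d / r) * s ^ 2 := by field_simp
            rw [this]
            have h5 : 1 ≤ d / r := by rw [le_div_iff₀ hr]; linarith
            nlinarith [sq_nonneg s]
          have h5 : 0 ≤ s * θ + s ^ 2 / (2 * r) := by positivity
          nlinarith [sq_nonneg (s * θ + s ^ 2 / (2 * r))]
        have h3 : s ^ 2 / (2 * r) ≤ k * s / 16 := by
          rw [div_le_iff₀ (by positivity)]
          nlinarith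
        have h4 : ‖p - w‖ ≤ 3 * (k * s / 16) := by
          have : s * θ = k * s / 16 := by rw [hθ]; ring
          linarith
        have h5 : ‖p - z‖ ≤ ‖p - w‖ + s := by
          have : p - z = (p - w) + (w - z) := by abel
          rw [this]
          refine (norm_add_le _ _).trans ?_
          rw [hwz]
        have h6 := hQ p hp2 z hz
        have h7 : l * ‖p - z‖ ≤ l * (‖p - w‖ + s) := mul_le_mul_of_nonneg_left h5 hl0
        have h8 : ‖g y - g z‖ ≤ ‖g y - g w‖ + (‖g w - g p‖ + ‖g p - g z‖) :=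
          (norm_sub_le_norm_sub_add_norm_sub _ (g w) _).trans (add_le_add le_rfl
            (norm_sub_le_norm_sub_add_norm_sub _ _ _))
        have h9 := hg y w
        have h10 := hg w p
        rw [hyw] at h9
        rw [norm_sub_rev w p] at h10
        have h11 : l * ‖p - w‖ ≤ 1 * ‖p - w‖ :=
          mul_le_mul_of_nonneg_right hl1.le (norm_nonneg _)
        have h12 : l * (‖p - w‖ + s) = l * ‖p - w‖ + (s - k * s) := by rw [hk]; ring
        have h13 : 0 < k * s := by positivity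
        linarith
    have h1 := hg z (z + η • ν)
    have e1 : z - (z + η • ν) = -(η • ν) := by abel
    rw [e1, norm_neg, norm_smul, hνn, mul_one, Real.norm_eq_abs, abs_of_pos hη0] at h1
    have h2 : ‖g y - g (z + η • ν)‖ ≤ ‖g y - g z‖ + ‖g z - g (z + η • ν)‖ :=
      norm_sub_le_norm_sub_add_norm_sub _ _ _
    linarith [min_le_right (η * θ / 2) (k * s / 4)]

/-- Open sets whose frontier consists of rigid points. -/
lemma rigid_three (hC : IsOpen C) (hg : Short g) (hgF : ∀ y ∈ frontier C, g y = F y) {Q : Set X}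
    (hQo : IsOpen Q) (hQC : Q ⊆ C) {p : X} (hp : p ∈ frontier Q) (hpC : p ∈ C)
    (hall : ∀ z ∈ frontier Q, z ∈ C → ¬ NR C F z) : Good (frontier Q) g := by
  by_contra hcon
  rw [Good] at hcon
  push Not at hcon
  obtain ⟨l, hl0, hl1, hQ⟩ := hcon
  obtain ⟨R, hR, hb⟩ := Metric.isOpen_iff.1 hC p hpC
  have hpQ : p ∉ Q := by
    rw [hQo.frontier_eq] at hp
    exact hp.2
  obtain ⟨q₀, hq₀, hq₀p⟩ := Metric.mem_closure_iff.1 hp.1 (R / 4) (by positivity)
  have hcl : IsClosed Qᶜ := hQo.isClosed_compl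
  have hne : (Qᶜ).Nonempty := ⟨p, hpQ⟩
  set r := Metric.infDist q₀ Qᶜ with hr
  have hr0 : 0 < r := (hcl.notMem_iff_infDist_pos hne).1 (fun h => h hq₀)
  have hball : Metric.ball q₀ r ⊆ Q := by
    intro y hy
    by_contra hyQ
    have h1 : r ≤ dist q₀ y := Metric.infDist_le_dist_of_mem hyQ
    rw [Metric.mem_ball, dist_comm] at hy
    linarith
  have hrp : r ≤ dist q₀ p := Metric.infDist_le_dist_of_mem hpQ
  set s := min ((1 - l) * r / 8) (R / 4) with hs
  have hl : 0 < 1 - l := by linarith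
  have hs0 : 0 < s := by positivity
  have hε : 0 < (1 - l) * s / 16 := by positivity
  obtain ⟨z₀, hz₀, hz₀d⟩ := (Metric.infDist_lt_iff hne).1 (show Metric.infDist q₀ Qᶜ <
    r + (1 - l) * s / 16 by rw [← hr]; linarith)
  obtain ⟨z, hz1, hz2⟩ := exists_frontier_seg hq₀ hz₀
  have e1 := norm_add_of_mem_seg hz1
  have h1 : ‖q₀ - z‖ < r + (1 - l) * s / 16 := by
    rw [dist_eq_norm] at hz₀d
    linarith [norm_nonneg (z - z₀)]
  have hsR : s ≤ R / 4 := min_le_right _ _
  have h2 : (1 - l) * s / 16 ≤ R / 64 := by nlinarith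
  have h3 : ‖z - p‖ < 3 * R / 4 := by
    have : z - p = -(q₀ - z) + (q₀ - p) := by abel
    rw [this]
    refine (norm_add_le _ _).trans_lt ?_
    rw [norm_neg, ← dist_eq_norm q₀ p]
    rw [dist_comm] at hq₀p
    linarith
  have hzC : z ∈ C := by
    apply hb
    rw [mem_ball_iff_norm]
    linarith
  refine hall z hz2 hzC ?_
  refine rigid_two hC hg hgF hQC hl0 hl1 hQ hr0 hball hz2 (ρ := R / 4) (by positivity) ?_ hs0
    hsR (min_le_left _ _) (by rw [norm_sub_rev]; exact h1.le)
  intro y hy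
  have hyC : y ∉ C := by
    rw [hC.frontier_eq] at hy
    exact hy.2
  have h4 : R ≤ ‖y - p‖ := by
    by_contra hlt
    push Not at hlt
    exact hyC (hb (by rw [mem_ball_iff_norm]; exact hlt))
  have h5 : ‖y - p‖ ≤ ‖y - z‖ + ‖z - p‖ := norm_sub_le_norm_sub_add_norm_sub _ _ _
  linarith

end

end Pool.Agent.W2helper13.Am
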