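import Mathlib
import Pool.Agent.W2helper13.Am.Rigid

/-!
# Making a short map isometric on a thin ribbon
-/

set_option autoImplicit false

namespace Pool.Agent.W2helper13.Am

open Set Filter Topology

universe u v w

section plane

variable {X : Type u} [NormedAddCommGroup X] [InnerProductSpace ℝ X]

lemma bessel_two {e w : X} (he : ‖e‖ = 1) (hw : ‖w‖ = 1) (h : inner ℝ e w = 0) (z : X) :
    (inner ℝ e z) ^ 2 + (inner ℝ w z) ^ 2 ≤ ‖z‖ ^ 2 := by
  have h0 : 0 ≤ ‖z - (inner ℝ e z • e + inner ℝ w z • w)‖ ^ 2 := by positivity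
  rw [norm_sub_sq_real, norm_comb he hw h, inner_add_right, real_inner_smul_right,
    real_inner_smul_right, real_inner_comm e z, real_inner_comm w z] at h0
  nlinarith

/-- Coordinates in a plane. -/
noncomputable def PP (u e w : X) (x : X) : ℂ := ⟨inner ℝ e (x - u), inner ℝ w (x - u)⟩

lemma PP_short {u e w : X} (he : ‖e‖ = 1) (hw : ‖w‖ = 1) (h : inner ℝ e w = 0) :
    Short (PP u e w) := by
  intro x y
  apply le_of_sq_le_sq _ (norm_nonneg _)
  rw [norm_sq_complex]
  have e1 : (PP u e w x - PP u e w y).re = inner ℝ e (x - y) := by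
    rw [Complex.sub_re]
    change inner ℝ e (x - u) - inner ℝ e (y - u) = _
    rw [← inner_sub_right]
    congr 1; abel
  have e2 : (PP u e w x - PP u e w y).im = inner ℝ w (x - y) := by
    rw [Complex.sub_im]
    change inner ℝ w (x - u) - inner ℝ w (y - u) = _
    rw [← inner_sub_right]
    congr 1; abel
  rw [e1, e2]
  exact bessel_two he hw h _

lemma PP_apply {u e w : X} (he : ‖e‖ = 1) (hw : ‖w‖ = 1) (h : inner ℝ e w = 0) (a b : ℝ) :
    PP u e w (u + (a • e + b • w)) = ⟨a, b⟩ := by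
  have h' : inner ℝ w e = 0 := by rw [real_inner_comm]; exact h
  rw [PP, add_sub_cancel_left]
  apply Complex.ext
  · simp only
    rw [inner_add_right, real_inner_smul_right, real_inner_smul_right, h,
      real_inner_self_eq_norm_sq, he]
    ring
  · simp only
    rw [inner_add_right, real_inner_smul_right, real_inner_smul_right, h',
      real_inner_self_eq_norm_sq, hw]
    ring

end plane

variable {X : Type u} [NormedAddCommGroup X] [InnerProductSpace ℝ X]
  {H : Type v} [NormedAddCommGroup H] [InnerProductSpace ℝ H] [CompleteSpace H]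

/-- Convex combinations of short maps. -/
lemma short_comb {g h : X → H} (hg : Short g) (hh : Short h) {t : ℝ} (ht0 : 0 ≤ t) (ht1 : t ≤ 1) :
    Short fun x => (1 - t) • g x + t • h x := by
  intro x y
  have e : ((1 - t) • g x + t • h x) - ((1 - t) • g y + t • h y)
      = (1 - t) • (g x - g y) + t • (h x - h y) := by
    rw [smul_sub, smul_sub]; abel
  simp only
  rw [e]
  refine (norm_add_le _ _).trans ?_
  rw [norm_smul, norm_smul, Real.norm_eq_abs, Real.norm_eq_abs, abs_of_nonneg ht0,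
    abs_of_nonneg (by linarith)]
  have h1 := mul_le_mul_of_nonneg_left (hg x y) (show 0 ≤ 1 - t by linarith)
  have h2 := mul_le_mul_of_nonneg_left (hh x y) ht0
  linarith

/-- A short map is close to one which is strictly short near a given nonrigid point. -/
lemma slack {C : Set X} {F : X → H} {g : X → H} (hg : Short g) (hgF : ∀ y ∈ frontier C, g y = F y)
    {y₀ : X} (hy₀ : y₀ ∈ frontier C) {x₀ : X} {c : H} {δ : ℝ} (hNR : NRat C F x₀ c δ) (R : ℝ)
    {ε : ℝ} (hε : 0 < ε) :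
    ∃ (g₁ : X → H) (t : ℝ), 0 < t ∧ t ≤ 1 / 2 ∧ Short g₁ ∧ (∀ y ∈ frontier C, g₁ y = F y) ∧
      (∀ x, ‖x‖ ≤ R → ‖g₁ x - g x‖ ≤ ε) ∧
      ∀ a b, ‖a - x₀‖ ≤ δ → ‖b - x₀‖ ≤ δ → ‖g₁ a - g₁ b‖ ≤ (1 - t) * ‖a - b‖ := by
  classical
  obtain ⟨hδ, hm⟩ := hNR
  obtain ⟨h, hh, hhA⟩ := kirszbraun (frontier C ∪ {x | ‖x - x₀‖ ≤ δ})
    (fun x => if x ∈ frontier C then F x else c) (by
      have key : ∀ x y, x ∈ frontier C → ‖y - x₀‖ ≤ δ → ‖F x - c‖ ≤ ‖x - y‖ := by
        intro x y hx hy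
        have h1 := hm x hx
        have h2 : ‖x₀ - x‖ ≤ ‖x₀ - y‖ + ‖y - x‖ := norm_sub_le_norm_sub_add_norm_sub _ _ _
        rw [norm_sub_rev x₀ y, norm_sub_rev y x] at h2
        linarith
      intro x hx y hy
      by_cases hxC : x ∈ frontier C
      · by_cases hyC : y ∈ frontier C
        · simp only [hxC, hyC, if_true]
          rw [← hgF x hxC, ← hgF y hyC]
          exact hg x y
        · simp only [hxC, hyC, if_true, if_false]
          rcases hy with hy | hy
          · exact absurd hy hyC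
          · exact key x y hxC hy
      · by_cases hyC : y ∈ frontier C
        · simp only [hxC, hyC, if_true, if_false]
          rcases hx with hx | hx
          · exact absurd hx hxC
          · rw [norm_sub_rev, norm_sub_rev x]
            exact key y x hyC hx
        · simp only [hxC, hyC, if_false, sub_self, norm_zero]
          exact norm_nonneg _)
  have hhF : ∀ y ∈ frontier C, h y = F y := by
    intro y hy
    rw [hhA y (Or.inl hy), if_pos hy]
  have hhc : ∀ x, ‖x - x₀‖ ≤ δ → h x = c := by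
    intro x hx
    rw [hhA x (Or.inr hx)]
    split_ifs with hxC
    · have h1 := hm x hxC
      rw [norm_sub_rev x₀ x] at h1
      exact sub_eq_zero.1 (norm_le_zero_iff.1 (by linarith))
    · rfl
  set K : ℝ := 2 * (|R| + ‖y₀‖) + 1 with hK
  have hK0 : 0 < K := by positivity
  set t : ℝ := min (1 / 2) (ε / K) with ht
  have ht0 : 0 < t := by positivity
  have ht1 : t ≤ 1 / 2 := min_le_left _ _
  refine ⟨fun x => (1 - t) • g x + t • h x, t, ht0, ht1,
    short_comb hg hh ht0.le (by linarith), ?_, ?_, ?_⟩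
  · intro y hy
    simp only
    rw [hgF y hy, hhF y hy, ← add_smul]
    simp
  · intro x hx
    simp only
    have e : (1 - t) • g x + t • h x - g x = t • (h x - g x) := by
      rw [smul_sub, sub_smul, one_smul]; abel
    rw [e, norm_smul, Real.norm_eq_abs, abs_of_pos ht0]
    have h1 : ‖h x - g x‖ ≤ K := by
      have e2 : h x - g x = (h x - h y₀) + (g y₀ - g x) := by
        rw [hhF y₀ hy₀, hgF y₀ hy₀]; abel
      rw [e2]
      refine (norm_add_le _ _).trans ?_
      have h2 := hh x y₀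
      have h3 := hg y₀ x
      have h4 : ‖x - y₀‖ ≤ ‖x‖ + ‖y₀‖ := norm_sub_le _ _
      rw [norm_sub_rev y₀ x] at h3
      have h5 := le_abs_self R
      linarith
    calc t * ‖h x - g x‖ ≤ (ε / K) * K :=
          mul_le_mul (min_le_right _ _) h1 (norm_nonneg _) (by positivity)
      _ = ε := by field_simp
  · intro a b ha hb
    simp only
    rw [hhc a ha, hhc b hb]
    have e : (1 - t) • g a + t • c - ((1 - t) • g b + t • c) = (1 - t) • (g a - g b) := by
      rw [smul_sub]; abel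
    rw [e, norm_smul, Real.norm_eq_abs, abs_of_nonneg (by linarith)]
    exact mul_le_mul_of_nonneg_left (hg a b) (by linarith)

/-- The main step. -/
theorem step {C : Set X} {F : X → H} {g : X → H} (hg : Short g)
    (hgF : ∀ y ∈ frontier C, g y = F y) {y₀ : X} (hy₀ : y₀ ∈ frontier C)
    (hX : ∀ e : X, ‖e‖ = 1 → ∃ w : X, ‖w‖ = 1 ∧ inner ℝ e w = 0)
    {h1 h2 : H} (n1 : ‖h1‖ = 1) (n2 : ‖h2‖ = 1) (n12 : inner ℝ h1 h2 = 0)
    {x₀ : X} {c : H} {δ : ℝ} (hNR : NRat C F x₀ c δ) {u v : X} (hu : ‖u - x₀‖ < δ)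
    (hv : ‖v - x₀‖ < δ) (huv : u ≠ v) {r : ℝ} (hr : 0 < r) {l : ℝ} (hl1 : l < 1) (R : ℝ)
    {ε : ℝ} (hε : 0 < ε) :
    ∃ g' : X → H, Short g' ∧ (∀ y ∈ frontier C, g' y = F y) ∧
      (∀ x, ‖x‖ ≤ R → ‖g' x - g x‖ ≤ ε) ∧
      ∃ R' ε' : ℝ, 0 < ε' ∧ ∀ g'' : X → H, (∀ x, ‖x‖ ≤ R' → ‖g'' x - g' x‖ ≤ ε') →
        ∀ U : Set X, Metric.ball u r ⊆ U → (∀ x ∈ Metric.ball v r, x ∉ U) →
          ∃ p ∈ frontier U, ∃ q ∈ frontier U, l * ‖p - q‖ < ‖g'' p - g'' q‖ := by
  classical
  obtain ⟨g₁, t, ht0, ht1, hg₁, hg₁F, hg₁g, hg₁s⟩ := slack hg hgF hy₀ hNR R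
    (show 0 < ε / 2 by positivity)
  obtain ⟨hδ, hm⟩ := hNR
  -- geometry
  set ℓ := ‖v - u‖ with hℓ
  have hℓ0 : 0 < ℓ := norm_pos_iff.2 (sub_ne_zero.2 huv.symm)
  set e : X := ℓ⁻¹ • (v - u) with he
  have hen : ‖e‖ = 1 := by
    rw [he, norm_smul, norm_inv, Real.norm_eq_abs, abs_of_pos hℓ0, ← hℓ,
      inv_mul_cancel₀ hℓ0.ne']
  have hvu : v - u = ℓ • e := by
    rw [he, smul_smul, mul_inv_cancel₀ hℓ0.ne', one_smul]
  obtain ⟨w, hwn, hew⟩ := hX e hen
  set ρ := max ‖u - x₀‖ ‖v - x₀‖ with hρ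
  have hρδ : ρ < δ := max_lt hu hv
  set ν := min ((δ - ρ) / 4) (ε / 16) with hν
  have hν0 : 0 < ν := by
    have : 0 < δ - ρ := by linarith
    positivity
  have hν1 : 4 * ν ≤ δ - ρ := by
    have : ν ≤ (δ - ρ) / 4 := min_le_left _ _
    linarith
  have hν2 : 16 * ν ≤ ε := by
    have : ν ≤ ε / 16 := min_le_right _ _
    linarith
  set s₀ := min (t * ν / 8) (r / 2) with hs₀
  have hs0 : 0 < s₀ := by positivity
  have hs1 : s₀ ≤ t * ν / 8 := min_le_left _ _
  have hs2 : s₀ < r := by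
    have : s₀ ≤ r / 2 := min_le_right _ _
    linarith
  have htν : t * ν ≤ ν / 2 := by nlinarith
  have hs3 : s₀ ≤ ν / 16 := by linarith
  clear_value s₀ ν ρ e ℓ
  -- points of the segment
  have hseg : ∀ τ : ℝ, 0 ≤ τ → τ ≤ ℓ → ‖(u + τ • e) - x₀‖ ≤ ρ := by
    intro τ h0 h1
    have e1 : (u + τ • e) - x₀ = (1 - τ / ℓ) • (u - x₀) + (τ / ℓ) • (v - x₀) := by
      have e2 : τ • e = (τ / ℓ) • (v - u) := by
        rw [he, smul_smul, div_eq_mul_inv]
      rw [e2, sub_smul, one_smul]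
      module
    have h2 : τ / ℓ ≤ 1 := by rw [div_le_one hℓ0]; exact h1
    have h3 : 0 ≤ τ / ℓ := by positivity
    rw [e1]
    refine (norm_add_le _ _).trans ?_
    rw [norm_smul, norm_smul, Real.norm_eq_abs, Real.norm_eq_abs, abs_of_nonneg h3,
      abs_of_nonneg (by linarith)]
    have h4 := mul_le_mul_of_nonneg_left (le_max_left ‖u - x₀‖ ‖v - x₀‖)
      (show 0 ≤ 1 - τ / ℓ by linarith)
    have h5 := mul_le_mul_of_nonneg_left (le_max_right ‖u - x₀‖ ‖v - x₀‖) h3
    rw [← hρ] at h4 h5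
    linarith
  clear hρ hν hs₀
  -- the net
  obtain ⟨M, hM⟩ := exists_nat_gt (8 * ℓ / (t * ν))
  have hM0 : 0 < (M : ℝ) := lt_trans (by positivity) hM
  have hM1 : ℓ / M ≤ t * ν / 8 := by
    rw [div_lt_iff₀ (by positivity)] at hM
    rw [div_le_iff₀ hM0]
    linarith
  obtain ⟨φ, hφ, -, hφP, hφa⟩ := brehm (base_short n1 n2 n12) (base_bdd n1 n2)
    (base_PI n1 n2 n12) (fun i : ℕ => (⟨i * (ℓ / M), 0⟩ : ℂ))
    (fun i : ℕ => g₁ (u + (i * (ℓ / M)) • e)) (M + 1) (by
      intro i j _ _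
      refine (hg₁ _ _).trans ?_
      have e1 : u + ((i : ℝ) * (ℓ / M)) • e - (u + ((j : ℝ) * (ℓ / M)) • e)
          = ((i : ℝ) * (ℓ / M) - (j : ℝ) * (ℓ / M)) • e := by
        rw [sub_smul]; abel
      rw [e1, norm_smul, hen, mul_one, Real.norm_eq_abs]
      refine le_trans (le_of_eq ?_) (Complex.abs_re_le_norm _)
      rw [Complex.sub_re])
  set ψ : X → H := fun x => φ (PP u e w x) with hψ
  have hψs : Short ψ := fun x y => (hφ _ _).trans (PP_short hen hwn hew x y)
  have hψi : ∀ i : ℕ, i < M + 1 → ψ (u + ((i : ℝ) * (ℓ / M)) • e)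
      = g₁ (u + ((i : ℝ) * (ℓ / M)) • e) := by
    intro i hi
    have h1 := PP_apply (u := u) hen hwn hew ((i : ℝ) * (ℓ / M)) 0
    rw [zero_smul, add_zero] at h1
    simp only [hψ]
    rw [h1]
    exact hφa i hi
  -- closeness near the segment
  have hnear : ∀ x : X, ∀ τ : ℝ, 0 ≤ τ → τ ≤ ℓ → ‖x - (u + τ • e)‖ ≤ s₀ →
      ‖ψ x - g₁ x‖ ≤ t * ν / 2 := by
    intro x τ h0 h1 hx
    set i := ⌊τ / (ℓ / M)⌋₊ with hi
    have hlm : 0 < ℓ / M := by positivity
    have h2 : (i : ℝ) * (ℓ / M) ≤ τ := by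
      have := Nat.floor_le (show 0 ≤ τ / (ℓ / M) by positivity)
      rwa [le_div_iff₀ hlm] at this
    have h3 : τ < ((i : ℝ) + 1) * (ℓ / M) := by
      have := Nat.lt_floor_add_one (τ / (ℓ / M))
      rwa [div_lt_iff₀ hlm] at this
    have h4 : i < M + 1 := by
      have h5 : (i : ℝ) ≤ M := by
        have h6 : (i : ℝ) * (ℓ / M) ≤ M * (ℓ / M) := by
          have : (M : ℝ) * (ℓ / M) = ℓ := by field_simp
          rw [this]; linarith
        exact le_of_mul_le_mul_right h6 hlm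
      have : i ≤ M := by exact_mod_cast h5
      omega
    have h5 := hψi i h4
    set xi := u + ((i : ℝ) * (ℓ / M)) • e with hxi
    have h6 : ‖x - xi‖ ≤ s₀ + ℓ / M := by
      have e1 : x - xi = (x - (u + τ • e)) + (τ - (i : ℝ) * (ℓ / M)) • e := by
        rw [hxi, sub_smul]; abel
      rw [e1]
      refine (norm_add_le _ _).trans (add_le_add hx ?_)
      rw [norm_smul, hen, mul_one, Real.norm_eq_abs, abs_of_nonneg (by linarith)]
      linarith
    have h7 : ‖ψ x - g₁ x‖ ≤ ‖ψ x - ψ xi‖ + ‖g₁ xi - g₁ x‖ := by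
      rw [h5]
      exact norm_sub_le_norm_sub_add_norm_sub _ _ _
    have h8 := hψs x xi
    have h9 := hg₁ xi x
    rw [norm_sub_rev xi x] at h9
    linarith
  -- the tube and its complement
  set T : Set X := {x | ∃ τ : ℝ, 0 ≤ τ ∧ τ ≤ ℓ ∧ ‖x - (u + τ • e)‖ ≤ s₀} with hT
  set N : Set X := {x | ∀ τ : ℝ, 0 ≤ τ → τ ≤ ℓ → s₀ + ν ≤ ‖x - (u + τ • e)‖} with hN
  have hTball : ∀ x ∈ T, ‖x - x₀‖ ≤ ρ + s₀ := by
    rintro x ⟨τ, h0, h1, h2⟩
    have h3 := hseg τ h0 h1
    have h4 : ‖x - x₀‖ ≤ ‖x - (u + τ • e)‖ + ‖(u + τ • e) - x₀‖ :=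
      norm_sub_le_norm_sub_add_norm_sub _ _ _
    linarith
  have hnearT : ∀ x ∈ T, ‖ψ x - g₁ x‖ ≤ t * ν / 2 := by
    rintro x ⟨τ, h0, h1, h2⟩
    exact hnear x τ h0 h1 h2
  have hcross0 : ∀ x ∈ T, ∀ z : X, ‖z - x₀‖ ≤ δ → ν ≤ ‖x - z‖ → ‖ψ x - g₁ z‖ ≤ ‖x - z‖ := by
    intro x hx z hz hxz
    have h3 := hTball x hx
    have h4 := hg₁s x z (by linarith) hz
    have h5 := hnearT x hx
    have h6 : ‖ψ x - g₁ z‖ ≤ ‖ψ x - g₁ x‖ + ‖g₁ x - g₁ z‖ :=
      norm_sub_le_norm_sub_add_norm_sub _ _ _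
    have h7 : t * ν ≤ t * ‖x - z‖ := mul_le_mul_of_nonneg_left hxz ht0.le
    nlinarith
  have hcross : ∀ x ∈ T, ∀ y ∈ N, ‖ψ x - g₁ y‖ ≤ ‖x - y‖ := by
    intro x hx y hy
    by_cases hyb : ‖y - x₀‖ ≤ δ
    · refine hcross0 x hx y hyb ?_
      obtain ⟨τ, h0, h1, h2⟩ := hx
      have h3 := hy τ h0 h1
      have h4 : ‖y - (u + τ • e)‖ ≤ ‖y - x‖ + ‖x - (u + τ • e)‖ :=
        norm_sub_le_norm_sub_add_norm_sub _ _ _
      rw [norm_sub_rev y x] at h4
      linarith
    · have hxb : x ∈ Metric.closedBall x₀ δ := by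
        rw [mem_closedBall_iff_norm]
        linarith [hTball x hx]
      have hyb' : y ∉ Metric.closedBall x₀ δ := by
        rw [mem_closedBall_iff_norm]
        exact hyb
      obtain ⟨z, hz1, hz2⟩ := exists_frontier_seg hxb hyb'
      have hz3 := Metric.frontier_closedBall_subset_sphere hz2
      rw [mem_sphere_iff_norm] at hz3
      have e1 := norm_add_of_mem_seg hz1
      have h3 : ν ≤ ‖x - z‖ := by
        have h4 : ‖z - x₀‖ ≤ ‖z - x‖ + ‖x - x₀‖ := norm_sub_le_norm_sub_add_norm_sub _ _ _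
        rw [norm_sub_rev z x] at h4
        linarith [hTball x hx]
      have h4 := hcross0 x hx z hz3.le h3
      have h5 := hg₁ z y
      have h6 : ‖ψ x - g₁ y‖ ≤ ‖ψ x - g₁ z‖ + ‖g₁ z - g₁ y‖ :=
        norm_sub_le_norm_sub_add_norm_sub _ _ _
      linarith
  obtain ⟨g', hg', hg'A⟩ := kirszbraun (T ∪ N) (fun x => if x ∈ T then ψ x else g₁ x) (by
    intro x hx y hy
    by_cases hxT : x ∈ T
    · by_cases hyT : y ∈ T
      · simp only [hxT, hyT, if_true]
        exact hψs x y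
      · simp only [hxT, hyT, if_true, if_false]
        rcases hy with hy | hy
        · exact absurd hy hyT
        · exact hcross x hxT y hy
    · by_cases hyT : y ∈ T
      · simp only [hxT, hyT, if_true, if_false]
        rcases hx with hx | hx
        · exact absurd hx hxT
        · rw [norm_sub_rev, norm_sub_rev x]
          exact hcross y hyT x hx
      · simp only [hxT, hyT, if_false]
        exact hg₁ x y)
  have hg'T : ∀ x ∈ T, g' x = ψ x := fun x hx => by rw [hg'A x (Or.inl hx), if_pos hx]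
  have hclose : ∀ x, ‖g' x - g₁ x‖ ≤ ε / 2 := by
    intro x
    by_cases hxT : x ∈ T
    · rw [hg'T x hxT]
      linarith [hnearT x hxT]
    · by_cases hxN : x ∈ N
      · rw [hg'A x (Or.inr hxN), if_neg hxT, sub_self, norm_zero]
        positivity
      · simp only [hN, mem_ofPred_eq] at hxN
        push Not at hxN
        obtain ⟨τ, h0, h1, h2⟩ := hxN
        have hpT : u + τ • e ∈ T := ⟨τ, h0, h1, by rw [sub_self, norm_zero]; exact hs0.le⟩
        have h3 := hg' x (u + τ • e)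
        have h4 := hg₁ (u + τ • e) x
        have h5 := hnearT _ hpT
        rw [← hg'T _ hpT] at h5
        rw [norm_sub_rev _ x] at h4
        have h6 : ‖g' x - g₁ x‖ ≤ ‖g' x - g' (u + τ • e)‖ + (‖g' (u + τ • e) - g₁ (u + τ • e)‖ +
            ‖g₁ (u + τ • e) - g₁ x‖) :=
          (norm_sub_le_norm_sub_add_norm_sub _ (g' (u + τ • e)) _).trans
            (add_le_add le_rfl (norm_sub_le_norm_sub_add_norm_sub _ _ _))
        linarith
  refine ⟨g', hg', ?_, ?_, ?_⟩
  · intro y hy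
    have h3 : δ ≤ ‖x₀ - y‖ := by
      have := hm y hy
      linarith [norm_nonneg (F y - c)]
    have hyN : y ∈ N := by
      intro τ h0 h1
      have h4 := hseg τ h0 h1
      have h5 : ‖x₀ - y‖ ≤ ‖x₀ - (u + τ • e)‖ + ‖(u + τ • e) - y‖ :=
        norm_sub_le_norm_sub_add_norm_sub _ _ _
      rw [norm_sub_rev x₀ (u + τ • e), norm_sub_rev (u + τ • e) y] at h5
      linarith
    have hyT : y ∉ T := by
      rintro ⟨τ, h0, h1, h4⟩
      have := hyN τ h0 h1
      linarith
    rw [hg'A y (Or.inr hyN), if_neg hyT, hg₁F y hy]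
  · intro x hx
    have h3 := hclose x
    have h4 := hg₁g x hx
    have h5 : ‖g' x - g x‖ ≤ ‖g' x - g₁ x‖ + ‖g₁ x - g x‖ :=
      norm_sub_le_norm_sub_add_norm_sub _ _ _
    linarith
  · obtain ⟨κ, col, hfin, hcol⟩ := hφP (ℓ + s₀)
    obtain ⟨n, hn⟩ : ∃ n, n = hfin.toFinset.card := ⟨_, rfl⟩
    have hn0 : (0 : ℝ) < (n : ℝ) + 1 := by positivity
    refine ⟨‖u‖ + ℓ + s₀, (1 - l) * (s₀ / (n + 1)) / 4, by
      have : 0 < 1 - l := by linarith
      positivity, ?_⟩
    intro g'' hg'' U hU hV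
    -- the crossing points
    have hpt : ∀ k : ℕ, k < n + 1 → ∃ τ : ℝ, 0 ≤ τ ∧ τ ≤ ℓ ∧
        u + (τ • e + ((k : ℝ) * (s₀ / (n + 1))) • w) ∈ frontier U := by
      intro k hk
      have hk' : (k : ℝ) < n + 1 := by exact_mod_cast hk
      set b := (k : ℝ) * (s₀ / (n + 1)) with hb
      have hb0 : 0 ≤ b := by positivity
      have hb1 : b ≤ s₀ := by
        rw [hb]
        have : (k : ℝ) * (s₀ / (n + 1)) ≤ (n + 1) * (s₀ / (n + 1)) :=
          mul_le_mul_of_nonneg_right hk'.le (by positivity)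
        have e1 : ((n : ℝ) + 1) * (s₀ / (n + 1)) = s₀ := by field_simp
        linarith
      have hbw : ‖b • w‖ < r := by
        rw [norm_smul, hwn, mul_one, Real.norm_eq_abs, abs_of_nonneg hb0]
        linarith
      have hx : u + b • w ∈ U := hU (by
        rw [mem_ball_iff_norm, add_sub_cancel_left]; exact hbw)
      have hy : v + b • w ∉ U := hV _ (by
        rw [mem_ball_iff_norm, add_sub_cancel_left]; exact hbw)
      obtain ⟨z, hz1, hz2⟩ := exists_frontier_seg hx hy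
      rw [segment_eq_image'] at hz1
      obtain ⟨θ, ⟨hθ0, hθ1⟩, rfl⟩ := hz1
      refine ⟨θ * ℓ, by positivity, by nlinarith, ?_⟩
      have e1 : u + ((θ * ℓ) • e + b • w) = u + b • w + θ • (v + b • w - (u + b • w)) := by
        have : v + b • w - (u + b • w) = ℓ • e := by rw [← hvu]; abel
        rw [this, smul_smul]
        abel
      rw [e1]
      exact hz2
    choose! τ hτ0 hτ1 hτ2 using hpt
    obtain ⟨P, hP⟩ : ∃ P : ℕ → X, ∀ k, P k = u + (τ k • e + ((k : ℝ) * (s₀ / (n + 1))) • w) :=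
      ⟨_, fun k => rfl⟩
    have hPP : ∀ k, PP u e w (P k) = ⟨τ k, (k : ℝ) * (s₀ / (n + 1))⟩ := fun k => by
      rw [hP]
      exact PP_apply hen hwn hew _ _
    have hkb : ∀ k, k < n + 1 → (k : ℝ) * (s₀ / (n + 1)) ≤ s₀ := by
      intro k hk
      have hk' : (k : ℝ) < n + 1 := by exact_mod_cast hk
      have : (k : ℝ) * (s₀ / (n + 1)) ≤ (n + 1) * (s₀ / (n + 1)) :=
        mul_le_mul_of_nonneg_right hk'.le (by positivity)
      have e1 : ((n : ℝ) + 1) * (s₀ / (n + 1)) = s₀ := by field_simp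
      linarith
    have hPPn : ∀ k, k < n + 1 → ‖PP u e w (P k)‖ ≤ ℓ + s₀ := by
      intro k hk
      rw [hPP]
      refine (Complex.norm_le_abs_re_add_abs_im _).trans ?_
      simp only
      rw [abs_of_nonneg (hτ0 k hk), abs_of_nonneg (by positivity)]
      exact add_le_add (hτ1 k hk) (hkb k hk)
    have hPT : ∀ k, k < n + 1 → P k ∈ T := by
      intro k hk
      refine ⟨τ k, hτ0 k hk, hτ1 k hk, ?_⟩
      have : P k - (u + τ k • e) = ((k : ℝ) * (s₀ / (n + 1))) • w := by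
        rw [hP]; abel
      rw [this, norm_smul, hwn, mul_one, Real.norm_eq_abs, abs_of_nonneg (by positivity)]
      exact hkb k hk
    have hPn : ∀ k, k < n + 1 → ‖P k‖ ≤ ‖u‖ + ℓ + s₀ := by
      intro k hk
      rw [hP]
      refine (norm_add_le _ _).trans ?_
      refine (add_le_add le_rfl (norm_add_le _ _)).trans ?_
      rw [norm_smul, norm_smul, hen, hwn, mul_one, mul_one, Real.norm_eq_abs, Real.norm_eq_abs,
        abs_of_nonneg (hτ0 k hk), abs_of_nonneg (by positivity)]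
      linarith [hτ1 k hk, hkb k hk]
    -- pigeonhole
    obtain ⟨i, hi, j, hj, hij, hcij⟩ := Finset.exists_ne_map_eq_of_card_lt_of_maps_to
      (s := Finset.range (n + 1)) (t := hfin.toFinset) (f := fun k => col (PP u e w (P k)))
      (by rw [Finset.card_range]; omega) (by
        intro k hk
        rw [Finset.coe_range, mem_Iio] at hk
        simp only [Finite.coe_toFinset]
        exact ⟨_, hPPn k hk, rfl⟩)
    rw [Finset.mem_range] at hi hj
    have h3 := hcol _ _ (hPPn i hi) (hPPn j hj) hcij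
    have h4 : ‖PP u e w (P i) - PP u e w (P j)‖ = ‖P i - P j‖ := by
      rw [← sq_eq_sq₀ (norm_nonneg _) (norm_nonneg _), norm_sq_complex, hPP, hPP]
      have e1 : P i - P j = (τ i - τ j) • e + ((i : ℝ) * (s₀ / (n + 1)) -
          (j : ℝ) * (s₀ / (n + 1))) • w := by
        rw [hP, hP, sub_smul, sub_smul]; abel
      rw [e1, norm_comb hen hwn hew]
      simp only [Complex.sub_re, Complex.sub_im]
    have h5 : s₀ / (n + 1) ≤ ‖P i - P j‖ := by
      rw [← h4]
      refine le_trans ?_ (Complex.abs_im_le_norm _)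
      rw [hPP, hPP, Complex.sub_im]
      simp only
      rw [← sub_mul, abs_mul, abs_of_nonneg (show 0 ≤ s₀ / ((n : ℝ) + 1) by positivity)]
      have h6 : (1 : ℝ) ≤ |(i : ℝ) - j| := by
        have h7 : (1 : ℤ) ≤ |(i : ℤ) - j| := Int.one_le_abs (by
          intro h
          apply hij
          omega)
        exact_mod_cast h7
      have h8 : 0 ≤ s₀ / ((n : ℝ) + 1) := by positivity
      nlinarith
    refine ⟨P i, by rw [hP]; exact hτ2 i hi, P j, by rw [hP]; exact hτ2 j hj, ?_⟩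
    have h6 : ‖g' (P i) - g' (P j)‖ = ‖P i - P j‖ := by
      rw [hg'T _ (hPT i hi), hg'T _ (hPT j hj)]
      simp only [hψ]
      rw [h3, h4]
    have h7 := hg'' (P i) (hPn i hi)
    have h8 := hg'' (P j) (hPn j hj)
    have h9 : ‖g' (P i) - g' (P j)‖ ≤ ‖g'' (P i) - g'' (P j)‖ + ‖g'' (P i) - g' (P i)‖ +
        ‖g'' (P j) - g' (P j)‖ := by
      have : g' (P i) - g' (P j) = (g'' (P i) - g'' (P j)) + (-(g'' (P i) - g' (P i))) +
          (g'' (P j) - g' (P j)) := by abel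
      rw [this]
      refine (norm_add_le _ _).trans (add_le_add ((norm_add_le _ _).trans ?_) le_rfl)
      rw [norm_neg]
    have h10 : (1 - l) * (s₀ / (n + 1)) ≤ (1 - l) * ‖P i - P j‖ :=
      mul_le_mul_of_nonneg_left h5 (by linarith)
    have h11 : 0 < (1 - l) * (s₀ / (n + 1)) := by
      have : 0 < 1 - l := by linarith
      positivity
    rw [h6] at h9
    linarith

end Pool.Agent.W2helper13.Am
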