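import Mathlib
import Pool.Agent.W2helper13.Am.Step

/-!
# Wild short extensions
-/

set_option autoImplicit false

namespace Pool.Agent.W2helper13.Am

open Set Filter Topology

universe u v w

lemma exists_frontier_preconn {V : Type u} [TopologicalSpace V] {C S : Set V}
    (hC : IsPreconnected C) {x y : V} (hxC : x ∈ C) (hx : x ∈ S) (hyC : y ∈ C) (hy : y ∉ S) :
    ∃ z ∈ C, z ∈ frontier S := by
  by_contra hcon
  push Not at hcon
  have h1 : C ⊆ interior S ∪ interior Sᶜ := by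
    rw [← compl_frontier_eq_union_interior]
    exact fun z hz => hcon z hz
  have hx' : x ∈ interior S := by
    rcases h1 hxC with h | h
    · exact h
    · exact absurd hx (interior_subset h)
  have hy' : y ∈ interior Sᶜ := by
    rcases h1 hyC with h | h
    · exact absurd (interior_subset h) hy
    · exact h
  obtain ⟨z, -, hz1, hz2⟩ := hC _ _ isOpen_interior isOpen_interior h1 ⟨x, hxC, hx'⟩ ⟨y, hyC, hy'⟩
  exact interior_subset hz2 (interior_subset hz1)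

section iterate

variable {X : Type u} [NormedAddCommGroup X] {H : Type v} [NormedAddCommGroup H] [CompleteSpace H]

/-- An abstract version of the iteration. -/
theorem iterate (A : Set X) (F : X → H) (hF : Short F) (P : ℕ → (X → H) → Prop)
    (hstep : ∀ (n : ℕ) (g : X → H), Short g → (∀ y ∈ A, g y = F y) → ∀ (R ε : ℝ), 0 < ε →
      ∃ g' : X → H, Short g' ∧ (∀ y ∈ A, g' y = F y) ∧ (∀ x, ‖x‖ ≤ R → ‖g' x - g x‖ ≤ ε) ∧
        ∃ R' ε' : ℝ, 0 < ε' ∧ ∀ g'' : X → H, (∀ x, ‖x‖ ≤ R' → ‖g'' x - g' x‖ ≤ ε') → P n g'') :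
    ∃ g : X → H, Short g ∧ (∀ y ∈ A, g y = F y) ∧ ∀ n, P n g := by
  classical
  -- states
  let St : Type (max u v) := {s : (X → H) × ℝ × ℝ // Short s.1 ∧ (∀ y ∈ A, s.1 y = F y) ∧ 0 < s.2.2}
  have hnext : ∀ (n : ℕ) (s : St), ∃ s' : St, (∀ x, ‖x‖ ≤ s.1.2.1 → ‖s'.1.1 x - s.1.1 x‖ ≤ s.1.2.2) ∧
      s.1.2.1 + 1 ≤ s'.1.2.1 ∧ s'.1.2.2 ≤ s.1.2.2 / 2 ∧
      ∀ g'' : X → H, (∀ x, ‖x‖ ≤ s'.1.2.1 → ‖g'' x - s'.1.1 x‖ ≤ 2 * s'.1.2.2) → P n g'' := by
    rintro n ⟨⟨g, R, ε⟩, h1, h2, h3⟩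
    obtain ⟨g', k1, k2, k3, R', ε', k4, k5⟩ := hstep n g h1 h2 R ε h3
    simp only at h3
    refine ⟨⟨(g', max (R + 1) R', min (ε / 2) (ε' / 2)), k1, k2, by positivity⟩, k3,
      le_max_left _ _, min_le_left _ _, fun g'' hg'' => k5 g'' fun x hx => ?_⟩
    refine (hg'' x (hx.trans (le_max_right _ _))).trans ?_
    simp only
    linarith [min_le_right (ε / 2) (ε' / 2)]
  choose next hn1 hn2 hn3 hn4 using hnext
  let S : ℕ → St := fun n => Nat.rec (⟨(F, 0, 1), hF, fun _ _ => rfl, one_pos⟩ : St)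
    (fun n s => next n s) n
  have hS : ∀ n, S (n + 1) = next n (S n) := fun n => rfl
  obtain ⟨g, hg⟩ : ∃ g : ℕ → X → H, ∀ n, g n = (S n).1.1 := ⟨_, fun n => rfl⟩
  obtain ⟨R, hR⟩ : ∃ R : ℕ → ℝ, ∀ n, R n = (S n).1.2.1 := ⟨_, fun n => rfl⟩
  obtain ⟨ε, hε⟩ : ∃ ε : ℕ → ℝ, ∀ n, ε n = (S n).1.2.2 := ⟨_, fun n => rfl⟩
  have g_short : ∀ n, Short (g n) := fun n => by rw [hg]; exact (S n).2.1
  have g_F : ∀ n, ∀ y ∈ A, g n y = F y := fun n => by rw [hg]; exact (S n).2.2.1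
  have ε_pos : ∀ n, 0 < ε n := fun n => by rw [hε]; exact (S n).2.2.2
  have R_zero : R 0 = 0 := by rw [hR]; rfl
  have ε_zero : ε 0 = 1 := by rw [hε]; rfl
  have R_succ : ∀ n, R n + 1 ≤ R (n + 1) := fun n => by
    rw [hR, hR, hS]; exact hn2 n (S n)
  have ε_succ : ∀ n, ε (n + 1) ≤ ε n / 2 := fun n => by
    rw [hε, hε, hS]; exact hn3 n (S n)
  have g_succ : ∀ n, ∀ x, ‖x‖ ≤ R n → ‖g (n + 1) x - g n x‖ ≤ ε n := fun n => by
    rw [hg, hg, hR, hε, hS]; exact hn1 n (S n)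
  have g_P : ∀ n, ∀ g'' : X → H, (∀ x, ‖x‖ ≤ R (n + 1) → ‖g'' x - g (n + 1) x‖ ≤ 2 * ε (n + 1)) →
      P n g'' := fun n => by
    rw [hg, hR, hε, hS]; exact hn4 n (S n)
  have R_ge : ∀ n : ℕ, (n : ℝ) ≤ R n := by
    intro n
    induction n with
    | zero => rw [R_zero]; simp
    | succ n ih =>
      push_cast
      linarith [R_succ n]
  have R_mono : ∀ m n : ℕ, m ≤ n → R m ≤ R n := by
    intro m n hmn
    induction n, hmn using Nat.le_induction with
    | base => exact le_rfl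
    | succ n hn ih => linarith [R_succ n]
  have ε_le : ∀ n : ℕ, ε n ≤ (1 / 2) ^ n := by
    intro n
    induction n with
    | zero => rw [ε_zero]; simp
    | succ n ih =>
      rw [pow_succ]
      linarith [ε_succ n]
  have g_dist : ∀ n m : ℕ, n ≤ m → ∀ x, ‖x‖ ≤ R n → ‖g m x - g n x‖ ≤ 2 * (ε n - ε m) := by
    intro n m hnm x hx
    induction m, hnm using Nat.le_induction with
    | base => simp
    | succ m hm ih =>
      have h1 := g_succ m x (hx.trans (R_mono n m hm))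
      have h2 : ‖g (m + 1) x - g n x‖ ≤ ‖g (m + 1) x - g m x‖ + ‖g m x - g n x‖ :=
        norm_sub_le_norm_sub_add_norm_sub _ _ _
      linarith [ε_succ m]
  have hcau : ∀ x, CauchySeq fun n => g n x := by
    intro x
    rw [Metric.cauchySeq_iff']
    intro η hη
    obtain ⟨N₁, hN₁⟩ := exists_nat_ge ‖x‖
    obtain ⟨N₂, hN₂⟩ := exists_pow_lt_of_lt_one (show 0 < η / 2 by positivity)
      (show (1 / 2 : ℝ) < 1 by norm_num)
    refine ⟨max N₁ N₂, fun n hn => ?_⟩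
    rw [dist_eq_norm]
    have h1 : ‖x‖ ≤ R (max N₁ N₂) := by
      refine hN₁.trans (le_trans ?_ (R_ge _))
      exact_mod_cast le_max_left _ _
    have h2 := g_dist _ n hn x h1
    have h3 : ε (max N₁ N₂) ≤ (1 / 2) ^ N₂ :=
      (ε_le _).trans (pow_le_pow_of_le_one (by norm_num) (by norm_num) (le_max_right _ _))
    linarith [ε_pos n]
  choose G hG using fun x => cauchySeq_tendsto_of_complete (hcau x)
  refine ⟨G, ?_, ?_, ?_⟩
  · intro x y
    exact le_of_tendsto ((hG x).sub (hG y)).norm (Eventually.of_forall fun n => g_short n x y)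
  · intro y hy
    refine tendsto_nhds_unique (hG y) ?_
    simp only [g_F _ y hy]
    exact tendsto_const_nhds
  · intro n
    apply g_P
    intro x hx
    refine le_of_tendsto ((hG x).sub_const _).norm ?_
    filter_upwards [eventually_ge_atTop (n + 1)] with m hm
    have := g_dist (n + 1) m hm x hx
    linarith [ε_pos m]

end iterate

variable {X : Type u} [NormedAddCommGroup X] [InnerProductSpace ℝ X]
  {H : Type v} [NormedAddCommGroup H] [InnerProductSpace ℝ H] [CompleteSpace H]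

/-- The main theorem on wild extensions. -/
theorem core [TopologicalSpace.SeparableSpace X] {C : Set X} (hC : IsOpen C)
    (hCc : IsPreconnected C) {F : X → H} (hF : Short F) (hFG : Good (frontier C) F)
    (hX : ∀ e : X, ‖e‖ = 1 → ∃ w : X, ‖w‖ = 1 ∧ inner ℝ e w = 0)
    {h1 h2 : H} (n1 : ‖h1‖ = 1) (n2 : ‖h2‖ = 1) (n12 : inner ℝ h1 h2 = 0) :
    ∃ g : X → H, Short g ∧ (∀ y ∈ frontier C, g y = F y) ∧
      ∀ U : Set X, IsOpen U → U.Nonempty → U ⊆ C → Good (frontier U) g := by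
  classical
  obtain ⟨y₀, hy₀, -⟩ := hFG 0 le_rfl one_pos
  have : Nonempty X := ⟨y₀⟩
  obtain ⟨enum, henum⟩ := exists_surjective_nat (ℕ × ℕ × ℕ × ℕ)
  set d := TopologicalSpace.denseSeq X with hd
  have hdd : DenseRange d := TopologicalSpace.denseRange_denseSeq X
  obtain ⟨g, hg, hgF, hgP⟩ := iterate (frontier C) F hF
    (fun n g => (∃ x₀ c δ, NRat C F x₀ c δ ∧ ‖d (enum n).1 - x₀‖ < δ ∧
      ‖d (enum n).2.1 - x₀‖ < δ ∧ d (enum n).1 ≠ d (enum n).2.1) →
      ∀ U : Set X, Metric.ball (d (enum n).1) (1 / ((enum n).2.2.1 + 1)) ⊆ U →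
        (∀ x ∈ Metric.ball (d (enum n).2.1) (1 / ((enum n).2.2.1 + 1)), x ∉ U) →
          ∃ p ∈ frontier U, ∃ q ∈ frontier U,
            (1 - 1 / ((enum n).2.2.2 + 1 : ℝ)) * ‖p - q‖ < ‖g p - g q‖) (by
    intro n g hg hgF R ε hε
    by_cases hadm : ∃ x₀ c δ, NRat C F x₀ c δ ∧ ‖d (enum n).1 - x₀‖ < δ ∧
      ‖d (enum n).2.1 - x₀‖ < δ ∧ d (enum n).1 ≠ d (enum n).2.1
    · obtain ⟨x₀, c, δ, k1, k2, k3, k4⟩ := hadm
      have hl : 1 - 1 / ((enum n).2.2.2 + 1 : ℝ) < 1 := by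
        have : 0 < 1 / ((enum n).2.2.2 + 1 : ℝ) := by positivity
        linarith
      obtain ⟨g', m1, m2, m3, R', ε', m4, m5⟩ := step hg hgF hy₀ hX n1 n2 n12 k1 k2 k3 k4
        (show (0 : ℝ) < 1 / ((enum n).2.2.1 + 1) by positivity) hl R hε
      exact ⟨g', m1, m2, m3, R', ε', m4, fun g'' hg'' _ => m5 g'' hg''⟩
    · exact ⟨g, hg, hgF, fun x _ => by rw [sub_self, norm_zero]; exact hε.le, 0, 1, one_pos,
        fun g'' _ h => absurd h hadm⟩)
  refine ⟨g, hg, hgF, fun U hU hUne hUC => ?_⟩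
  by_cases hrig : ∃ x ∈ U, ¬ NR C F x
  · obtain ⟨x, hx, hnr⟩ := hrig
    exact rigid_one hC hg hgF hU hUC hx hnr
  push Not at hrig
  by_cases hcross : ∃ x₀ c δ, NRat C F x₀ c δ ∧ (∃ u ∈ U, ‖u - x₀‖ < δ) ∧
      ∃ v, v ∉ closure U ∧ ‖v - x₀‖ < δ
  · obtain ⟨x₀, c, δ, hNR, ⟨u, hu, hux⟩, v, hv, hvx⟩ := hcross
    intro l hl0 hl1
    obtain ⟨ρ₁, hρ₁, hb₁⟩ := Metric.isOpen_iff.1 (hU.inter (Metric.isOpen_ball (x := x₀) (ε := δ)))
      u ⟨hu, by rw [mem_ball_iff_norm]; exact hux⟩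
    obtain ⟨ρ₂, hρ₂, hb₂⟩ := Metric.isOpen_iff.1 ((isClosed_closure (s := U)).isOpen_compl.inter
      (Metric.isOpen_ball (x := x₀) (ε := δ))) v ⟨hv, by rw [mem_ball_iff_norm]; exact hvx⟩
    obtain ⟨k, hk⟩ := exists_nat_one_div_lt (show 0 < min ρ₁ ρ₂ / 2 by positivity)
    obtain ⟨m, hm⟩ := exists_nat_one_div_lt (show 0 < 1 - l by linarith)
    obtain ⟨i, hi⟩ := hdd.exists_dist_lt u (show 0 < min ρ₁ ρ₂ / 2 by positivity)
    obtain ⟨j, hj⟩ := hdd.exists_dist_lt v (show 0 < min ρ₁ ρ₂ / 2 by positivity)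
    obtain ⟨n, hn⟩ := henum (i, j, k, m)
    have hsub1 : Metric.ball (d i) (1 / ((k : ℝ) + 1)) ⊆ U ∩ Metric.ball x₀ δ := by
      intro x hx
      apply hb₁
      rw [Metric.mem_ball] at hx ⊢
      have h3 : dist x u ≤ dist x (d i) + dist (d i) u := dist_triangle _ _ _
      rw [dist_comm u] at hi
      linarith [min_le_left ρ₁ ρ₂]
    have hsub2 : Metric.ball (d j) (1 / ((k : ℝ) + 1)) ⊆ (closure U)ᶜ ∩ Metric.ball x₀ δ := by
      intro x hx
      apply hb₂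
      rw [Metric.mem_ball] at hx ⊢
      have h3 : dist x v ≤ dist x (d j) + dist (d j) v := dist_triangle _ _ _
      rw [dist_comm v] at hj
      linarith [min_le_right ρ₁ ρ₂]
    have hk0 : (0 : ℝ) < 1 / ((k : ℝ) + 1) := by positivity
    have hdi := hsub1 (Metric.mem_ball_self hk0)
    have hdj := hsub2 (Metric.mem_ball_self hk0)
    have h3 := hgP n
    rw [hn] at h3
    obtain ⟨p, hp, q, hq, h4⟩ := h3 ⟨x₀, c, δ, hNR, by
        have := hdi.2
        rwa [mem_ball_iff_norm] at this, by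
        have := hdj.2
        rwa [mem_ball_iff_norm] at this, by
        intro h
        simp only at h
        rw [← h] at hdj
        exact hdj.1 (subset_closure hdi.1)⟩ U (fun x hx => (hsub1 hx).1)
      (fun x hx hxU => (hsub2 hx).1 (subset_closure hxU))
    refine ⟨p, hp, q, hq, lt_of_le_of_lt ?_ h4⟩
    apply mul_le_mul_of_nonneg_right _ (norm_nonneg _)
    simp only
    linarith
  · push Not at hcross
    set Q : Set X := {x | x ∈ C ∧ NR C F x ∧ x ∈ closure U} with hQ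
    have hUQ : U ⊆ Q := fun x hx => ⟨hUC hx, hrig x hx, subset_closure hx⟩
    have hQo : IsOpen Q := by
      rw [isOpen_iff_mem_nhds]
      rintro x ⟨hxC, hxN, hxU⟩
      obtain ⟨c, δ, hNR⟩ := hxN
      have h3 : Metric.ball x δ ⊆ closure U := by
        intro y hy
        obtain ⟨u, hu, hxu⟩ := Metric.mem_closure_iff.1 hxU δ hNR.1
        by_contra hyU
        rw [mem_ball_iff_norm] at hy
        rw [dist_comm, dist_eq_norm] at hxu
        have := hcross x c δ hNR ⟨u, hu, hxu⟩ y hyU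
        linarith
      filter_upwards [hC.mem_nhds hxC, isOpen_NR.mem_nhds (show x ∈ {x | NR C F x} from
        ⟨c, δ, hNR⟩), Metric.ball_mem_nhds x hNR.1] with y h4 h5 h6
      exact ⟨h4, h5, h3 h6⟩
    have hQU : Q ⊆ closure U := fun x hx => hx.2.2
    have hfr : frontier Q ⊆ frontier U := by
      intro p hp
      rw [hQo.frontier_eq] at hp
      rw [hU.frontier_eq]
      exact ⟨closure_minimal hQU isClosed_closure hp.1, fun h => hp.2 (hUQ h)⟩
    refine Good.mono ?_ hfr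
    by_cases hCQ : C ⊆ Q
    · have : Q = C := Subset.antisymm (fun x hx => hx.1) hCQ
      rw [this]
      intro l h0 h1
      obtain ⟨p, hp, q, hq, h3⟩ := hFG l h0 h1
      exact ⟨p, hp, q, hq, by rw [hgF p hp, hgF q hq]; exact h3⟩
    · obtain ⟨y, hyC, hyQ⟩ := not_subset.1 hCQ
      obtain ⟨x, hx⟩ := hUne
      obtain ⟨p, hpC, hp⟩ := exists_frontier_preconn hCc (hUC hx) (hUQ hx) hyC hyQ
      refine rigid_three hC hg hgF hQo (fun x hx => hx.1) hp hpC ?_
      intro z hz hzC hzN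
      rw [hQo.frontier_eq] at hz
      exact hz.2 ⟨hzC, hzN, closure_minimal hQU isClosed_closure hz.1⟩

end Pool.Agent.W2helper13.Am
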