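import Mathlib
import Pool.Agent.W2helper13.Am.Rigid

/-!
# From wild extensions on components to absolutely minimal extensions
-/

set_option autoImplicit false

namespace Pool.Agent.W2helper13.Am

open Set Filter Topology

universe u v w

variable {X : Type u} [NormedAddCommGroup X] [InnerProductSpace ℝ X]
  {H : Type v} [NormedAddCommGroup H] [InnerProductSpace ℝ H] [CompleteSpace H]

/-- What is needed on one component. -/
def WildExt (X : Type u) [NormedAddCommGroup X] (H : Type v) [NormedAddCommGroup H] : Prop :=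
  ∀ (C : Set X), IsOpen C → IsPreconnected C → ∀ F : X → H, Short F → Good (frontier C) F →
    ∃ g : X → H, Short g ∧ (∀ y ∈ frontier C, g y = F y) ∧
      ∀ U : Set X, IsOpen U → U.Nonempty → U ⊆ C → Good (frontier U) g

/-- The version with a general Lipschitz constant. -/
lemma component_ext (hW : WildExt X H) {C : Set X} (hC : IsOpen C) (hCc : IsPreconnected C)
    (hfr : (frontier C).Nonempty) {f : X → H} {K₀ : ℝ} (hK₀ : 0 ≤ K₀)
    (hf : ∀ x ∈ frontier C, ∀ y ∈ frontier C, ‖f x - f y‖ ≤ K₀ * ‖x - y‖) :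
    ∃ (L : ℝ) (g : X → H), 0 ≤ L ∧ (∀ x y, ‖g x - g y‖ ≤ L * ‖x - y‖) ∧
      (∀ y ∈ frontier C, g y = f y) ∧
      ∀ U : Set X, IsOpen U → U.Nonempty → U ⊆ C → ∀ K : ℝ, 0 ≤ K →
        (∀ p ∈ frontier U, ∀ q ∈ frontier U, ‖g p - g q‖ ≤ K * ‖p - q‖) → L ≤ K := by
  set S : Set ℝ := {K | 0 ≤ K ∧ ∀ x ∈ frontier C, ∀ y ∈ frontier C, ‖f x - f y‖ ≤ K * ‖x - y‖}
    with hS
  have hSne : S.Nonempty := ⟨K₀, hK₀, hf⟩
  have hSbdd : BddBelow S := ⟨0, fun K hK => hK.1⟩
  set L := sInf S with hL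
  have hL0 : 0 ≤ L := le_csInf hSne fun K hK => hK.1
  have hLS : ∀ x ∈ frontier C, ∀ y ∈ frontier C, ‖f x - f y‖ ≤ L * ‖x - y‖ := by
    intro x hx y hy
    rcases eq_or_ne x y with rfl | hxy
    · simp
    have hpos : 0 < ‖x - y‖ := norm_pos_iff.2 (sub_ne_zero.2 hxy)
    rw [← div_le_iff₀ hpos]
    refine le_csInf hSne fun K hK => ?_
    rw [div_le_iff₀ hpos]
    exact hK.2 x hx y hy
  rcases hL0.eq_or_lt with hL00 | hLpos
  · obtain ⟨y₀, hy₀⟩ := hfr
    refine ⟨0, fun _ => f y₀, le_rfl, fun x y => by simp, fun y hy => ?_, fun _ _ _ _ K hK _ => hK⟩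
    have := hLS y₀ hy₀ y hy
    rw [← hL00, zero_mul] at this
    exact sub_eq_zero.1 (norm_le_zero_iff.1 this)
  · obtain ⟨F₀, h1, h2⟩ := kirszbraun_const (frontier C) f hL0 hLS
    have hshort : Short fun x => L⁻¹ • F₀ x := by
      intro x y
      simp only
      rw [← smul_sub, norm_smul, norm_inv, Real.norm_eq_abs, abs_of_pos hLpos,
        inv_mul_le_iff₀ hLpos]
      exact h1 x y
    have hgood : Good (frontier C) fun x => L⁻¹ • F₀ x := by
      by_contra hcon
      rw [Good] at hcon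
      push Not at hcon
      obtain ⟨l, hl0, hl1, hl⟩ := hcon
      have hmem : l * L ∈ S := by
        refine ⟨by positivity, fun x hx y hy => ?_⟩
        have h3 := hl x hx y hy
        rw [← smul_sub, norm_smul, norm_inv, Real.norm_eq_abs, abs_of_pos hLpos,
          inv_mul_le_iff₀ hLpos, h2 x hx, h2 y hy] at h3
        linarith
      have h4 := csInf_le hSbdd hmem
      rw [← hL] at h4
      nlinarith
    obtain ⟨g, k1, k2, k3⟩ := hW C hC hCc _ hshort hgood
    refine ⟨L, fun x => L • g x, hL0, fun x y => ?_, fun y hy => ?_, ?_⟩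
    · rw [← smul_sub, norm_smul, Real.norm_eq_abs, abs_of_pos hLpos]
      exact mul_le_mul_of_nonneg_left (k1 x y) hL0
    · simp only
      rw [k2 y hy, smul_smul, mul_inv_cancel₀ hLpos.ne', one_smul, h2 y hy]
    · intro U hU hne hUC K hK hKU
      by_contra hlt
      push Not at hlt
      obtain ⟨p, hp, q, hq, h5⟩ := k3 U hU hne hUC (K / L) (by positivity)
        (by rw [div_lt_one hLpos]; exact hlt)
      have h6 := hKU p hp q hq
      simp only at h6
      rw [← smul_sub, norm_smul, Real.norm_eq_abs, abs_of_pos hLpos] at h6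
      have h7 := mul_lt_mul_of_pos_left h5 hLpos
      have h8 : L * (K / L * ‖p - q‖) = K * ‖p - q‖ := by field_simp
      linarith

/-- The absolutely minimal extension. -/
theorem amle_of_wild (hW : WildExt X H) {Y : Set X} (hY : IsClosed Y) (hYne : Y.Nonempty)
    {f : X → H} {K₀ : ℝ} (hK₀ : 0 ≤ K₀)
    (hf : ∀ x ∈ Y, ∀ y ∈ Y, ‖f x - f y‖ ≤ K₀ * ‖x - y‖) :
    ∃ g : X → H, (∀ y ∈ Y, g y = f y) ∧ ∀ U : Set X, IsOpen U → U ⊆ Yᶜ → ∀ K : ℝ, 0 ≤ K →
      (∀ p ∈ frontier U, ∀ q ∈ frontier U, ‖g p - g q‖ ≤ K * ‖p - q‖) →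
        ∀ x ∈ U, ∀ y ∈ U, ‖g x - g y‖ ≤ K * ‖x - y‖ := by
  classical
  have hex : ∀ C : Set X, ∃ (L : ℝ) (g : X → H), IsOpen C → IsPreconnected C →
      (frontier C).Nonempty → frontier C ⊆ Y →
      0 ≤ L ∧ (∀ x y, ‖g x - g y‖ ≤ L * ‖x - y‖) ∧
      (∀ y ∈ frontier C, g y = f y) ∧
      ∀ U : Set X, IsOpen U → U.Nonempty → U ⊆ C → ∀ K : ℝ, 0 ≤ K →
        (∀ p ∈ frontier U, ∀ q ∈ frontier U, ‖g p - g q‖ ≤ K * ‖p - q‖) → L ≤ K := by
    intro C
    by_cases h : IsOpen C ∧ IsPreconnected C ∧ (frontier C).Nonempty ∧ frontier C ⊆ Y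
    · obtain ⟨h1, h2, h3, h4⟩ := h
      obtain ⟨L, g, h5⟩ := component_ext hW h1 h2 h3 (f := f) hK₀
        (fun x hx y hy => hf x (h4 hx) y (h4 hy))
      exact ⟨L, g, fun _ _ _ _ => h5⟩
    · exact ⟨0, fun _ => 0, fun a b c d => absurd ⟨a, b, c, d⟩ h⟩
  choose L g hLg using hex
  obtain ⟨comp, hcomp⟩ : ∃ comp : X → Set X, ∀ x, comp x = connectedComponentIn Yᶜ x :=
    ⟨_, fun x => rfl⟩
  have hYo : IsOpen Yᶜ := hY.isOpen_compl
  have cOpen : ∀ x, IsOpen (comp x) := fun x => by rw [hcomp]; exact hYo.connectedComponentIn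
  have cPre : ∀ x, IsPreconnected (comp x) := fun x => by
    rw [hcomp]; exact isPreconnected_connectedComponentIn
  have cSub : ∀ x, comp x ⊆ Yᶜ := fun x => by rw [hcomp]; exact connectedComponentIn_subset _ _
  have cMem : ∀ x, x ∉ Y → x ∈ comp x := fun x hx => by
    rw [hcomp]; exact mem_connectedComponentIn hx
  have cEq : ∀ x y, y ∈ comp x → comp y = comp x := fun x y h => by
    rw [hcomp] at h ⊢
    rw [hcomp]
    exact (connectedComponentIn_eq h).symm
  have cFr : ∀ x, frontier (comp x) ⊆ Y := by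
    intro x z hz
    by_contra hzY
    rw [(cOpen x).frontier_eq] at hz
    obtain ⟨w, hw1, hw2⟩ := mem_closure_iff.1 hz.1 (comp z) (cOpen z) (cMem z hzY)
    have h1 := cEq z w hw1
    have h2 := cEq x w hw2
    apply hz.2
    rw [← h2, h1]
    exact cMem z hzY
  have cFne : ∀ x, x ∉ Y → (frontier (comp x)).Nonempty := by
    intro x hx
    obtain ⟨y, hy⟩ := hYne
    obtain ⟨z, -, hz⟩ := exists_frontier_seg (cMem x hx) (fun h => cSub x h hy)
    exact ⟨z, hz⟩
  have key := fun x (hx : x ∉ Y) => hLg (comp x) (cOpen x) (cPre x) (cFne x hx) (cFr x)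
  obtain ⟨G, hG⟩ : ∃ G : X → H, ∀ x, G x = if x ∈ Y then f x else g (comp x) x :=
    ⟨_, fun x => rfl⟩
  have hGY : ∀ y ∈ Y, G y = f y := fun y hy => by rw [hG, if_pos hy]
  have hGC : ∀ x, x ∉ Y → ∀ z ∈ closure (comp x), G z = g (comp x) z := by
    intro x hx z hz
    by_cases hzC : z ∈ comp x
    · rw [hG, if_neg (cSub x hzC), cEq x z hzC]
    · have hzf : z ∈ frontier (comp x) := by
        rw [(cOpen x).frontier_eq]
        exact ⟨hz, hzC⟩
      rw [hGY z (cFr x hzf), (key x hx).2.2.1 z hzf]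
  refine ⟨G, hGY, ?_⟩
  intro U hU hUY K hK hKU
  -- the pieces of `U`
  have hpiece : ∀ x ∈ U, frontier (U ∩ comp x) ⊆ frontier U ∩ closure (comp x) := by
    intro x hx z hz
    rw [(hU.inter (cOpen x)).frontier_eq] at hz
    have h1 : z ∈ closure U := closure_mono inter_subset_left hz.1
    have h2 : z ∈ closure (comp x) := closure_mono inter_subset_right hz.1
    refine ⟨?_, h2⟩
    rw [hU.frontier_eq]
    refine ⟨h1, fun hzU => ?_⟩
    have h3 : z ∈ frontier (comp x) := by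
      rw [(cOpen x).frontier_eq]
      exact ⟨h2, fun h => hz.2 ⟨hzU, h⟩⟩
    exact hUY hzU (cFr x h3)
  have hLK : ∀ x ∈ U, L (comp x) ≤ K := by
    intro x hx
    have hxY : x ∉ Y := hUY hx
    refine (key x hxY).2.2.2 (U ∩ comp x) (hU.inter (cOpen x)) ⟨x, hx, cMem x hxY⟩
      inter_subset_right K hK ?_
    intro p hp q hq
    have hp' := hpiece x hx hp
    have hq' := hpiece x hx hq
    rw [← hGC x hxY p hp'.2, ← hGC x hxY q hq'.2]
    exact hKU p hp'.1 q hq'.1
  have hin : ∀ x ∈ U, ∀ a ∈ closure (comp x), ‖G x - G a‖ ≤ K * ‖x - a‖ := by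
    intro x hx a ha
    have hxY : x ∉ Y := hUY hx
    rw [hGC x hxY x (subset_closure (cMem x hxY)), hGC x hxY a ha]
    exact ((key x hxY).2.1 x a).trans (mul_le_mul_of_nonneg_right (hLK x hx) (norm_nonneg _))
  intro x hx y hy
  by_cases hxy : y ∈ comp x
  · exact hin x hx y (subset_closure hxy)
  · have hxY : x ∉ Y := hUY hx
    have hyY : y ∉ Y := hUY hy
    obtain ⟨a, ha1, ha2⟩ := exists_frontier_seg (S := U ∩ comp x) (x := x) (y := y)
      ⟨hx, cMem x hxY⟩ (fun h => hxy h.2)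
    have ha3 := hpiece x hx ha2
    have haU : a ∉ U := by
      have := ha3.1
      rw [hU.frontier_eq] at this
      exact this.2
    obtain ⟨b, hb1, hb2⟩ := exists_frontier_seg (S := U ∩ comp y) (x := y) (y := a)
      ⟨hy, cMem y hyY⟩ (fun h => haU h.1)
    have hb3 := hpiece y hy hb2
    have e1 := norm_add_of_mem_seg ha1
    have e2 := norm_add_of_mem_seg hb1
    have h1 := hin x hx a ha3.2
    have h2 := hin y hy b hb3.2
    have h3 := hKU a ha3.1 b hb3.1
    have h4 : ‖G x - G y‖ ≤ ‖G x - G a‖ + (‖G a - G b‖ + ‖G b - G y‖) :=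
      (norm_sub_le_norm_sub_add_norm_sub _ (G a) _).trans
        (add_le_add le_rfl (norm_sub_le_norm_sub_add_norm_sub _ _ _))
    rw [norm_sub_rev (G b) (G y)] at h4
    rw [norm_sub_rev b a] at e2
    rw [norm_sub_rev a y] at e1
    have h5 : K * ‖x - y‖ = K * ‖x - a‖ + (K * ‖y - b‖ + K * ‖a - b‖) := by
      rw [← e1, ← e2]; ring
    linarith

end Pool.Agent.W2helper13.Am
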