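import Mathlib
import Pool.Agent.W2helper13.Am.Brehm

/-!
# Piecewise isometric maps with a bound on the number of pieces
-/

set_option autoImplicit false

namespace Pool.Agent.W2helper13.Am

open Set Filter Topology

universe u v w

section general

variable {E : Type u} [NormedAddCommGroup E] [InnerProductSpace ℝ E]
  {H : Type v} [NormedAddCommGroup H] [InnerProductSpace ℝ H]

/-- Piecewise isometric with at most `N R` pieces on the ball of radius `R`. -/
def PIq {E : Type u} [NormedAddCommGroup E] {H : Type v} [NormedAddCommGroup H]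
    (N : ℝ → ℕ) (φ : E → H) : Prop :=
  ∀ R : ℝ, ∃ (κ : Type) (col : E → κ), (col '' {x | ‖x‖ ≤ R}).Finite ∧
    (col '' {x | ‖x‖ ≤ R}).ncard ≤ N R ∧
    ∀ x y, ‖x‖ ≤ R → ‖y‖ ≤ R → col x = col y → ‖φ x - φ y‖ = ‖x - y‖

variable {φ : E → H} {a : E} {b : H}

open Classical in
lemma cone_PIq (h : Short φ) {B : ℝ} (hB : ∀ x, ‖φ x‖ ≤ B) {N : ℝ → ℕ} (hP : PIq N φ)
    {α β : ℝ} (ha : ‖a‖ ≤ α) (hb : ‖b‖ ≤ β) :
    PIq (fun R => 1 + (N (max R (α + (B + β))) + N (max R (α + (B + β))))) (cone φ a b) := by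
  intro R
  obtain ⟨κ, col, hfin, hcard, hcol⟩ := hP (max R (α + (B + β)))
  set R' := max R (α + (B + β)) with hR'
  have hR'' : ‖a‖ + (B + ‖b‖) ≤ R' := by
    have : α + (B + β) ≤ R' := le_max_right _ _
    linarith
  have hsub : (fun x => if x ∈ SS φ a b then (if x = a then none else
      some (Sum.inl (col (ZZ φ a b x)))) else some (Sum.inr (col x)) : E → Option (κ ⊕ κ)) ''
      {x | ‖x‖ ≤ R} ⊆ {none} ∪ ((fun k => some (Sum.inl k)) '' (col '' {x | ‖x‖ ≤ R'})
      ∪ (fun k => some (Sum.inr k)) '' (col '' {x | ‖x‖ ≤ R'})) := by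
    rintro _ ⟨x, hx, rfl⟩
    have hx' : ‖x‖ ≤ R := hx
    by_cases hS : x ∈ SS φ a b
    · by_cases hxa : x = a
      · left
        simp only [hxa, if_true, mem_singleton_iff]
        rw [if_pos (hxa ▸ hS)]
      · right; left
        simp only [hS, hxa, if_true, if_false]
        refine ⟨_, ⟨ZZ φ a b x, ?_, rfl⟩, rfl⟩
        change ‖ZZ φ a b x‖ ≤ R'
        have h1 := SS_bound hB (TT_spec h hB hS hxa).2.1
        have h2 : ZZ φ a b x = a + (ZZ φ a b x - a) := by abel
        rw [h2]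
        exact (norm_add_le _ _).trans ((by linarith : _ ≤ ‖a‖ + (B + ‖b‖)).trans hR'')
    · right; right
      simp only [hS, if_false]
      exact ⟨_, ⟨x, hx'.trans (le_max_left _ _), rfl⟩, rfl⟩
  have hfin' : ({none} ∪ ((fun k => some (Sum.inl k)) '' (col '' {x | ‖x‖ ≤ R'})
      ∪ (fun k => some (Sum.inr k)) '' (col '' {x | ‖x‖ ≤ R'})) : Set (Option (κ ⊕ κ))).Finite :=
    (Set.finite_singleton _).union ((hfin.image _).union (hfin.image _))
  refine ⟨Option (κ ⊕ κ), fun x => if x ∈ SS φ a b then (if x = a then none else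
    some (Sum.inl (col (ZZ φ a b x)))) else some (Sum.inr (col x)), hfin'.subset hsub, ?_, ?_⟩
  · refine (Set.ncard_le_ncard hsub hfin').trans ?_
    refine (Set.ncard_union_le _ _).trans ?_
    rw [Set.ncard_singleton]
    refine Nat.add_le_add_left ?_ 1
    refine (Set.ncard_union_le _ _).trans ?_
    exact add_le_add ((Set.ncard_image_le hfin).trans hcard)
      ((Set.ncard_image_le hfin).trans hcard)
  · intro x y hx hy hxy
    by_cases hxS : x ∈ SS φ a b
    · by_cases hyS : y ∈ SS φ a b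
      · simp only [hxS, hyS, if_true] at hxy
        by_cases hxa : x = a
        · by_cases hya : y = a
          · rw [hxa, hya, sub_self, sub_self, norm_zero, norm_zero]
          · simp [hxa, hya] at hxy
        · by_cases hya : y = a
          · simp [hxa, hya] at hxy
          · simp only [hxa, hya, if_false, Option.some.injEq, Sum.inl.injEq] at hxy
            have b1 : ∀ z, z ∈ SS φ a b → z ≠ a → ‖ZZ φ a b z‖ ≤ R' := by
              intro z hz hza
              have h1 := SS_bound hB (TT_spec h hB hz hza).2.1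
              have h2 : ZZ φ a b z = a + (ZZ φ a b z - a) := by abel
              rw [h2]
              exact (norm_add_le _ _).trans ((by linarith : _ ≤ ‖a‖ + (B + ‖b‖)).trans hR'')
            have h1 := hcol _ _ (b1 x hxS hxa) (b1 y hyS hya) hxy
            have h2 := cone_inner h hB hxS hxa hyS hya
            rw [h1, sub_self, zero_mul, sub_zero] at h2
            exact (sq_eq_sq₀ (norm_nonneg _) (norm_nonneg _)).1 h2
      · simp only [hxS, hyS, if_true, if_false] at hxy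
        by_cases hxa : x = a
        · simp [hxa] at hxy
        · simp [hxa] at hxy
    · by_cases hyS : y ∈ SS φ a b
      · simp only [hxS, hyS, if_true, if_false] at hxy
        by_cases hya : y = a
        · simp [hya] at hxy
        · simp [hya] at hxy
      · simp only [hxS, hyS, if_false, Option.some.injEq, Sum.inr.injEq] at hxy
        rw [cone_notMem hxS, cone_notMem hyS]
        exact hcol x y (hx.trans (le_max_left _ _)) (hy.trans (le_max_left _ _)) hxy

/-- Prescribed values at finitely many points, with a uniform bound on the number of pieces. -/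
theorem brehmq {φ : E → H} (h : Short φ) {B : ℝ} (hB : ∀ x, ‖φ x‖ ≤ B) {N : ℝ → ℕ}
    (hP : PIq N φ) (α β : ℝ) (n : ℕ) :
    ∃ (B' : ℝ) (N' : ℝ → ℕ), ∀ (a : ℕ → E) (b : ℕ → H), (∀ i < n, ‖a i‖ ≤ α) →
      (∀ i < n, ‖b i‖ ≤ β) → (∀ i j, i < n → j < n → ‖b i - b j‖ ≤ ‖a i - a j‖) →
      ∃ φ' : E → H, Short φ' ∧ (∀ x, ‖φ' x‖ ≤ B') ∧ PIq N' φ' ∧ ∀ i < n, φ' (a i) = b i := by
  induction n with
  | zero => exact ⟨B, N, fun a b _ _ _ => ⟨φ, h, hB, hP, fun i hi => absurd hi (Nat.not_lt_zero _)⟩⟩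
  | succ n ih =>
    obtain ⟨B', N', ih⟩ := ih
    refine ⟨B' + 2 * β, fun R => 1 + (N' (max R (α + (B' + β))) + N' (max R (α + (B' + β)))),
      fun a b ha hb hab => ?_⟩
    obtain ⟨ψ, h1, h2, h3, h4⟩ := ih a b (fun i hi => ha i (by omega)) (fun i hi => hb i (by omega))
      fun i j hi hj => hab i j (by omega) (by omega)
    have hbn : ‖b n‖ ≤ β := hb n (by omega)
    have han : ‖a n‖ ≤ α := ha n (by omega)
    refine ⟨cone ψ (a n) (b n), cone_short h1 h2, fun x => ?_, cone_PIq h1 h2 h3 han hbn,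
      fun i hi => ?_⟩
    · by_cases hx : x ∈ SS ψ (a n) (b n)
      · have h5 := norm_cone_sub h1 h2 hx
        have h6 := SS_bound h2 hx
        have h7 : cone ψ (a n) (b n) x = b n + (cone ψ (a n) (b n) x - b n) := by abel
        rw [h7]
        exact (norm_add_le _ _).trans (by linarith)
      · rw [cone_notMem hx]
        linarith [h2 x, norm_nonneg (b n)]
    · rcases Nat.lt_succ_iff_lt_or_eq.1 hi with hi | rfl
      · rw [cone_eq h1 h2 (by rw [h4 i hi]; exact hab i n (by omega) (by omega)), h4 i hi]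
      · exact cone_self

end general

section base

variable {H : Type v} [NormedAddCommGroup H] [InnerProductSpace ℝ H]

lemma base_PIq {h1 h2 : H} (n1 : ‖h1‖ = 1) (n2 : ‖h2‖ = 1) (n12 : inner ℝ h1 h2 = 0) :
    ∃ N : ℝ → ℕ, PIq N (base h1 h2) := by
  refine ⟨fun R => ((Set.Icc ⌊-R⌋ ⌊R⌋) ×ˢ (Set.Icc ⌊-R⌋ ⌊R⌋)).ncard, fun R => ?_⟩
  have hsub : (fun z : ℂ => (⌊z.re⌋, ⌊z.im⌋)) '' {x | ‖x‖ ≤ R} ⊆
      (Set.Icc ⌊-R⌋ ⌊R⌋) ×ˢ (Set.Icc ⌊-R⌋ ⌊R⌋) := by
    rintro _ ⟨z, hz, rfl⟩
    have hz' : ‖z‖ ≤ R := hz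
    have h3 := abs_le.1 ((Complex.abs_re_le_norm z).trans hz')
    have h4 := abs_le.1 ((Complex.abs_im_le_norm z).trans hz')
    exact ⟨⟨Int.floor_le_floor h3.1, Int.floor_le_floor h3.2⟩,
      ⟨Int.floor_le_floor h4.1, Int.floor_le_floor h4.2⟩⟩
  have hfin : ((Set.Icc ⌊-R⌋ ⌊R⌋) ×ˢ (Set.Icc ⌊-R⌋ ⌊R⌋)).Finite :=
    (Set.finite_Icc _ _).prod (Set.finite_Icc _ _)
  refine ⟨ℤ × ℤ, fun z => (⌊z.re⌋, ⌊z.im⌋), hfin.subset hsub, Set.ncard_le_ncard hsub hfin, ?_⟩
  intro z w _ _ hzw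
  rw [Prod.mk.injEq] at hzw
  rw [← sq_eq_sq₀ (norm_nonneg _) (norm_nonneg _), base_sub, norm_comb n1 n2 n12,
    norm_sq_complex, Complex.sub_re, Complex.sub_im]
  have a1 := tri_isom hzw.1
  have a2 := tri_isom hzw.2
  rw [← sq_abs, a1, sq_abs, ← sq_abs (tri z.im - tri w.im), a2, sq_abs]

lemma base_le {h1 h2 : H} (n1 : ‖h1‖ = 1) (n2 : ‖h2‖ = 1) (z : ℂ) : ‖base h1 h2 z‖ ≤ 2 := by
  refine (norm_add_le _ _).trans ?_
  rw [norm_smul, norm_smul, n1, n2, Real.norm_eq_abs, Real.norm_eq_abs,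
    abs_of_nonneg (tri_nonneg _), abs_of_nonneg (tri_nonneg _)]
  linarith [tri_le_one z.re, tri_le_one z.im]

end base

end Pool.Agent.W2helper13.Am
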