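import Mathlib
import Pool.Agent.W2helper13.Am.BrehmQ
import Pool.Agent.W2helper13.Am.Step

/-!
# Ribbons
-/

set_option autoImplicit false

namespace Pool.Agent.W2helper13.Am

open Set Filter Topology

universe u v w

variable {X : Type*} [NormedAddCommGroup X] [InnerProductSpace ℝ X]
  {H : Type*} [NormedAddCommGroup H] [InnerProductSpace ℝ H]

/-- A set crossing a ribbon has two frontier points at which the map is nearly isometric. -/
lemma ribbon_cross {φ : ℂ → H} {N : ℝ → ℕ} (hP : PIq N φ) {u e w : X} (hen : ‖e‖ = 1)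
    (hwn : ‖w‖ = 1) (hew : inner ℝ e w = 0) {ℓ s₀ ϱ : ℝ} (hℓ0 : 0 ≤ ℓ) (hs0 : 0 < s₀)
    (hϱ : ℓ + s₀ ≤ ϱ) {l : ℝ} (hl1 : l < 1) {g' g'' : X → H}
    (hg' : ∀ τ b : ℝ, 0 ≤ τ → τ ≤ ℓ → 0 ≤ b → b ≤ s₀ →
      g' (u + (τ • e + b • w)) = φ (PP u e w (u + (τ • e + b • w))))
    (hg'' : ∀ τ b : ℝ, 0 ≤ τ → τ ≤ ℓ → 0 ≤ b → b ≤ s₀ →
      ‖g'' (u + (τ • e + b • w)) - g' (u + (τ • e + b • w))‖ ≤ (1 - l) * (s₀ / (N ϱ + 1)) / 4)
    {U : Set X} (hU : ∀ b : ℝ, 0 ≤ b → b ≤ s₀ → u + b • w ∈ U)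
    (hV : ∀ b : ℝ, 0 ≤ b → b ≤ s₀ → u + (ℓ • e + b • w) ∉ U) :
    ∃ p ∈ frontier U, ∃ q ∈ frontier U, l * ‖p - q‖ < ‖g'' p - g'' q‖ := by
  classical
  obtain ⟨κ, col, hfin, hcard, hcol⟩ := hP ϱ
  obtain ⟨n, hn⟩ : ∃ n, n = N ϱ := ⟨_, rfl⟩
  rw [← hn] at hcard hg''
  have hn0 : (0 : ℝ) < (n : ℝ) + 1 := by positivity
  have hkb : ∀ k : ℕ, k < n + 1 → (k : ℝ) * (s₀ / (n + 1)) ≤ s₀ := by
    intro k hk
    have hk' : (k : ℝ) < n + 1 := by exact_mod_cast hk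
    have : (k : ℝ) * (s₀ / (n + 1)) ≤ (n + 1) * (s₀ / (n + 1)) :=
      mul_le_mul_of_nonneg_right hk'.le (by positivity)
    have e1 : ((n : ℝ) + 1) * (s₀ / (n + 1)) = s₀ := by field_simp
    linarith
  -- the crossing points
  have hpt : ∀ k : ℕ, k < n + 1 → ∃ τ : ℝ, 0 ≤ τ ∧ τ ≤ ℓ ∧
      u + (τ • e + ((k : ℝ) * (s₀ / (n + 1))) • w) ∈ frontier U := by
    intro k hk
    set b := (k : ℝ) * (s₀ / (n + 1)) with hb
    have hb0 : 0 ≤ b := by positivity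
    have hb1 : b ≤ s₀ := hkb k hk
    obtain ⟨z, hz1, hz2⟩ := exists_frontier_seg (hU b hb0 hb1) (hV b hb0 hb1)
    rw [segment_eq_image'] at hz1
    obtain ⟨θ, ⟨hθ0, hθ1⟩, rfl⟩ := hz1
    refine ⟨θ * ℓ, by positivity, by nlinarith, ?_⟩
    have e1 : u + ((θ * ℓ) • e + b • w) = u + b • w + θ • (u + (ℓ • e + b • w) - (u + b • w)) := by
      have : u + (ℓ • e + b • w) - (u + b • w) = ℓ • e := by abel
      rw [this, smul_smul]
      abel
    rw [e1]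
    exact hz2
  choose! τ hτ0 hτ1 hτ2 using hpt
  obtain ⟨P, hP⟩ : ∃ P : ℕ → X, ∀ k, P k = u + (τ k • e + ((k : ℝ) * (s₀ / (n + 1))) • w) :=
    ⟨_, fun k => rfl⟩
  have hPP : ∀ k, PP u e w (P k) = ⟨τ k, (k : ℝ) * (s₀ / (n + 1))⟩ := fun k => by
    rw [hP]
    exact PP_apply hen hwn hew _ _
  have hPPn : ∀ k, k < n + 1 → ‖PP u e w (P k)‖ ≤ ϱ := by
    intro k hk
    rw [hPP]
    refine (Complex.norm_le_abs_re_add_abs_im _).trans ?_
    simp only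
    rw [abs_of_nonneg (hτ0 k hk), abs_of_nonneg (by positivity)]
    exact (add_le_add (hτ1 k hk) (hkb k hk)).trans hϱ
  -- pigeonhole
  have hcard' : hfin.toFinset.card ≤ n := by
    rw [← Set.ncard_eq_toFinset_card _ hfin]
    exact hcard
  obtain ⟨i, hi, j, hj, hij, hcij⟩ := Finset.exists_ne_map_eq_of_card_lt_of_maps_to
    (s := Finset.range (n + 1)) (t := hfin.toFinset) (f := fun k => col (PP u e w (P k)))
    (by rw [Finset.card_range]; omega) (by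
      intro k hk
      rw [Finset.coe_range, mem_Iio] at hk
      simp only [Finite.coe_toFinset]
      exact ⟨_, hPPn k hk, rfl⟩)
  rw [Finset.mem_range] at hi hj
  have h3 := hcol _ _ (hPPn i hi) (hPPn j hj) hcij
  have h4 : ‖PP u e w (P i) - PP u e w (P j)‖ = ‖P i - P j‖ := by
    rw [← sq_eq_sq₀ (norm_nonneg _) (norm_nonneg _), norm_sq_complex, hPP, hPP]
    have e1 : P i - P j = (τ i - τ j) • e + ((i : ℝ) * (s₀ / (n + 1)) -
        (j : ℝ) * (s₀ / (n + 1))) • w := by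
      rw [hP, hP, sub_smul, sub_smul]; abel
    rw [e1, norm_comb hen hwn hew]
    simp only [Complex.sub_re, Complex.sub_im]
  have h5 : s₀ / (n + 1) ≤ ‖P i - P j‖ := by
    rw [← h4]
    refine le_trans ?_ (Complex.abs_im_le_norm _)
    rw [hPP, hPP, Complex.sub_im]
    simp only
    rw [← sub_mul, abs_mul, abs_of_nonneg (show 0 ≤ s₀ / ((n : ℝ) + 1) by positivity)]
    have h6 : (1 : ℝ) ≤ |(i : ℝ) - j| := by
      have h7 : (1 : ℤ) ≤ |(i : ℤ) - j| := Int.one_le_abs (by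
        intro h
        apply hij
        omega)
      exact_mod_cast h7
    have h8 : 0 ≤ s₀ / ((n : ℝ) + 1) := by positivity
    nlinarith
  refine ⟨P i, by rw [hP]; exact hτ2 i hi, P j, by rw [hP]; exact hτ2 j hj, ?_⟩
  have hval : ∀ k, k < n + 1 → g' (P k) = φ (PP u e w (P k)) := by
    intro k hk
    rw [hP]
    exact hg' _ _ (hτ0 k hk) (hτ1 k hk) (by positivity) (hkb k hk)
  have h6 : ‖g' (P i) - g' (P j)‖ = ‖P i - P j‖ := by
    rw [hval i hi, hval j hj, h3, h4]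
  have h7 : ‖g'' (P i) - g' (P i)‖ ≤ (1 - l) * (s₀ / (n + 1)) / 4 := by
    rw [hP]
    exact hg'' _ _ (hτ0 i hi) (hτ1 i hi) (by positivity) (hkb i hi)
  have h8 : ‖g'' (P j) - g' (P j)‖ ≤ (1 - l) * (s₀ / (n + 1)) / 4 := by
    rw [hP]
    exact hg'' _ _ (hτ0 j hj) (hτ1 j hj) (by positivity) (hkb j hj)
  have h9 : ‖g' (P i) - g' (P j)‖ ≤ ‖g'' (P i) - g'' (P j)‖ + ‖g'' (P i) - g' (P i)‖ +
      ‖g'' (P j) - g' (P j)‖ := by
    have : g' (P i) - g' (P j) = (g'' (P i) - g'' (P j)) + (-(g'' (P i) - g' (P i))) +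
        (g'' (P j) - g' (P j)) := by abel
    rw [this]
    refine (norm_add_le _ _).trans (add_le_add ((norm_add_le _ _).trans ?_) le_rfl)
    rw [norm_neg]
  have h10 : (1 - l) * (s₀ / (n + 1)) ≤ (1 - l) * ‖P i - P j‖ :=
    mul_le_mul_of_nonneg_left h5 (by linarith)
  have h11 : 0 < (1 - l) * (s₀ / (n + 1)) := by
    have : 0 < 1 - l := by linarith
    positivity
  rw [h6] at h9
  linarith

end Pool.Agent.W2helper13.Am
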