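import Mathlib

/-!
# Exit kernels of finite networks
-/

set_option autoImplicit false

namespace Pool.Agent.W2helper13.Am

open Set Filter Topology

universe u v w

/-- An affine continuous self map of a nonempty compact convex set has a fixed point. -/
lemma affine_fixed {E : Type u} [NormedAddCommGroup E] [NormedSpace ℝ E] {𝒦 : Set E}
    (hc : IsCompact 𝒦) (hcv : Convex ℝ 𝒦) {x₀ : E} (hx₀ : x₀ ∈ 𝒦) (A : E →L[ℝ] E) (b : E)
    (hT : ∀ x ∈ 𝒦, A x + b ∈ 𝒦) : ∃ x ∈ 𝒦, A x + b = x := by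
  obtain ⟨x, hx0, hxs⟩ : ∃ x : ℕ → E, x 0 = x₀ ∧ ∀ n, x (n + 1) = A (x n) + b :=
    ⟨fun n => Nat.rec x₀ (fun _ y => A y + b) n, rfl, fun n => rfl⟩
  have hmem : ∀ n, x n ∈ 𝒦 := by
    intro n
    induction n with
    | zero => rw [hx0]; exact hx₀
    | succ n ih => rw [hxs]; exact hT _ ih
  obtain ⟨C, hC⟩ : ∃ C : ℕ → E, ∀ n, C n = ∑ k ∈ Finset.range (n + 1), (1 / ((n : ℝ) + 1)) • x k :=
    ⟨_, fun n => rfl⟩
  have hCmem : ∀ n, C n ∈ 𝒦 := by
    intro n
    rw [hC]
    refine hcv.sum_mem (fun _ _ => by positivity) ?_ (fun k _ => hmem k)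
    rw [Finset.sum_const, Finset.card_range, nsmul_eq_mul]
    push_cast
    field_simp
  have hdiff : ∀ n, A (C n) + b - C n = (1 / ((n : ℝ) + 1)) • (x (n + 1) - x 0) := by
    intro n
    have h1 : A (C n) + b = ∑ k ∈ Finset.range (n + 1), (1 / ((n : ℝ) + 1)) • x (k + 1) := by
      have h2 : b = ∑ k ∈ Finset.range (n + 1), (1 / ((n : ℝ) + 1)) • b := by
        rw [Finset.sum_const, Finset.card_range, ← Nat.cast_smul_eq_nsmul ℝ, smul_smul]
        have : ((n + 1 : ℕ) : ℝ) * (1 / ((n : ℝ) + 1)) = 1 := by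
          push_cast; field_simp
        rw [this, one_smul]
      conv_lhs => rw [h2, hC]
      rw [map_sum, ← Finset.sum_add_distrib]
      refine Finset.sum_congr rfl fun k _ => ?_
      rw [hxs, smul_add, map_smul]
    rw [h1, hC, ← Finset.sum_sub_distrib, ← Finset.sum_range_sub, Finset.smul_sum]
    refine Finset.sum_congr rfl fun k _ => ?_
    rw [smul_sub]
  obtain ⟨R, hR⟩ := hc.isBounded.exists_norm_le
  obtain ⟨a, ha, φ, hφ, hlim⟩ := hc.tendsto_subseq hCmem
  refine ⟨a, ha, ?_⟩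
  have h1 : Tendsto (fun n => A (C (φ n)) + b - C (φ n)) atTop (𝓝 (A a + b - a)) :=
    (((A.continuous.tendsto a).comp hlim).add_const b).sub hlim
  have h2 : Tendsto (fun n => A (C (φ n)) + b - C (φ n)) atTop (𝓝 0) := by
    have h3 : Tendsto (fun n : ℕ => (1 / ((φ n : ℝ) + 1)) * (2 * R)) atTop (𝓝 0) := by
      have := ((tendsto_one_div_add_atTop_nhds_zero_nat (𝕜 := ℝ)).comp hφ.tendsto_atTop).mul_const
        (2 * R)
      rw [zero_mul] at this
      exact this
    refine squeeze_zero_norm (fun n => ?_) h3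
    rw [hdiff, norm_smul, Real.norm_eq_abs, abs_of_nonneg (by positivity)]
    refine mul_le_mul_of_nonneg_left ?_ (by positivity)
    refine (norm_sub_le _ _).trans ?_
    linarith [hR _ (hmem (φ n + 1)), hR _ (hmem 0)]
  exact sub_eq_zero.1 (tendsto_nhds_unique h1 h2)

/-- The exit kernel of a finite network. -/
theorem exists_kernel {ι : Type u} [Fintype ι] [DecidableEq ι] [Nonempty ι] (ω : ι → ι → ℝ)
    (hω : ∀ i j, 0 ≤ ω i j) (b : ι → ℝ) (hb : ∀ i, 0 ≤ b i) :
    ∃ K : ι → ι → ℝ, (∀ i z, 0 ≤ K i z) ∧ (∀ z, ∑ i, K i z = 1) ∧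
      ∀ i z, ∑ j, ω z j * (K i z - K i j) + b z * K i z = if i = z then b z else 0 := by
  classical
  obtain ⟨m, hm⟩ : ∃ m : ι → ℝ, ∀ z, m z = ∑ j, ω z j + b z := ⟨_, fun z => rfl⟩
  have hm0 : ∀ z, 0 ≤ m z := fun z => by
    rw [hm]
    exact add_nonneg (Finset.sum_nonneg fun j _ => hω z j) (hb z)
  -- the linear part
  let A : (ι → ι → ℝ) →ₗ[ℝ] (ι → ι → ℝ) :=
    { toFun := fun K i z => if m z = 0 then K i z else (m z)⁻¹ * ∑ j, ω z j * K i j
      map_add' := fun K K' => by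
        funext i z
        simp only [Pi.add_apply]
        split_ifs
        · rfl
        · rw [← mul_add, ← Finset.sum_add_distrib]
          congr 1
          exact Finset.sum_congr rfl fun j _ => by ring
      map_smul' := fun r K => by
        funext i z
        simp only [Pi.smul_apply, smul_eq_mul, RingHom.id_apply]
        split_ifs
        · rfl
        · rw [mul_left_comm, Finset.mul_sum (s := Finset.univ) (a := r)]
          congr 1
          exact Finset.sum_congr rfl fun j _ => by ring }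
  have hA : ∀ K i z, A K i z = if m z = 0 then K i z else (m z)⁻¹ * ∑ j, ω z j * K i j :=
    fun K i z => rfl
  obtain ⟨B, hB⟩ : ∃ B : ι → ι → ℝ, ∀ i z, B i z =
      if m z = 0 then 0 else (m z)⁻¹ * (if i = z then b z else 0) := ⟨_, fun i z => rfl⟩
  obtain ⟨𝒦, h𝒦⟩ : ∃ 𝒦 : Set (ι → ι → ℝ), 𝒦 = {K | (∀ i z, K i z ∈ Icc (0 : ℝ) 1) ∧
      ∀ z, ∑ i, K i z = 1} := ⟨_, rfl⟩
  have hcl : IsCompact 𝒦 := by
    have h1 : IsCompact (Set.pi univ fun _ : ι => Set.pi univ fun _ : ι => Icc (0 : ℝ) 1) :=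
      isCompact_univ_pi fun _ => isCompact_univ_pi fun _ => isCompact_Icc
    refine h1.of_isClosed_subset ?_ ?_
    · rw [h𝒦]
      have e1 : {K : ι → ι → ℝ | (∀ i z, K i z ∈ Icc (0 : ℝ) 1) ∧ ∀ z, ∑ i, K i z = 1} =
          (⋂ i, ⋂ z, (fun K : ι → ι → ℝ => K i z) ⁻¹' Icc (0 : ℝ) 1) ∩
            ⋂ z, (fun K : ι → ι → ℝ => ∑ i, K i z) ⁻¹' {1} := by
        ext K
        simp
      rw [e1]
      refine IsClosed.inter (isClosed_iInter fun i => isClosed_iInter fun z => ?_)
        (isClosed_iInter fun z => ?_)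
      · exact isClosed_Icc.preimage (by fun_prop)
      · exact isClosed_singleton.preimage (by fun_prop)
    · rw [h𝒦]
      rintro K ⟨h2, -⟩
      exact fun i _ z _ => h2 i z
  have hcv : Convex ℝ 𝒦 := by
    rw [h𝒦]
    rintro K ⟨h1, h2⟩ K' ⟨h1', h2'⟩ s t hs ht hst
    refine ⟨fun i z => ?_, fun z => ?_⟩
    · exact (convex_Icc (0 : ℝ) 1) (h1 i z) (h1' i z) hs ht hst
    · simp only [Pi.add_apply, Pi.smul_apply, smul_eq_mul, Finset.sum_add_distrib,
        ← Finset.mul_sum, h2, h2', mul_one, hst]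
  obtain ⟨i₀⟩ := (inferInstance : Nonempty ι)
  have hx₀ : (fun i _ => if i = i₀ then 1 else 0 : ι → ι → ℝ) ∈ 𝒦 := by
    rw [h𝒦]
    refine ⟨fun i z => ?_, fun z => ?_⟩
    · simp only
      split_ifs <;> constructor <;> norm_num
    · simp
  have hcol : ∀ K ∈ 𝒦, ∀ z, ∑ i, (A K + B) i z = 1 := by
    intro K hK z
    rw [h𝒦] at hK
    simp only [Pi.add_apply, hA, hB]
    by_cases hz : m z = 0
    · simp only [if_pos hz, add_zero]
      exact hK.2 z
    · simp only [if_neg hz]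
      rw [Finset.sum_add_distrib, ← Finset.mul_sum, ← Finset.mul_sum, Finset.sum_comm,
        Finset.sum_ite_eq' Finset.univ z, if_pos (Finset.mem_univ z), ← mul_add]
      have h1 : ∑ j, ∑ i, ω z j * K i j = ∑ j, ω z j := by
        refine Finset.sum_congr rfl fun j _ => ?_
        rw [← Finset.mul_sum, hK.2 j, mul_one]
      rw [h1, ← hm, inv_mul_cancel₀ hz]
  have hnn : ∀ K ∈ 𝒦, ∀ i z, 0 ≤ (A K + B) i z := by
    intro K hK i z
    rw [h𝒦] at hK
    simp only [Pi.add_apply, hA, hB]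
    by_cases hz : m z = 0
    · rw [if_pos hz, if_pos hz, add_zero]
      exact (hK.1 i z).1
    · rw [if_neg hz, if_neg hz]
      refine add_nonneg (mul_nonneg (inv_nonneg.2 (hm0 z)) (Finset.sum_nonneg fun j _ =>
        mul_nonneg (hω z j) (hK.1 i j).1)) (mul_nonneg (inv_nonneg.2 (hm0 z)) ?_)
      split_ifs
      · exact hb z
      · exact le_rfl
  obtain ⟨K, hK, hfix⟩ := affine_fixed hcl hcv hx₀ (LinearMap.toContinuousLinearMap A) B (by
    intro K hK
    rw [h𝒦]
    refine ⟨fun i z => ⟨hnn K hK i z, ?_⟩, fun z => hcol K hK z⟩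
    have h1 := hcol K hK z
    rw [← h1]
    exact Finset.single_le_sum (f := fun i => (A K + B) i z) (fun i _ => hnn K hK i z)
      (Finset.mem_univ i))
  have hK' := hK
  rw [h𝒦] at hK'
  refine ⟨K, fun i z => (hK'.1 i z).1, hK'.2, fun i z => ?_⟩
  have h1 : (A K + B) i z = K i z := congrFun (congrFun hfix i) z
  simp only [Pi.add_apply, hA, hB] at h1
  have h2 : ∑ j, ω z j * (K i z - K i j) = (∑ j, ω z j) * K i z - ∑ j, ω z j * K i j := by
    rw [Finset.sum_mul, ← Finset.sum_sub_distrib]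
    exact Finset.sum_congr rfl fun j _ => by ring
  by_cases hz : m z = 0
  · have h3 : ∑ j, ω z j = 0 ∧ b z = 0 := by
      have h4 := hm z
      have h5 : 0 ≤ ∑ j, ω z j := Finset.sum_nonneg fun j _ => hω z j
      have h6 := hb z
      constructor <;> linarith
    have h4 : ∀ j, ω z j = 0 := fun j =>
      (Finset.sum_eq_zero_iff_of_nonneg (fun j _ => hω z j)).1 h3.1 j (Finset.mem_univ j)
    rw [h3.2, zero_mul, add_zero]
    simp [h4]
  · rw [if_neg hz, if_neg hz, ← mul_add] at h1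
    have h3 : ∑ j, ω z j * K i j + (if i = z then b z else 0) = m z * K i z := by
      rw [← h1, ← mul_assoc, mul_inv_cancel₀ hz, one_mul]
    rw [h2]
    rw [hm] at h3
    linarith

end Pool.Agent.W2helper13.Am
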