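import Mathlib
import Pool.Agent.W2helper13.Am.Kernel

/-!
# Energies of finite networks
-/

set_option autoImplicit false

namespace Pool.Agent.W2helper13.Am

open Set Filter Topology

universe u v w

section forms

variable {V : Type u} [NormedAddCommGroup V] [InnerProductSpace ℝ V]
  {ι : Type v} [Fintype ι] {κ : Type w} [Fintype κ]

/-- The network Laplacian of a vector-valued function with given boundary values. -/
def ell (ω : ι → ι → ℝ) (β : ι → κ → ℝ) (p : ι → V) (q : κ → V) (z : ι) : V :=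
  ∑ j, ω z j • (p z - p j) + ∑ y, β z y • (p z - q y)

/-- The energy. -/
noncomputable def en (ω : ι → ι → ℝ) (β : ι → κ → ℝ) (p : ι → V) (q : κ → V) : ℝ :=
  (1 / 2) * ∑ i, ∑ j, ω i j * ‖p i - p j‖ ^ 2 + ∑ i, ∑ y, β i y * ‖p i - q y‖ ^ 2

variable {ω : ι → ι → ℝ} {β : ι → κ → ℝ}

lemma form_eq (hs : ∀ i j, ω i j = ω j i) (p : ι → V) (q : κ → V) (w : ι → V) :
    ∑ z, inner ℝ (ell ω β p q z) (w z) =
      (1 / 2) * ∑ i, ∑ j, ω i j * inner ℝ (p i - p j) (w i - w j) +
        ∑ i, ∑ y, β i y * inner ℝ (p i - q y) (w i) := by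
  have h1 : ∀ z, inner ℝ (ell ω β p q z) (w z) = ∑ j, ω z j * inner ℝ (p z - p j) (w z) +
      ∑ y, β z y * inner ℝ (p z - q y) (w z) := by
    intro z
    rw [ell, inner_add_left, sum_inner, sum_inner]
    simp only [real_inner_smul_left]
  simp only [h1, Finset.sum_add_distrib]
  congr 1
  have h2 : ∑ i, ∑ j, ω i j * inner ℝ (p i - p j) (w i - w j) =
      ∑ i, ∑ j, ω i j * inner ℝ (p i - p j) (w i) - ∑ i, ∑ j, ω i j * inner ℝ (p i - p j) (w j) := by
    rw [← Finset.sum_sub_distrib]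
    refine Finset.sum_congr rfl fun i _ => ?_
    rw [← Finset.sum_sub_distrib]
    refine Finset.sum_congr rfl fun j _ => ?_
    rw [inner_sub_right]; ring
  have h3 : ∑ i, ∑ j, ω i j * inner ℝ (p i - p j) (w j) =
      - ∑ i, ∑ j, ω i j * inner ℝ (p i - p j) (w i) := by
    rw [Finset.sum_comm, ← Finset.sum_neg_distrib]
    refine Finset.sum_congr rfl fun i _ => ?_
    rw [← Finset.sum_neg_distrib]
    refine Finset.sum_congr rfl fun j _ => ?_
    rw [hs j i, ← neg_sub (p i) (p j), inner_neg_left]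
    ring
  rw [h2, h3]
  ring

lemma en_add (hs : ∀ i j, ω i j = ω j i) (p : ι → V) (q : κ → V) (w : ι → V) :
    en ω β (fun i => p i + w i) q = en ω β p q + 2 * ∑ z, inner ℝ (ell ω β p q z) (w z) +
      en ω β w (fun _ => 0) := by
  rw [form_eq hs, en, en, en]
  have h1 : ∀ i j, ω i j * ‖p i + w i - (p j + w j)‖ ^ 2 = ω i j * ‖p i - p j‖ ^ 2 +
      2 * (ω i j * inner ℝ (p i - p j) (w i - w j)) + ω i j * ‖w i - w j‖ ^ 2 := by
    intro i j
    have : p i + w i - (p j + w j) = (p i - p j) + (w i - w j) := by abel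
    rw [this, norm_add_sq_real]
    ring
  have h2 : ∀ i y, β i y * ‖p i + w i - q y‖ ^ 2 = β i y * ‖p i - q y‖ ^ 2 +
      2 * (β i y * inner ℝ (p i - q y) (w i)) + β i y * ‖w i - 0‖ ^ 2 := by
    intro i y
    have : p i + w i - q y = (p i - q y) + w i := by abel
    rw [this, norm_add_sq_real, sub_zero]
    ring
  simp only [h1, h2, Finset.sum_add_distrib, ← Finset.mul_sum]
  ring

lemma en_nonneg (hω : ∀ i j, 0 ≤ ω i j) (hβ : ∀ i y, 0 ≤ β i y) (p : ι → V) (q : κ → V) :
    0 ≤ en ω β p q := by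
  rw [en]
  refine add_nonneg (mul_nonneg (by norm_num) (Finset.sum_nonneg fun i _ =>
    Finset.sum_nonneg fun j _ => mul_nonneg (hω i j) (by positivity)))
    (Finset.sum_nonneg fun i _ => Finset.sum_nonneg fun y _ => mul_nonneg (hβ i y) (by positivity))

lemma en_smul (t : ℝ) (w : ι → V) :
    en ω β (fun i => t • w i) (fun _ : κ => (0 : V)) = t ^ 2 * en ω β w (fun _ => 0) := by
  rw [en, en, mul_add, mul_left_comm (t ^ 2), Finset.mul_sum (s := Finset.univ) (a := t ^ 2),
    Finset.mul_sum (s := Finset.univ) (a := t ^ 2)]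
  congr 1
  · congr 1
    refine Finset.sum_congr rfl fun i _ => ?_
    rw [Finset.mul_sum]
    refine Finset.sum_congr rfl fun j _ => ?_
    rw [← smul_sub, norm_smul, mul_pow, Real.norm_eq_abs, sq_abs]
    ring
  · refine Finset.sum_congr rfl fun i _ => ?_
    rw [Finset.mul_sum]
    refine Finset.sum_congr rfl fun j _ => ?_
    rw [sub_zero, sub_zero, norm_smul, mul_pow, Real.norm_eq_abs, sq_abs]
    ring

/-- Scalar summation by parts. -/
lemma scalar_parts (hs : ∀ i j, ω i j = ω j i) (f v : ι → ℝ) :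
    ∑ z, v z * ∑ j, ω z j * (f z - f j) = ∑ z, f z * ∑ j, ω z j * (v z - v j) := by
  have h1 : ∀ (f v : ι → ℝ), ∑ z, v z * ∑ j, ω z j * (f z - f j) =
      ∑ z, ∑ j, ω z j * (v z * f z) - ∑ z, ∑ j, ω z j * (v z * f j) := by
    intro f v
    rw [← Finset.sum_sub_distrib]
    refine Finset.sum_congr rfl fun z _ => ?_
    rw [Finset.mul_sum, ← Finset.sum_sub_distrib]
    refine Finset.sum_congr rfl fun j _ => ?_
    ring
  rw [h1, h1]
  congr 1
  · exact Finset.sum_congr rfl fun z _ => Finset.sum_congr rfl fun j _ => by ring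
  · rw [Finset.sum_comm]
    refine Finset.sum_congr rfl fun z _ => Finset.sum_congr rfl fun j _ => ?_
    rw [hs j z]; ring

end forms

end Pool.Agent.W2helper13.Am
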