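import Mathlib
import Pool.Agent.W2helper13.Am.Kirsz
import Pool.Agent.W2helper13.Am.Net

/-!
# A network in equilibrium with nearly tight edges carries no boundary force
-/

set_option autoImplicit false

namespace Pool.Agent.W2helper13.Am

open Set Filter Topology

universe u v w

section

variable {X : Type*} [NormedAddCommGroup X] [InnerProductSpace ℝ X]
  {H : Type*} [NormedAddCommGroup H] [InnerProductSpace ℝ H] [CompleteSpace H]
  {ι : Type*} [Fintype ι] {κ : Type*} [Fintype κ]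
  {ω : ι → ι → ℝ} {β : ι → κ → ℝ}

/-- Comparison with extensions of the inclusion of the boundary. -/
lemma compare_en (hs : ∀ i j, ω i j = ω j i) (hω : ∀ i j, 0 ≤ ω i j) (hβ : ∀ i y, 0 ≤ β i y)
    {a : κ → X} {F : κ → H} {c : ι → H} (K1 : ∀ z, ell ω β c F z = 0)
    (hF : ∀ y y', ‖F y - F y'‖ ≤ ‖a y - a y'‖) (h : ι → X) :
    en ω β c F ≤ en ω β h a := by
  classical
  have hfac : Function.FactorsThrough F a := by
    intro y y' hyy
    have := hF y y'
    rw [hyy, sub_self, norm_zero] at this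
    exact sub_eq_zero.1 (norm_le_zero_iff.1 this)
  obtain ⟨G, hG, hGa⟩ := kirszbraun (range a) (Function.extend a F 0) (by
    rintro _ ⟨y, rfl⟩ _ ⟨y', rfl⟩
    rw [hfac.extend_apply, hfac.extend_apply]
    exact hF y y')
  have hGa' : ∀ y, G (a y) = F y := fun y => by
    rw [hGa (a y) ⟨y, rfl⟩, hfac.extend_apply]
  have h1 : en ω β c F ≤ en ω β (fun i => G (h i)) F := by
    have h2 := en_add (ω := ω) (β := β) hs c F (fun i => G (h i) - c i)
    have h3 : (fun i => c i + (G (h i) - c i)) = fun i => G (h i) := by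
      funext i; abel
    rw [h3] at h2
    rw [h2]
    have h4 : ∑ z, inner ℝ (ell ω β c F z) (G (h z) - c z) = 0 := by
      refine Finset.sum_eq_zero fun z _ => ?_
      rw [K1, inner_zero_left]
    rw [h4]
    have := en_nonneg hω hβ (fun i => G (h i) - c i) (fun _ : κ => (0 : H))
    linarith
  refine h1.trans ?_
  rw [en, en]
  refine add_le_add (mul_le_mul_of_nonneg_left (Finset.sum_le_sum fun i _ =>
    Finset.sum_le_sum fun j _ => mul_le_mul_of_nonneg_left ?_ (hω i j)) (by norm_num))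
    (Finset.sum_le_sum fun i _ => Finset.sum_le_sum fun y _ =>
      mul_le_mul_of_nonneg_left ?_ (hβ i y))
  · exact pow_le_pow_left₀ (norm_nonneg _) (hG _ _) 2
  · rw [← hGa' y]
    exact pow_le_pow_left₀ (norm_nonneg _) (hG _ _) 2

omit [CompleteSpace H] in
lemma slack_sum {x : ι → X} {a : κ → X} {F : κ → H} {c : ι → H} {s : ℝ}
    (Sl1 : ∀ i j, ω i j * (‖x i - x j‖ ^ 2 - ‖c i - c j‖ ^ 2) ≤ 0)
    (Sl2 : ∀ i y, β i y * (‖x i - a y‖ ^ 2 - ‖c i - F y‖ ^ 2) ≤ s * (β i y * ‖x i - a y‖)) :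
    en ω β x a ≤ en ω β c F + s * ∑ i, ∑ y, β i y * ‖x i - a y‖ := by
  have h1 : en ω β x a - en ω β c F = (1 / 2) * ∑ i, ∑ j, ω i j * (‖x i - x j‖ ^ 2 - ‖c i - c j‖ ^ 2)
      + ∑ i, ∑ y, β i y * (‖x i - a y‖ ^ 2 - ‖c i - F y‖ ^ 2) := by
    rw [en, en]
    simp only [mul_sub, Finset.sum_sub_distrib]
    ring
  have h2 : ∑ i, ∑ j, ω i j * (‖x i - x j‖ ^ 2 - ‖c i - c j‖ ^ 2) ≤ 0 :=
    Finset.sum_nonpos fun i _ => Finset.sum_nonpos fun j _ => Sl1 i j
  have h3 : ∑ i, ∑ y, β i y * (‖x i - a y‖ ^ 2 - ‖c i - F y‖ ^ 2) ≤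
      s * ∑ i, ∑ y, β i y * ‖x i - a y‖ := by
    rw [Finset.mul_sum]
    refine Finset.sum_le_sum fun i _ => ?_
    rw [Finset.mul_sum]
    exact Finset.sum_le_sum fun y _ => Sl2 i y
  linarith

omit [CompleteSpace H] in
/-- The exit kernel inequality. -/
lemma exit_ineq [DecidableEq ι] (hs : ∀ i j, ω i j = ω j i)
    (hβ : ∀ i y, 0 ≤ β i y) {x : ι → X} {a : κ → X} {F : κ → H} {c cs : ι → H} {ρ δ s : ℝ}
    (hρ : 0 ≤ ρ) (hδ : 0 < δ) (hxρ : ∀ i j, ‖x i - x j‖ ≤ ρ)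
    (hm : ∀ i y, ‖F y - cs i‖ ≤ ‖x i - a y‖ - δ)
    (K1 : ∀ z, ell ω β c F z = 0)
    (Sl1 : ∀ i j, ω i j * (‖x i - x j‖ ^ 2 - ‖c i - c j‖ ^ 2) ≤ 0)
    (Sl2 : ∀ i y, β i y * (‖x i - a y‖ ^ 2 - ‖c i - F y‖ ^ 2) ≤ s * (β i y * ‖x i - a y‖))
    {K : ι → ι → ℝ} (hK0 : ∀ i z, 0 ≤ K i z) (hK1 : ∀ z, ∑ i, K i z = 1)
    (hK2 : ∀ i z, ∑ j, ω z j * (K i z - K i j) + (∑ y, β z y) * K i z =
      if i = z then ∑ y, β z y else 0) :
    δ ^ 2 / (ρ + δ) * ∑ i, ∑ y, β i y * ‖x i - a y‖ ≤ s * ∑ i, ∑ y, β i y * ‖x i - a y‖ -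
      2 * ∑ z, inner ℝ (ell ω β x a z) (∑ i, K i z • (x z - x i)) := by
  have hax : ∀ i y, δ ≤ ‖x i - a y‖ := fun i y => by
    linarith [hm i y, norm_nonneg (F y - cs i)]
  obtain ⟨k, hk⟩ : ∃ k : ι → ι → ℝ, ∀ i z, k i z = ‖c z - cs i‖ ^ 2 - ‖x z - x i‖ ^ 2 :=
    ⟨_, fun i z => rfl⟩
  obtain ⟨kb, hkb⟩ : ∃ kb : ι → κ → ℝ, ∀ i y, kb i y = ‖F y - cs i‖ ^ 2 - ‖a y - x i‖ ^ 2 :=
    ⟨_, fun i z => rfl⟩
  obtain ⟨Λ, hΛ⟩ : ∃ Λ : ι → ι → ℝ, ∀ i z, Λ i z = ∑ j, ω z j * (k i z - k i j) +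
    ∑ y, β z y * (k i z - kb i y) := ⟨_, fun i z => rfl⟩
  obtain ⟨D, hD⟩ : ∃ D : ι → ℝ, ∀ z, D z = ∑ j, ω z j * (‖x z - x j‖ ^ 2 - ‖c z - c j‖ ^ 2) +
    ∑ y, β z y * (‖x z - a y‖ ^ 2 - ‖c z - F y‖ ^ 2) := ⟨_, fun z => rfl⟩
  -- first evaluation
  have hfirst : ∀ i z, Λ i z = D z - 2 * inner ℝ (ell ω β x a z) (x z - x i) := by
    intro i z
    have e1 : ∀ (u d : H), ‖u‖ ^ 2 - ‖u - d‖ ^ 2 = 2 * inner ℝ d u - ‖d‖ ^ 2 := by
      intro u d
      rw [norm_sub_sq_real, real_inner_comm]; ring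
    have e1' : ∀ (u d : X), ‖u‖ ^ 2 - ‖u - d‖ ^ 2 = 2 * inner ℝ d u - ‖d‖ ^ 2 := by
      intro u d
      rw [norm_sub_sq_real, real_inner_comm]; ring
    have e2 : ∀ j, k i z - k i j = (‖x z - x j‖ ^ 2 - ‖c z - c j‖ ^ 2) +
        2 * inner ℝ (c z - c j) (c z - cs i) - 2 * inner ℝ (x z - x j) (x z - x i) := by
      intro j
      have a1 := e1 (c z - cs i) (c z - c j)
      have a2 := e1' (x z - x i) (x z - x j)
      have a3 : c z - cs i - (c z - c j) = c j - cs i := by abel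
      have a4 : x z - x i - (x z - x j) = x j - x i := by abel
      rw [a3] at a1
      rw [a4] at a2
      rw [hk, hk]
      linarith
    have e3 : ∀ y, k i z - kb i y = (‖x z - a y‖ ^ 2 - ‖c z - F y‖ ^ 2) +
        2 * inner ℝ (c z - F y) (c z - cs i) - 2 * inner ℝ (x z - a y) (x z - x i) := by
      intro y
      have a1 := e1 (c z - cs i) (c z - F y)
      have a2 := e1' (x z - x i) (x z - a y)
      have a3 : c z - cs i - (c z - F y) = F y - cs i := by abel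
      have a4 : x z - x i - (x z - a y) = a y - x i := by abel
      rw [a3] at a1
      rw [a4] at a2
      rw [hk, hkb]
      linarith
    have e4 : inner ℝ (ell ω β c F z) (c z - cs i) = 0 := by rw [K1, inner_zero_left]
    rw [ell, inner_add_left, sum_inner, sum_inner] at e4
    simp only [real_inner_smul_left] at e4
    rw [hΛ, hD, ell, inner_add_left, sum_inner, sum_inner]
    simp only [real_inner_smul_left, e2, e3, mul_add, mul_sub, Finset.sum_add_distrib,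
      Finset.sum_sub_distrib]
    have e5 : ∀ (f : ι → ℝ), ∑ j, ω z j * (2 * f j) = 2 * ∑ j, ω z j * f j := fun f => by
      rw [Finset.mul_sum]
      exact Finset.sum_congr rfl fun j _ => by ring
    have e6 : ∀ (f : κ → ℝ), ∑ y, β z y * (2 * f y) = 2 * ∑ y, β z y * f y := fun f => by
      rw [Finset.mul_sum]
      exact Finset.sum_congr rfl fun j _ => by ring
    simp only [e5, e6]
    linarith
  have hsum1 : ∑ i, ∑ z, K i z * Λ i z = ∑ z, D z -
      2 * ∑ z, inner ℝ (ell ω β x a z) (∑ i, K i z • (x z - x i)) := by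
    rw [Finset.sum_comm, Finset.mul_sum, ← Finset.sum_sub_distrib]
    refine Finset.sum_congr rfl fun z _ => ?_
    rw [inner_sum, Finset.mul_sum]
    simp only [real_inner_smul_right]
    have : ∑ i, K i z * Λ i z = (∑ i, K i z) * D z -
        ∑ i, 2 * (K i z * inner ℝ (ell ω β x a z) (x z - x i)) := by
      rw [Finset.sum_mul, ← Finset.sum_sub_distrib]
      refine Finset.sum_congr rfl fun i _ => ?_
      rw [hfirst]; ring
    rw [this, hK1, one_mul]
  have hDle : ∑ z, D z ≤ s * ∑ i, ∑ y, β i y * ‖x i - a y‖ := by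
    rw [Finset.mul_sum]
    refine Finset.sum_le_sum fun z _ => ?_
    rw [hD, Finset.mul_sum]
    have h1 : ∑ j, ω z j * (‖x z - x j‖ ^ 2 - ‖c z - c j‖ ^ 2) ≤ 0 :=
      Finset.sum_nonpos fun j _ => Sl1 z j
    have h2 : ∑ y, β z y * (‖x z - a y‖ ^ 2 - ‖c z - F y‖ ^ 2) ≤
        ∑ y, s * (β z y * ‖x z - a y‖) := Finset.sum_le_sum fun y _ => Sl2 z y
    linarith
  -- second evaluation
  have hsecond : ∀ i, ∑ z, K i z * Λ i z = (∑ y, β i y) * k i i -
      ∑ z, ∑ y, K i z * (β z y * kb i y) := by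
    intro i
    have h1 : ∑ z, K i z * Λ i z = ∑ z, K i z * ∑ j, ω z j * (k i z - k i j) +
        ∑ z, (k i z * ((∑ y, β z y) * K i z)) - ∑ z, ∑ y, K i z * (β z y * kb i y) := by
      rw [← Finset.sum_add_distrib, ← Finset.sum_sub_distrib]
      refine Finset.sum_congr rfl fun z _ => ?_
      rw [hΛ]
      have : ∑ y, β z y * (k i z - kb i y) = (∑ y, β z y) * k i z - ∑ y, β z y * kb i y := by
        rw [Finset.sum_mul, ← Finset.sum_sub_distrib]
        exact Finset.sum_congr rfl fun y _ => by ring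
      rw [this, ← Finset.mul_sum]
      ring
    rw [h1, scalar_parts hs (fun z => k i z) (fun z => K i z), ← Finset.sum_add_distrib]
    congr 1
    have h2 : ∀ z, k i z * ∑ j, ω z j * (K i z - K i j) + k i z * ((∑ y, β z y) * K i z) =
        k i z * (if i = z then ∑ y, β z y else 0) := by
      intro z
      rw [← mul_add, hK2]
    simp only [h2, mul_ite, mul_zero, Finset.sum_ite_eq, Finset.mem_univ, if_true]
    ring
  have hkbound : ∀ i z y, δ ^ 2 / (ρ + δ) * ‖x z - a y‖ ≤ - kb i y := by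
    intro i z y
    have h1 := hax i y
    have h2 := hm i y
    have h3 : ‖F y - cs i‖ ^ 2 ≤ (‖x i - a y‖ - δ) ^ 2 := pow_le_pow_left₀ (norm_nonneg _) h2 2
    have h4 : ‖x z - a y‖ ≤ ρ + ‖x i - a y‖ := by
      have : ‖x z - a y‖ ≤ ‖x z - x i‖ + ‖x i - a y‖ := norm_sub_le_norm_sub_add_norm_sub _ _ _
      linarith [hxρ z i]
    rw [hkb, norm_sub_rev (a y) (x i), div_mul_eq_mul_div, div_le_iff₀ (by positivity)]
    have h5 : δ * ‖x i - a y‖ ≤ -(‖F y - cs i‖ ^ 2 - ‖x i - a y‖ ^ 2) := by nlinarith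
    have h6 : δ ^ 2 * ‖x z - a y‖ ≤ δ * ‖x i - a y‖ * (ρ + δ) := by
      have h7 : δ * ‖x z - a y‖ ≤ ‖x i - a y‖ * (ρ + δ) := by nlinarith
      nlinarith
    have h8 : δ * ‖x i - a y‖ * (ρ + δ) ≤ -(‖F y - cs i‖ ^ 2 - ‖x i - a y‖ ^ 2) * (ρ + δ) :=
      mul_le_mul_of_nonneg_right h5 (by linarith)
    linarith
  have hlow : δ ^ 2 / (ρ + δ) * ∑ i, ∑ y, β i y * ‖x i - a y‖ ≤ ∑ i, ∑ z, K i z * Λ i z := by
    have h1 : ∀ i, ∑ z, ∑ y, K i z * (β z y * (δ ^ 2 / (ρ + δ) * ‖x z - a y‖)) ≤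
        ∑ z, K i z * Λ i z := by
      intro i
      rw [hsecond]
      have h2 : 0 ≤ (∑ y, β i y) * k i i := by
        have h20 : k i i = ‖c i - cs i‖ ^ 2 := by
          rw [hk, sub_self, norm_zero]; ring
        rw [h20]
        exact mul_nonneg (Finset.sum_nonneg fun y _ => hβ i y) (by positivity)
      have h3 : ∑ z, ∑ y, K i z * (β z y * (δ ^ 2 / (ρ + δ) * ‖x z - a y‖)) ≤
          - ∑ z, ∑ y, K i z * (β z y * kb i y) := by
        rw [← Finset.sum_neg_distrib]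
        refine Finset.sum_le_sum fun z _ => ?_
        rw [← Finset.sum_neg_distrib]
        refine Finset.sum_le_sum fun y _ => ?_
        have h4 := mul_le_mul_of_nonneg_left (mul_le_mul_of_nonneg_left (hkbound i z y) (hβ z y))
          (hK0 i z)
        linarith
      linarith
    refine le_trans (le_of_eq ?_) (Finset.sum_le_sum fun i _ => h1 i)
    have h5 : ∑ i, ∑ z, ∑ y, K i z * (β z y * (δ ^ 2 / (ρ + δ) * ‖x z - a y‖)) =
        ∑ z, ∑ y, (β z y * (δ ^ 2 / (ρ + δ) * ‖x z - a y‖)) := by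
      rw [Finset.sum_comm]
      refine Finset.sum_congr rfl fun z _ => ?_
      rw [Finset.sum_comm]
      refine Finset.sum_congr rfl fun y _ => ?_
      rw [← Finset.sum_mul, hK1, one_mul]
    rw [h5, Finset.mul_sum]
    refine Finset.sum_congr rfl fun z _ => ?_
    rw [Finset.mul_sum]
    refine Finset.sum_congr rfl fun y _ => ?_
    ring
  rw [hsum1] at hlow
  linarith

end

end Pool.Agent.W2helper13.Am
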