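import Mathlib
import Pool.Agent.W2helper13.Am.Stress

/-!
# A network in equilibrium with nearly tight edges carries no boundary force, II
-/

set_option autoImplicit false

namespace Pool.Agent.W2helper13.Am

open Set Filter Topology

universe u v w

section

variable {X : Type*} [NormedAddCommGroup X] [InnerProductSpace ℝ X]
  {H : Type*} [NormedAddCommGroup H] [InnerProductSpace ℝ H] [CompleteSpace H]
  {ι : Type*} [Fintype ι] {κ : Type*} [Fintype κ]
  {ω : ι → ι → ℝ} {β : ι → κ → ℝ}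

/-- The constant in the energy bound. -/
noncomputable def CC (ρ δ : ℝ) : ℝ := 4 * ρ + 5 * (ρ ^ 2 / δ) + 2

theorem stress_zero [Nonempty ι] (hs : ∀ i j, ω i j = ω j i) (hω : ∀ i j, 0 ≤ ω i j)
    (hβ : ∀ i y, 0 ≤ β i y) {x : ι → X} {a : κ → X} {F : κ → H} {c cs : ι → H} {ρ δ s : ℝ}
    (hρ : 0 ≤ ρ) (hδ : 0 < δ) (hs0 : 0 < s) (hs1 : s ≤ 1) (hsκ : s ≤ δ ^ 2 / (ρ + δ) / 2)
    (hsC : s * CC ρ δ < (δ ^ 2 / (ρ + δ)) ^ 2 / 16)
    (hxρ : ∀ i j, ‖x i - x j‖ ≤ ρ)
    (hF : ∀ y y', ‖F y - F y'‖ ≤ ‖a y - a y'‖)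
    (hm : ∀ i y, ‖F y - cs i‖ ≤ ‖x i - a y‖ - δ)
    (K1 : ∀ z, ell ω β c F z = 0)
    (Sl1 : ∀ i j, ω i j * (‖x i - x j‖ ^ 2 - ‖c i - c j‖ ^ 2) ≤ 0)
    (Sl2 : ∀ i y, β i y * (‖x i - a y‖ ^ 2 - ‖c i - F y‖ ^ 2) ≤ s * (β i y * ‖x i - a y‖)) :
    ∀ i y, β i y = 0 := by
  classical
  obtain ⟨T, hT⟩ : ∃ T, T = ∑ i, ∑ y, β i y * ‖x i - a y‖ := ⟨_, rfl⟩
  have hax : ∀ i y, δ ≤ ‖x i - a y‖ := fun i y => by
    linarith [hm i y, norm_nonneg (F y - cs i)]
  have hT0 : 0 ≤ T := by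
    rw [hT]
    exact Finset.sum_nonneg fun i _ => Finset.sum_nonneg fun y _ =>
      mul_nonneg (hβ i y) (norm_nonneg _)
  -- it suffices that the total force vanishes
  suffices hT00 : T ≤ 0 by
    intro i y
    have h1 : T = 0 := le_antisymm hT00 hT0
    rw [hT] at h1
    have h2 := (Finset.sum_eq_zero_iff_of_nonneg (fun i _ => Finset.sum_nonneg fun y _ =>
      mul_nonneg (hβ i y) (norm_nonneg _))).1 h1 i (Finset.mem_univ i)
    have h3 := (Finset.sum_eq_zero_iff_of_nonneg (fun y _ =>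
      mul_nonneg (hβ i y) (norm_nonneg _))).1 h2 y (Finset.mem_univ y)
    rcases mul_eq_zero.1 h3 with h4 | h4
    · exact h4
    · exfalso
      have := hax i y
      linarith
  by_contra hTpos
  push Not at hTpos
  obtain ⟨q, hq⟩ : ∃ q, q = ρ ^ 2 / δ := ⟨_, rfl⟩
  have hq0 : 0 ≤ q := by rw [hq]; positivity
  have hqδ : q * δ = ρ ^ 2 := by rw [hq]; field_simp
  have hb : ρ ^ 2 * ∑ i, ∑ y, β i y ≤ q * T := by
    have h1 : δ * ∑ i, ∑ y, β i y ≤ T := by
      rw [hT, Finset.mul_sum]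
      refine Finset.sum_le_sum fun i _ => ?_
      rw [Finset.mul_sum]
      refine Finset.sum_le_sum fun y _ => ?_
      rw [mul_comm]
      exact mul_le_mul_of_nonneg_left (hax i y) (hβ i y)
    rw [← hqδ, mul_assoc]
    exact mul_le_mul_of_nonneg_left h1 hq0
  have hslack : en ω β x a ≤ en ω β c F + s * T := by
    rw [hT]; exact slack_sum Sl1 Sl2
  have hB : ∀ w : ι → X, (∑ z, inner ℝ (ell ω β x a z) (w z)) ^ 2 ≤
      s * T * en ω β w (fun _ => 0) := by
    intro w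
    have h1 : ∀ t : ℝ, 0 ≤ en ω β w (fun _ => 0) * (t * t) +
        (2 * ∑ z, inner ℝ (ell ω β x a z) (w z)) * t + s * T := by
      intro t
      have h2 := compare_en hs hω hβ K1 hF (fun i => x i + t • w i)
      rw [en_add hs x a (fun i => t • w i), en_smul] at h2
      have h3 : ∑ z, inner ℝ (ell ω β x a z) (t • w z) =
          t * ∑ z, inner ℝ (ell ω β x a z) (w z) := by
        rw [Finset.mul_sum]
        exact Finset.sum_congr rfl fun z _ => real_inner_smul_right _ _ _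
      rw [h3] at h2
      nlinarith
    have h2 := discrim_le_zero h1
    rw [discrim] at h2
    nlinarith
  -- the interior energy
  obtain ⟨e, he⟩ : ∃ e, e = (1 / 2) * ∑ i, ∑ j, ω i j * ‖x i - x j‖ ^ 2 := ⟨_, rfl⟩
  have he0 : 0 ≤ e := by
    rw [he]
    exact mul_nonneg (by norm_num) (Finset.sum_nonneg fun i _ => Finset.sum_nonneg fun j _ =>
      mul_nonneg (hω i j) (by positivity))
  obtain ⟨i₀⟩ := (inferInstance : Nonempty ι)
  have hβsum : ∀ (w : ι → X), (∀ i, ‖w i‖ ≤ ρ) → ∑ i, ∑ y, β i y * ‖w i - 0‖ ^ 2 ≤ q * T := by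
    intro w hw
    refine le_trans ?_ hb
    rw [Finset.mul_sum]
    refine Finset.sum_le_sum fun i _ => ?_
    rw [Finset.mul_sum]
    refine Finset.sum_le_sum fun y _ => ?_
    rw [sub_zero, mul_comm]
    exact mul_le_mul_of_nonneg_right (pow_le_pow_left₀ (norm_nonneg _) (hw i) 2) (hβ i y)
  have heT : e ≤ (2 * ρ + q + 1) * T := by
    have h1 := hB (fun z => x z - x i₀)
    have h2 : e - ρ * T ≤ ∑ z, inner ℝ (ell ω β x a z) (x z - x i₀) := by
      rw [form_eq hs x a (fun z => x z - x i₀)]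
      have h3 : ∀ i j, ω i j * inner ℝ (x i - x j) (x i - x i₀ - (x j - x i₀)) =
          ω i j * ‖x i - x j‖ ^ 2 := by
        intro i j
        rw [sub_sub_sub_cancel_right, real_inner_self_eq_norm_sq]
      simp only [h3]
      rw [← he]
      have h4 : -(ρ * T) ≤ ∑ i, ∑ y, β i y * inner ℝ (x i - a y) (x i - x i₀) := by
        rw [hT, Finset.mul_sum, ← Finset.sum_neg_distrib]
        refine Finset.sum_le_sum fun i _ => ?_
        rw [Finset.mul_sum, ← Finset.sum_neg_distrib]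
        refine Finset.sum_le_sum fun y _ => ?_
        have h5 := abs_le.1 (abs_real_inner_le_norm (x i - a y) (x i - x i₀))
        have h6 : ‖x i - a y‖ * ‖x i - x i₀‖ ≤ ‖x i - a y‖ * ρ :=
          mul_le_mul_of_nonneg_left (hxρ i i₀) (norm_nonneg _)
        have h7 := hβ i y
        nlinarith [h5.1]
      linarith
    have h3 : en ω β (fun z => x z - x i₀) (fun _ : κ => (0 : X)) ≤ e + q * T := by
      rw [en]
      have h4 : ∀ i j, ω i j * ‖x i - x i₀ - (x j - x i₀)‖ ^ 2 = ω i j * ‖x i - x j‖ ^ 2 := by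
        intro i j
        rw [sub_sub_sub_cancel_right]
      simp only [h4]
      rw [← he]
      have := hβsum (fun z => x z - x i₀) (fun i => hxρ i i₀)
      linarith
    have h4 : (∑ z, inner ℝ (ell ω β x a z) (x z - x i₀)) ^ 2 ≤ T * (e + q * T) := by
      refine h1.trans ?_
      have h5 : s * T ≤ T := by nlinarith
      have h6 : 0 ≤ en ω β (fun z => x z - x i₀) (fun _ : κ => (0 : X)) := en_nonneg hω hβ _ _
      calc s * T * en ω β (fun z => x z - x i₀) (fun _ => 0)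
          ≤ T * en ω β (fun z => x z - x i₀) (fun _ => 0) := mul_le_mul_of_nonneg_right h5 h6
        _ ≤ T * (e + q * T) := mul_le_mul_of_nonneg_left h3 hT0
    by_contra hcon
    push Not at hcon
    have h5 : 0 ≤ e - ρ * T := by nlinarith
    have h6 : (e - ρ * T) ^ 2 ≤ T * (e + q * T) :=
      (pow_le_pow_left₀ h5 h2 2).trans h4
    have h7 : (ρ + q + 1) * T < e - ρ * T := by linarith
    have h8 : (ρ + q + 1) * T * (e - ρ * T) < (e - ρ * T) ^ 2 := by
      have h9 : 0 < e - ρ * T := lt_of_le_of_lt (by positivity) h7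
      nlinarith
    have h10 : (ρ + q) * ((ρ + q + 1) * T) ≤ (ρ + q) * (e - ρ * T) :=
      mul_le_mul_of_nonneg_left h7.le (by positivity)
    have h11 : T * (e + q * T) ≤ (ρ + q + 1) * T * (e - ρ * T) := by
      have h12 : e + q * T ≤ (ρ + q + 1) * (e - ρ * T) := by
        have h13 : 0 ≤ (ρ + q) * (ρ + q) * T := by positivity
        nlinarith
      calc T * (e + q * T) ≤ T * ((ρ + q + 1) * (e - ρ * T)) :=
            mul_le_mul_of_nonneg_left h12 hT0
        _ = _ := by ring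
    linarith
  -- the exit kernel
  obtain ⟨K, hK0, hK1, hK2⟩ := exists_kernel ω hω (fun z => ∑ y, β z y)
    (fun z => Finset.sum_nonneg fun y _ => hβ z y)
  have hex := exit_ineq hs hβ hρ hδ hxρ hm K1 Sl1 Sl2 hK0 hK1 hK2
  rw [← hT] at hex
  obtain ⟨w, hw⟩ : ∃ w : ι → X, ∀ z, w z = ∑ i, K i z • (x z - x i) := ⟨_, fun z => rfl⟩
  simp only [← hw] at hex
  obtain ⟨X', hX'⟩ : ∃ X' : ι → X, ∀ z, X' z = ∑ i, K i z • (x i - x i₀) := ⟨_, fun z => rfl⟩
  have hwX : ∀ z, w z = (x z - x i₀) - X' z := by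
    intro z
    have h1 : x z - x i₀ = ∑ i, K i z • (x z - x i₀) := by
      rw [← Finset.sum_smul, hK1, one_smul]
    rw [hw, hX', h1, ← Finset.sum_sub_distrib]
    refine Finset.sum_congr rfl fun i _ => ?_
    rw [← smul_sub]
    congr 1
    abel
  have hnw : ∀ (f : ι → X) (z : ι), (∀ i, ‖f i‖ ≤ ρ) → ‖∑ i, K i z • f i‖ ≤ ρ := by
    intro f z hf
    refine (norm_sum_le _ _).trans ?_
    have : ∑ i, ‖K i z • f i‖ ≤ ∑ i, K i z * ρ := by
      refine Finset.sum_le_sum fun i _ => ?_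
      rw [norm_smul, Real.norm_eq_abs, abs_of_nonneg (hK0 i z)]
      exact mul_le_mul_of_nonneg_left (hf i) (hK0 i z)
    rwa [← Finset.sum_mul, hK1, one_mul] at this
  have hw' : ∀ z, ‖w z‖ ≤ ρ := fun z => by
    rw [hw]; exact hnw (fun i => x z - x i) z (fun i => hxρ z i)
  have hX'n : ∀ z, ‖X' z‖ ≤ ρ := fun z => by
    rw [hX']; exact hnw (fun i => x i - x i₀) z (fun i => hxρ i i₀)
  have hX'e : (1 / 2) * ∑ i, ∑ j, ω i j * ‖X' i - X' j‖ ^ 2 ≤ q * T := by
    have h1 := form_eq (ω := ω) (β := β) hs X' (fun _ => (0 : X)) X'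
    have h2 : ∀ z, ell ω β X' (fun _ => (0 : X)) z = (∑ y, β z y) • (x z - x i₀) := by
      intro z
      rw [ell]
      have h3 : ∑ y, β z y • (X' z - 0) = ∑ i, ((∑ y, β z y) * K i z) • (x i - x i₀) := by
        rw [sub_zero, ← Finset.sum_smul, hX', Finset.smul_sum]
        exact Finset.sum_congr rfl fun i _ => by rw [smul_smul]
      have h4 : ∑ j, ω z j • (X' z - X' j) =
          ∑ i, (∑ j, ω z j * (K i z - K i j)) • (x i - x i₀) := by
        have h5 : ∀ j, ω z j • (X' z - X' j) =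
            ∑ i, (ω z j * (K i z - K i j)) • (x i - x i₀) := by
          intro j
          rw [hX', hX', ← Finset.sum_sub_distrib, Finset.smul_sum]
          refine Finset.sum_congr rfl fun i _ => ?_
          rw [← sub_smul, smul_smul]
        simp only [h5]
        rw [Finset.sum_comm]
        refine Finset.sum_congr rfl fun i _ => ?_
        rw [Finset.sum_smul]
      rw [h3, h4, ← Finset.sum_add_distrib]
      have h6 : ∀ i, (∑ j, ω z j * (K i z - K i j)) • (x i - x i₀) +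
          ((∑ y, β z y) * K i z) • (x i - x i₀) =
          (if i = z then ∑ y, β z y else 0) • (x i - x i₀) := by
        intro i
        rw [← add_smul, hK2]
      simp only [h6, ite_smul, zero_smul, Finset.sum_ite_eq', Finset.mem_univ, if_true]
    have h3 : ∑ z, inner ℝ (ell ω β X' (fun _ => (0 : X)) z) (X' z) ≤ q * T := by
      refine le_trans ?_ hb
      rw [Finset.mul_sum]
      refine Finset.sum_le_sum fun z _ => ?_
      rw [h2, real_inner_smul_left, mul_comm]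
      refine mul_le_mul_of_nonneg_right ?_ (Finset.sum_nonneg fun y _ => hβ z y)
      refine (real_inner_le_norm _ _).trans ?_
      rw [sq]
      exact mul_le_mul (hxρ z i₀) (hX'n z) (norm_nonneg _) hρ
    rw [h1] at h3
    have h4 : 0 ≤ ∑ i, ∑ y, β i y * inner ℝ (X' i - 0) (X' i) := by
      refine Finset.sum_nonneg fun i _ => Finset.sum_nonneg fun y _ => mul_nonneg (hβ i y) ?_
      rw [sub_zero]
      exact real_inner_self_nonneg
    simp only [real_inner_self_eq_norm_sq] at h3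
    linarith
  have hwe : en ω β w (fun _ => 0) ≤ CC ρ δ * T := by
    rw [en]
    have h1 := hβsum w hw'
    have h2 : (1 / 2) * ∑ i, ∑ j, ω i j * ‖w i - w j‖ ^ 2 ≤
        2 * e + 2 * ((1 / 2) * ∑ i, ∑ j, ω i j * ‖X' i - X' j‖ ^ 2) := by
      have h3 : ∀ i j, ω i j * ‖w i - w j‖ ^ 2 ≤
          2 * (ω i j * ‖x i - x j‖ ^ 2) + 2 * (ω i j * ‖X' i - X' j‖ ^ 2) := by
        intro i j
        have h4 : w i - w j = (x i - x j) - (X' i - X' j) := by
          rw [hwX, hwX]; abel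
        have h5 : ‖w i - w j‖ ≤ ‖x i - x j‖ + ‖X' i - X' j‖ := by
          rw [h4]; exact norm_sub_le _ _
        have h6 : ‖w i - w j‖ ^ 2 ≤ 2 * ‖x i - x j‖ ^ 2 + 2 * ‖X' i - X' j‖ ^ 2 := by
          have := pow_le_pow_left₀ (norm_nonneg _) h5 2
          nlinarith [sq_nonneg (‖x i - x j‖ - ‖X' i - X' j‖)]
        have := mul_le_mul_of_nonneg_left h6 (hω i j)
        linarith
      have h4 : ∑ i, ∑ j, ω i j * ‖w i - w j‖ ^ 2 ≤
          2 * ∑ i, ∑ j, ω i j * ‖x i - x j‖ ^ 2 + 2 * ∑ i, ∑ j, ω i j * ‖X' i - X' j‖ ^ 2 := by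
        rw [Finset.mul_sum, Finset.mul_sum, ← Finset.sum_add_distrib]
        refine Finset.sum_le_sum fun i _ => ?_
        rw [Finset.mul_sum, Finset.mul_sum, ← Finset.sum_add_distrib]
        exact Finset.sum_le_sum fun j _ => h3 i j
      rw [he]
      linarith
    have h3 : CC ρ δ * T = 2 * ((2 * ρ + q + 1) * T) + 2 * (q * T) + q * T := by
      rw [CC, hq]; ring
    rw [h3]
    linarith
  have h1 := hB w
  have h2 : (∑ z, inner ℝ (ell ω β x a z) (w z)) ^ 2 ≤ s * CC ρ δ * T ^ 2 := by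
    refine h1.trans ?_
    calc s * T * en ω β w (fun _ => 0) ≤ s * T * (CC ρ δ * T) :=
          mul_le_mul_of_nonneg_left hwe (by positivity)
      _ = _ := by ring
  obtain ⟨k, hk⟩ : ∃ k, k = δ ^ 2 / (ρ + δ) := ⟨_, rfl⟩
  rw [← hk] at hex hsκ hsC
  have hk0 : 0 < k := by rw [hk]; positivity
  have h3 : k / 4 * T ≤ - ∑ z, inner ℝ (ell ω β x a z) (w z) := by nlinarith
  have h4 : (k / 4 * T) ^ 2 ≤ (∑ z, inner ℝ (ell ω β x a z) (w z)) ^ 2 := by
    have h5 : 0 ≤ k / 4 * T := by positivity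
    nlinarith
  have h5 : s * CC ρ δ * T ^ 2 < k ^ 2 / 16 * T ^ 2 := mul_lt_mul_of_pos_right hsC (by positivity)
  nlinarith

end

end Pool.Agent.W2helper13.Am
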