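import Mathlib
import Pool.Agent.W2helper13.Am.Stress2

/-!
# Simultaneous slack: finite version
-/

set_option autoImplicit false

namespace Pool.Agent.W2helper13.Am

open Set Filter Topology

universe u v w

lemma max_sq_le (u v : ℝ) :
    (max v 0) ^ 2 ≤ (max u 0) ^ 2 + 2 * max u 0 * (v - u) + (v - u) ^ 2 := by
  rcases le_total u 0 with hu | hu <;> rcases le_total v 0 with hv | hv
  · rw [max_eq_right hu, max_eq_right hv]; nlinarith [sq_nonneg (v - u)]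
  · rw [max_eq_right hu, max_eq_left hv]; nlinarith
  · rw [max_eq_left hu, max_eq_right hv]; nlinarith [sq_nonneg v]
  · rw [max_eq_left hu, max_eq_left hv]; nlinarith

lemma lin_zero {A M : ℝ} (h : ∀ t : ℝ, |t| ≤ 1 → 0 ≤ t * A + t ^ 2 * M) : A = 0 := by
  by_contra hA
  have hM : 0 < |M| + |A| + 1 := by positivity
  have hApos : 0 < |A| := abs_pos.2 hA
  obtain ⟨t, ht⟩ : ∃ t, t = |A| / (|M| + |A| + 1) := ⟨_, rfl⟩
  have ht0 : 0 < t := by rw [ht]; positivity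
  have ht1 : t ≤ 1 := by
    rw [ht, div_le_one hM]
    linarith [abs_nonneg M]
  have ht2 : t * (|M| + |A| + 1) = |A| := by rw [ht]; field_simp
  have h1 := h t (by rw [abs_of_pos ht0]; exact ht1)
  have h2 := h (-t) (by rw [abs_neg, abs_of_pos ht0]; exact ht1)
  have h3 : t * |A| ≤ t ^ 2 * M := by
    rcases abs_cases A with ⟨h4, -⟩ | ⟨h4, -⟩
    · rw [h4]; nlinarith
    · rw [h4]; nlinarith
  have h4 : t * |A| ≤ t * (t * |M|) := by
    have h5 : t ^ 2 * M ≤ t ^ 2 * |M| := mul_le_mul_of_nonneg_left (le_abs_self M) (by positivity)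
    nlinarith
  have h5 : |A| ≤ t * |M| := le_of_mul_le_mul_left h4 ht0
  nlinarith [abs_nonneg M]

section

variable {H : Type*} [NormedAddCommGroup H] [InnerProductSpace ℝ H]

/-- First order condition for the quadratic penalty. -/
lemma penalty_foc {P : Type*} [Fintype P] (m : P → ℝ) (hm : ∀ p, 0 ≤ m p) (d w : P → H)
    (r : P → ℝ)
    (h : ∀ t : ℝ, ∑ p, m p * (max (‖d p‖ ^ 2 - r p) 0) ^ 2 ≤
      ∑ p, m p * (max (‖d p + t • w p‖ ^ 2 - r p) 0) ^ 2) :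
    ∑ p, m p * (max (‖d p‖ ^ 2 - r p) 0 * inner ℝ (d p) (w p)) = 0 := by
  have key : ∀ t : ℝ, |t| ≤ 1 → 0 ≤ t * (4 * ∑ p, m p * (max (‖d p‖ ^ 2 - r p) 0 *
      inner ℝ (d p) (w p))) + t ^ 2 * ∑ p, m p * (2 * max (‖d p‖ ^ 2 - r p) 0 * ‖w p‖ ^ 2 +
        (2 * |inner ℝ (d p) (w p)| + ‖w p‖ ^ 2) ^ 2) := by
    intro t ht
    have h1 : ∀ p, (max (‖d p + t • w p‖ ^ 2 - r p) 0) ^ 2 ≤ (max (‖d p‖ ^ 2 - r p) 0) ^ 2 +
        (4 * t * (max (‖d p‖ ^ 2 - r p) 0 * inner ℝ (d p) (w p)) +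
        t ^ 2 * (2 * max (‖d p‖ ^ 2 - r p) 0 * ‖w p‖ ^ 2 +
          (2 * |inner ℝ (d p) (w p)| + ‖w p‖ ^ 2) ^ 2)) := by
      intro p
      have h2 := max_sq_le (‖d p‖ ^ 2 - r p) (‖d p + t • w p‖ ^ 2 - r p)
      have h3 : ‖d p + t • w p‖ ^ 2 - r p - (‖d p‖ ^ 2 - r p) =
          t * (2 * inner ℝ (d p) (w p) + t * ‖w p‖ ^ 2) := by
        rw [norm_add_sq_real, real_inner_smul_right, norm_smul, mul_pow, Real.norm_eq_abs, sq_abs]
        ring
      rw [h3] at h2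
      have h4 : |2 * inner ℝ (d p) (w p) + t * ‖w p‖ ^ 2| ≤
          2 * |inner ℝ (d p) (w p)| + ‖w p‖ ^ 2 := by
        refine (abs_add_le _ _).trans ?_
        rw [abs_mul, abs_mul, abs_of_pos (by norm_num : (0 : ℝ) < 2),
          abs_of_nonneg (by positivity : (0 : ℝ) ≤ ‖w p‖ ^ 2)]
        have : |t| * ‖w p‖ ^ 2 ≤ 1 * ‖w p‖ ^ 2 := mul_le_mul_of_nonneg_right ht (by positivity)
        linarith
      have h5 : (2 * inner ℝ (d p) (w p) + t * ‖w p‖ ^ 2) ^ 2 ≤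
          (2 * |inner ℝ (d p) (w p)| + ‖w p‖ ^ 2) ^ 2 := sq_le_sq' (by linarith [(abs_le.1 h4).1])
        (abs_le.1 h4).2
      have h6 : t ^ 2 * (2 * inner ℝ (d p) (w p) + t * ‖w p‖ ^ 2) ^ 2 ≤
          t ^ 2 * (2 * |inner ℝ (d p) (w p)| + ‖w p‖ ^ 2) ^ 2 :=
        mul_le_mul_of_nonneg_left h5 (by positivity)
      have e1 : (t * (2 * inner ℝ (d p) (w p) + t * ‖w p‖ ^ 2)) ^ 2 =
        t ^ 2 * (2 * inner ℝ (d p) (w p) + t * ‖w p‖ ^ 2) ^ 2 := by ring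
      rw [e1] at h2
      nlinarith
    have h2 := h t
    have h3 : ∑ p, m p * (max (‖d p + t • w p‖ ^ 2 - r p) 0) ^ 2 ≤
        ∑ p, m p * (max (‖d p‖ ^ 2 - r p) 0) ^ 2 +
        (t * (4 * ∑ p, m p * (max (‖d p‖ ^ 2 - r p) 0 * inner ℝ (d p) (w p))) +
        t ^ 2 * ∑ p, m p * (2 * max (‖d p‖ ^ 2 - r p) 0 * ‖w p‖ ^ 2 +
          (2 * |inner ℝ (d p) (w p)| + ‖w p‖ ^ 2) ^ 2)) := by
      rw [← mul_assoc, Finset.mul_sum, Finset.mul_sum, ← Finset.sum_add_distrib,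
        ← Finset.sum_add_distrib]
      refine Finset.sum_le_sum fun p _ => ?_
      have := mul_le_mul_of_nonneg_left (h1 p) (hm p)
      linarith
    linarith
  have := lin_zero key
  linarith

end

end Pool.Agent.W2helper13.Am
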