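import Mathlib
import Pool.Agent.W2helper13.Am.Fin

/-!
# Simultaneous slack: finite version, II
-/

set_option autoImplicit false

namespace Pool.Agent.W2helper13.Am

open Set Filter Topology

universe u v w

section

variable {X : Type*} [NormedAddCommGroup X] [InnerProductSpace ℝ X]
  {H : Type*} [NormedAddCommGroup H] [InnerProductSpace ℝ H]

theorem fin_slack_fd [FiniteDimensional ℝ H] {ι κ : Type*} [Fintype ι] [Fintype κ] [Nonempty κ]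
    {x : ι → X} {a : κ → X} {F : κ → H} {cs : ι → H} {ρ δ s : ℝ}
    (hρ : 0 ≤ ρ) (hδ : 0 < δ) (hs0 : 0 < s) (hs1 : s ≤ 1) (hsκ : s ≤ δ ^ 2 / (ρ + δ) / 2)
    (hsC : s * CC ρ δ < (δ ^ 2 / (ρ + δ)) ^ 2 / 16)
    (hxρ : ∀ i j, ‖x i - x j‖ ≤ ρ)
    (hF : ∀ y y', ‖F y - F y'‖ ≤ ‖a y - a y'‖)
    (hm : ∀ i y, ‖F y - cs i‖ ≤ ‖x i - a y‖ - δ) :
    ∃ c : ι → H, (∀ i j, ‖c i - c j‖ ≤ ‖x i - x j‖) ∧
      ∀ i y, ‖c i - F y‖ ^ 2 ≤ ‖x i - a y‖ ^ 2 - s * ‖x i - a y‖ := by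
  classical
  rcases isEmpty_or_nonempty ι with hι | hι
  · exact ⟨fun _ => 0, fun i => (hι.false i).elim, fun i => (hι.false i).elim⟩
  have : CompleteSpace H := FiniteDimensional.complete ℝ H
  have : ProperSpace H := FiniteDimensional.proper_real H
  obtain ⟨Ψ, hΨ⟩ : ∃ Ψ : (ι → H) → ℝ, ∀ c, Ψ c =
      ∑ i, ∑ j, (max (‖c i - c j‖ ^ 2 - ‖x i - x j‖ ^ 2) 0) ^ 2 +
      ∑ i, ∑ y, 2 * (max (‖c i - F y‖ ^ 2 - (‖x i - a y‖ ^ 2 - s * ‖x i - a y‖)) 0) ^ 2 :=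
    ⟨_, fun c => rfl⟩
  have hΨc : Continuous Ψ := by
    have : Ψ = fun c => ∑ i, ∑ j, (max (‖c i - c j‖ ^ 2 - ‖x i - x j‖ ^ 2) 0) ^ 2 +
      ∑ i, ∑ y, 2 * (max (‖c i - F y‖ ^ 2 - (‖x i - a y‖ ^ 2 - s * ‖x i - a y‖)) 0) ^ 2 :=
      funext hΨ
    rw [this]
    fun_prop
  -- coercivity
  obtain ⟨y₀⟩ := (inferInstance : Nonempty κ)
  have hco : ∃ R : ℝ, ∀ c, Ψ c ≤ Ψ (fun _ => F y₀) → ‖c‖ ≤ R := by
    obtain ⟨M, hM⟩ : ∃ M, M = Ψ (fun _ => F y₀) := ⟨_, rfl⟩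
    obtain ⟨D, hD⟩ : ∃ D, D = ∑ i, ‖x i - a y₀‖ ^ 2 := ⟨_, rfl⟩
    refine ⟨Real.sqrt (M + 1 + D) + ‖F y₀‖, fun c hc => ?_⟩
    rw [← hM] at hc
    rw [pi_norm_le_iff_of_nonneg (by positivity)]
    intro i
    have h1 : 2 * (max (‖c i - F y₀‖ ^ 2 - (‖x i - a y₀‖ ^ 2 - s * ‖x i - a y₀‖)) 0) ^ 2 ≤ M := by
      refine le_trans ?_ hc
      rw [hΨ]
      have h2 : 0 ≤ ∑ i, ∑ j, (max (‖c i - c j‖ ^ 2 - ‖x i - x j‖ ^ 2) 0) ^ 2 :=
        Finset.sum_nonneg fun i _ => Finset.sum_nonneg fun j _ => by positivity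
      have h3 : ∑ y, 2 * (max (‖c i - F y‖ ^ 2 - (‖x i - a y‖ ^ 2 - s * ‖x i - a y‖)) 0) ^ 2 ≤
          ∑ i, ∑ y, 2 * (max (‖c i - F y‖ ^ 2 - (‖x i - a y‖ ^ 2 - s * ‖x i - a y‖)) 0) ^ 2 :=
        Finset.single_le_sum (f := fun i => ∑ y, 2 * (max (‖c i - F y‖ ^ 2 -
          (‖x i - a y‖ ^ 2 - s * ‖x i - a y‖)) 0) ^ 2)
          (fun i _ => Finset.sum_nonneg fun y _ => by positivity) (Finset.mem_univ i)
      have h4 : 2 * (max (‖c i - F y₀‖ ^ 2 - (‖x i - a y₀‖ ^ 2 - s * ‖x i - a y₀‖)) 0) ^ 2 ≤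
          ∑ y, 2 * (max (‖c i - F y‖ ^ 2 - (‖x i - a y‖ ^ 2 - s * ‖x i - a y‖)) 0) ^ 2 :=
        Finset.single_le_sum (f := fun y => 2 * (max (‖c i - F y‖ ^ 2 -
          (‖x i - a y‖ ^ 2 - s * ‖x i - a y‖)) 0) ^ 2) (fun y _ => by positivity)
          (Finset.mem_univ y₀)
      linarith
    obtain ⟨v, hv⟩ : ∃ v, v = max (‖c i - F y₀‖ ^ 2 - (‖x i - a y₀‖ ^ 2 - s * ‖x i - a y₀‖)) 0 :=
      ⟨_, rfl⟩
    rw [← hv] at h1
    have h5 : ‖c i - F y₀‖ ^ 2 - (‖x i - a y₀‖ ^ 2 - s * ‖x i - a y₀‖) ≤ v := by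
      rw [hv]; exact le_max_left _ _
    have h6 : v ≤ M + 1 := by nlinarith [sq_nonneg (v - 1)]
    have h7 : ‖x i - a y₀‖ ^ 2 ≤ D := by
      rw [hD]
      exact Finset.single_le_sum (f := fun i => ‖x i - a y₀‖ ^ 2) (fun i _ => by positivity)
        (Finset.mem_univ i)
    have h8 : 0 ≤ s * ‖x i - a y₀‖ := by positivity
    have h9 : ‖c i - F y₀‖ ≤ Real.sqrt (M + 1 + D) := by
      apply Real.le_sqrt_of_sq_le
      linarith
    have h10 : ‖c i‖ ≤ ‖c i - F y₀‖ + ‖F y₀‖ := by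
      have : c i = (c i - F y₀) + F y₀ := by abel
      conv_lhs => rw [this]
      exact norm_add_le _ _
    linarith
  obtain ⟨R, hR⟩ := hco
  obtain ⟨c, hcB, hcmin⟩ := (isCompact_closedBall (0 : ι → H) (max R ‖(fun _ : ι => F y₀)‖)).exists_isMinOn
    ⟨fun _ => F y₀, by rw [mem_closedBall_zero_iff]; exact le_max_right _ _⟩ hΨc.continuousOn
  have hmin : ∀ c', Ψ c ≤ Ψ c' := by
    intro c'
    by_cases h : Ψ c' ≤ Ψ (fun _ => F y₀)
    · exact hcmin (by rw [mem_closedBall_zero_iff]; exact (hR c' h).trans (le_max_left _ _))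
    · push Not at h
      have h1 : Ψ c ≤ Ψ (fun _ => F y₀) :=
        hcmin (by rw [mem_closedBall_zero_iff]; exact le_max_right _ _)
      linarith
  -- multipliers
  obtain ⟨ω, hω⟩ : ∃ ω : ι → ι → ℝ, ∀ i j, ω i j = max (‖c i - c j‖ ^ 2 - ‖x i - x j‖ ^ 2) 0 :=
    ⟨_, fun i j => rfl⟩
  obtain ⟨β, hβ⟩ : ∃ β : ι → κ → ℝ, ∀ i y, β i y =
      max (‖c i - F y‖ ^ 2 - (‖x i - a y‖ ^ 2 - s * ‖x i - a y‖)) 0 := ⟨_, fun i j => rfl⟩
  have hω0 : ∀ i j, 0 ≤ ω i j := fun i j => by rw [hω]; exact le_max_right _ _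
  have hβ0 : ∀ i y, 0 ≤ β i y := fun i y => by rw [hβ]; exact le_max_right _ _
  have hsym : ∀ i j, ω i j = ω j i := fun i j => by
    rw [hω, hω, norm_sub_rev (c i), norm_sub_rev (x i)]
  have hfoc : ∀ w : ι → H, ∑ z, inner ℝ (ell ω β c F z) (w z) = 0 := by
    intro w
    have h1 := penalty_foc (P := (ι × ι) ⊕ (ι × κ))
      (Sum.elim (fun _ => (1 : ℝ)) (fun _ => (2 : ℝ)))
      (by rintro (p | p) <;> simp)
      (Sum.elim (fun p => c p.1 - c p.2) (fun p => c p.1 - F p.2))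
      (Sum.elim (fun p => w p.1 - w p.2) (fun p => w p.1))
      (Sum.elim (fun p => ‖x p.1 - x p.2‖ ^ 2)
        (fun p => ‖x p.1 - a p.2‖ ^ 2 - s * ‖x p.1 - a p.2‖))
      (by
        intro t
        have h2 := hmin (fun i => c i + t • w i)
        rw [hΨ, hΨ] at h2
        have e1 : ∀ i j, c i + t • w i - (c j + t • w j) = c i - c j + t • (w i - w j) := by
          intro i j; rw [smul_sub]; abel
        have e2 : ∀ i y, c i + t • w i - F y = c i - F y + t • w i := by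
          intro i y; abel
        simp only [e1, e2] at h2
        simp only [Fintype.sum_sum_type, Sum.elim_inl, Sum.elim_inr, Fintype.sum_prod_type, one_mul]
        exact h2)
    simp only [Fintype.sum_sum_type, Sum.elim_inl, Sum.elim_inr, Fintype.sum_prod_type,
      one_mul] at h1
    simp only [← hω, ← hβ] at h1
    rw [form_eq hsym]
    have h3 : ∑ i, ∑ y, 2 * (β i y * inner ℝ (c i - F y) (w i)) =
        2 * ∑ i, ∑ y, β i y * inner ℝ (c i - F y) (w i) := by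
      rw [Finset.mul_sum]
      exact Finset.sum_congr rfl fun i _ => by rw [Finset.mul_sum]
    rw [h3] at h1
    linarith
  have K1 : ∀ z, ell ω β c F z = 0 := by
    intro z
    have h1 := hfoc (fun z => ell ω β c F z)
    simp only [real_inner_self_eq_norm_sq] at h1
    have h2 := (Finset.sum_eq_zero_iff_of_nonneg (fun i _ => by positivity)).1 h1 z
      (Finset.mem_univ z)
    exact norm_eq_zero.1 (pow_eq_zero_iff (by norm_num) |>.1 h2)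
  have Sl1 : ∀ i j, ω i j * (‖x i - x j‖ ^ 2 - ‖c i - c j‖ ^ 2) ≤ 0 := by
    intro i j
    rw [hω]
    rcases le_total (‖c i - c j‖ ^ 2 - ‖x i - x j‖ ^ 2) 0 with h | h
    · rw [max_eq_right h, zero_mul]
    · rw [max_eq_left h]; nlinarith
  have Sl2 : ∀ i y, β i y * (‖x i - a y‖ ^ 2 - ‖c i - F y‖ ^ 2) ≤ s * (β i y * ‖x i - a y‖) := by
    intro i y
    rw [hβ]
    rcases le_total (‖c i - F y‖ ^ 2 - (‖x i - a y‖ ^ 2 - s * ‖x i - a y‖)) 0 with h | h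
    · rw [max_eq_right h, zero_mul, zero_mul, mul_zero]
    · rw [max_eq_left h]; nlinarith
  have hβz := stress_zero hsym hω0 hβ0 hρ hδ hs0 hs1 hsκ hsC hxρ hF hm K1 Sl1 Sl2
  have hωz : ∀ i j, ω i j * ‖c i - c j‖ ^ 2 = 0 := by
    have h1 := hfoc c
    rw [form_eq hsym] at h1
    have h2 : ∑ i, ∑ y, β i y * inner ℝ (c i - F y) (c i) = 0 :=
      Finset.sum_eq_zero fun i _ => Finset.sum_eq_zero fun y _ => by rw [hβz, zero_mul]
    rw [h2, add_zero] at h1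
    simp only [real_inner_self_eq_norm_sq] at h1
    have h3 : ∑ i, ∑ j, ω i j * ‖c i - c j‖ ^ 2 = 0 := by linarith
    have hnn : ∀ i j, 0 ≤ ω i j * ‖c i - c j‖ ^ 2 := fun i j =>
      mul_nonneg (hω0 i j) (by positivity)
    intro i j
    have h4 := (Finset.sum_eq_zero_iff_of_nonneg (fun i _ => Finset.sum_nonneg fun j _ =>
      hnn i j)).1 h3 i (Finset.mem_univ i)
    exact (Finset.sum_eq_zero_iff_of_nonneg (fun j _ => hnn i j)).1 h4 j (Finset.mem_univ j)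
  refine ⟨c, fun i j => ?_, fun i y => ?_⟩
  · have h1 : ‖c i - c j‖ ^ 2 - ‖x i - x j‖ ^ 2 ≤ 0 := by
      rcases mul_eq_zero.1 (hωz i j) with h2 | h2
      · rw [hω] at h2
        rw [← h2]; exact le_max_left _ _
      · rw [h2]
        linarith [sq_nonneg ‖x i - x j‖]
    exact le_of_sq_le_sq (by linarith) (norm_nonneg _)
  · have h1 := hβz i y
    rw [hβ] at h1
    have h2 := le_max_left (‖c i - F y‖ ^ 2 - (‖x i - a y‖ ^ 2 - s * ‖x i - a y‖)) 0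
    linarith

/-- The finite version for arbitrary targets. -/
theorem fin_slack [CompleteSpace H] {ι κ : Type*} [Fintype ι] [Fintype κ] [Nonempty κ]
    {x : ι → X} {a : κ → X} {F : κ → H} {cs : ι → H} {ρ δ s : ℝ}
    (hρ : 0 ≤ ρ) (hδ : 0 < δ) (hs0 : 0 < s) (hs1 : s ≤ 1) (hsκ : s ≤ δ ^ 2 / (ρ + δ) / 2)
    (hsC : s * CC ρ δ < (δ ^ 2 / (ρ + δ)) ^ 2 / 16)
    (hxρ : ∀ i j, ‖x i - x j‖ ≤ ρ)
    (hF : ∀ y y', ‖F y - F y'‖ ≤ ‖a y - a y'‖)
    (hm : ∀ i y, ‖F y - cs i‖ ≤ ‖x i - a y‖ - δ) :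
    ∃ c : ι → H, (∀ i j, ‖c i - c j‖ ≤ ‖x i - x j‖) ∧
      ∀ i y, ‖c i - F y‖ ^ 2 ≤ ‖x i - a y‖ ^ 2 - s * ‖x i - a y‖ := by
  classical
  set W : Submodule ℝ H := Submodule.span ℝ (range F) with hW
  have hWfd : FiniteDimensional ℝ W := FiniteDimensional.span_of_finite ℝ (finite_range F)
  have : CompleteSpace W := FiniteDimensional.complete ℝ W
  have hFW : ∀ y, F y ∈ W := fun y => Submodule.subset_span ⟨y, rfl⟩
  obtain ⟨c, h1, h2⟩ := fin_slack_fd (H := W) (x := x) (a := a) (F := fun y => ⟨F y, hFW y⟩)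
    (cs := fun i => W.orthogonalProjectionOnto (cs i)) hρ hδ hs0 hs1 hsκ hsC hxρ (by
      intro y y'
      exact hF y y') (by
      intro i y
      refine le_trans ?_ (hm i y)
      have e1 : (⟨F y, hFW y⟩ : W) - W.orthogonalProjectionOnto (cs i) =
          W.orthogonalProjectionOnto (F y - cs i) := by
        rw [map_sub]
        congr 1
        exact (W.orthogonalProjectionOnto_mem_subspace_eq_self ⟨F y, hFW y⟩).symm
      rw [e1]
      exact W.norm_orthogonalProjectionOnto_apply_le _)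
  exact ⟨fun i => (c i : H), h1, h2⟩

end

end Pool.Agent.W2helper13.Am
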