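import Mathlib
import Pool.Agent.W2helper13.Am.Fin2
import Pool.Agent.W2helper13.Am.Step

/-!
# Simultaneous slack on bounded sets of uniformly nonrigid points
-/

set_option autoImplicit false

namespace Pool.Agent.W2helper13.Am

open Set Filter Topology

universe u v w

section weak

variable {H : Type*} [NormedAddCommGroup H] [InnerProductSpace ℝ H]

lemma weak_lim [CompleteSpace H] {α : Type*} (𝒰 : Ultrafilter α) (u : α → H) {R : ℝ}
    (hu : ∀ᶠ a in (𝒰 : Filter α), ‖u a‖ ≤ R) :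
    ∃ g : H, ∀ h : H, Tendsto (fun a => (inner ℝ (u a) h : ℝ)) 𝒰 (𝓝 (inner ℝ g h)) := by
  have hex : ∀ h : H, ∃ r : ℝ, Tendsto (fun a => (inner ℝ (u a) h : ℝ)) 𝒰 (𝓝 r) := by
    intro h
    obtain ⟨r, -, hr⟩ := (isCompact_Icc (a := -(R * ‖h‖)) (b := R * ‖h‖)).ultrafilter_le_nhds
      (𝒰.map fun a => (inner ℝ (u a) h : ℝ)) (by
        rw [le_principal_iff, Ultrafilter.mem_coe, Ultrafilter.mem_map]
        filter_upwards [hu] with a ha
        have h1 := abs_le.1 (abs_real_inner_le_norm (u a) h)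
        have h2 : ‖u a‖ * ‖h‖ ≤ R * ‖h‖ := mul_le_mul_of_nonneg_right ha (norm_nonneg _)
        exact ⟨by linarith [h1.1], by linarith [h1.2]⟩)
    exact ⟨r, hr⟩
  choose φ hφ using hex
  have hbound : ∀ h, |φ h| ≤ R * ‖h‖ := by
    intro h
    refine le_of_tendsto (hφ h).abs ?_
    filter_upwards [hu] with a ha
    exact (abs_real_inner_le_norm _ _).trans (mul_le_mul_of_nonneg_right ha (norm_nonneg _))
  let L : H →ₗ[ℝ] ℝ :=
    { toFun := φ
      map_add' := fun x y => by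
        refine tendsto_nhds_unique (hφ (x + y)) ?_
        refine ((hφ x).add (hφ y)).congr fun a => ?_
        rw [inner_add_right]
      map_smul' := fun r x => by
        refine tendsto_nhds_unique (hφ (r • x)) ?_
        simp only [RingHom.id_apply, smul_eq_mul]
        refine ((hφ x).const_mul r).congr fun a => ?_
        rw [real_inner_smul_right] }
  let L' : H →L[ℝ] ℝ := L.mkContinuous R (fun x => hbound x)
  refine ⟨(InnerProductSpace.toDual ℝ H).symm L', fun h => ?_⟩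
  rw [InnerProductSpace.toDual_symm_apply]
  exact hφ h

lemma weak_norm_le {α : Type*} {l : Filter α} [l.NeBot] {v : α → H} {G : H} {r : ℝ}
    (hv : ∀ h : H, Tendsto (fun a => (inner ℝ (v a) h : ℝ)) l (𝓝 (inner ℝ G h)))
    (hr : ∀ᶠ a in l, ‖v a‖ ≤ r) : ‖G‖ ≤ r := by
  have h1 : ‖G‖ ^ 2 ≤ r * ‖G‖ := by
    rw [← real_inner_self_eq_norm_sq]
    refine le_of_tendsto (hv G) ?_
    filter_upwards [hr] with a ha
    exact (real_inner_le_norm _ _).trans (mul_le_mul_of_nonneg_right ha (norm_nonneg _))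
  have hr0 : 0 ≤ r := by
    obtain ⟨a, ha⟩ := hr.exists
    exact (norm_nonneg _).trans ha
  by_contra hlt
  push Not at hlt
  nlinarith [norm_nonneg G]

end weak

section

variable {X : Type*} [NormedAddCommGroup X] [InnerProductSpace ℝ X]
  {H : Type*} [NormedAddCommGroup H] [InnerProductSpace ℝ H] [CompleteSpace H]

/-- The infinite version. -/
theorem inf_slack {A P : Set X} {y₀ : X} (hy₀ : y₀ ∈ A) {F : X → H} {ρ δ s : ℝ}
    (hρ : 0 ≤ ρ) (hδ : 0 < δ) (hs0 : 0 < s) (hs1 : s ≤ 1) (hsκ : s ≤ δ ^ 2 / (ρ + δ) / 2)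
    (hsC : s * CC ρ δ < (δ ^ 2 / (ρ + δ)) ^ 2 / 16)
    (hPρ : ∀ x ∈ P, ∀ x' ∈ P, ‖x - x'‖ ≤ ρ)
    (hF : ∀ y ∈ A, ∀ y' ∈ A, ‖F y - F y'‖ ≤ ‖y - y'‖)
    (hm : ∀ x ∈ P, ∃ c, ∀ y ∈ A, ‖F y - c‖ ≤ ‖x - y‖ - δ) :
    ∃ g : X → H, (∀ x ∈ P, ∀ x' ∈ P, ‖g x - g x'‖ ≤ ‖x - x'‖) ∧
      ∀ x ∈ P, ∀ y ∈ A, ‖g x - F y‖ ^ 2 ≤ ‖x - y‖ ^ 2 - s * ‖x - y‖ := by
  classical
  choose! cs hcs using hm
  have hfin : ∀ q : Finset P × Finset A, ∃ c : P → H,
      (∀ x ∈ q.1, ∀ x' ∈ q.1, ‖c x - c x'‖ ≤ ‖(x : X) - x'‖) ∧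
      ∀ x ∈ q.1, ∀ y ∈ insert ⟨y₀, hy₀⟩ q.2,
        ‖c x - F y‖ ^ 2 ≤ ‖(x : X) - y‖ ^ 2 - s * ‖(x : X) - y‖ := by
    intro q
    have : Nonempty {y // y ∈ insert (⟨y₀, hy₀⟩ : A) q.2} :=
      ⟨⟨⟨y₀, hy₀⟩, Finset.mem_insert_self _ _⟩⟩
    obtain ⟨c, h1, h2⟩ := fin_slack (ι := {x // x ∈ q.1})
      (κ := {y // y ∈ insert (⟨y₀, hy₀⟩ : A) q.2}) (x := fun x => ((x : P) : X))
      (a := fun y => ((y : A) : X)) (F := fun y => F ((y : A) : X))
      (cs := fun x => cs ((x : P) : X)) hρ hδ hs0 hs1 hsκ hsC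
      (fun i j => hPρ _ i.1.2 _ j.1.2) (fun y y' => hF _ y.1.2 _ y'.1.2)
      (fun i y => hcs _ i.1.2 _ y.1.2)
    refine ⟨fun x => if h : x ∈ q.1 then c ⟨x, h⟩ else 0, fun x hx x' hx' => ?_,
      fun x hx y hy => ?_⟩
    · simp only [dif_pos hx, dif_pos hx']
      exact h1 ⟨x, hx⟩ ⟨x', hx'⟩
    · simp only [dif_pos hx]
      exact h2 ⟨x, hx⟩ ⟨y, hy⟩
  choose c hc1 hc2 using hfin
  let 𝒰 : Ultrafilter (Finset P × Finset A) := Ultrafilter.of atTop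
  have h𝒰 : (𝒰 : Filter (Finset P × Finset A)) ≤ atTop := Ultrafilter.of_le atTop
  have hx𝒰 : ∀ x : P, ∀ᶠ q in (𝒰 : Filter (Finset P × Finset A)), x ∈ q.1 := by
    intro x
    refine h𝒰 (mem_of_superset (mem_atTop ({x}, ∅)) ?_)
    intro q hq
    exact hq.1 (Finset.mem_singleton_self x)
  have hy𝒰 : ∀ y : A, ∀ᶠ q in (𝒰 : Filter (Finset P × Finset A)), y ∈ q.2 := by
    intro y
    refine h𝒰 (mem_of_superset (mem_atTop (∅, {y})) ?_)
    intro q hq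
    exact hq.2 (Finset.mem_singleton_self y)
  have hbd : ∀ x : P, ∀ᶠ q in (𝒰 : Filter (Finset P × Finset A)),
      ‖c q x‖ ≤ ‖(x : X) - y₀‖ + ‖F y₀‖ := by
    intro x
    filter_upwards [hx𝒰 x] with q hq
    have h1 := hc2 q x hq ⟨y₀, hy₀⟩ (Finset.mem_insert_self _ _)
    simp only at h1
    have h2 : 0 ≤ s * ‖(x : X) - y₀‖ := by positivity
    have h3 : ‖c q x - F y₀‖ ≤ ‖(x : X) - y₀‖ :=
      le_of_sq_le_sq (by linarith) (norm_nonneg _)
    have h4 : c q x = (c q x - F y₀) + F y₀ := by abel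
    rw [h4]
    exact (norm_add_le _ _).trans (by linarith)
  choose G hG using fun x : P => weak_lim 𝒰 (fun q => c q x) (hbd x)
  refine ⟨fun x => if h : x ∈ P then G ⟨x, h⟩ else 0, fun x hx x' hx' => ?_,
    fun x hx y hy => ?_⟩
  · simp only [dif_pos hx, dif_pos hx']
    refine weak_norm_le (l := (𝒰 : Filter (Finset P × Finset A)))
      (v := fun q => c q ⟨x, hx⟩ - c q ⟨x', hx'⟩) (fun h => ?_) ?_
    · simp only [inner_sub_left]
      exact (hG ⟨x, hx⟩ h).sub (hG ⟨x', hx'⟩ h)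
    · filter_upwards [hx𝒰 ⟨x, hx⟩, hx𝒰 ⟨x', hx'⟩] with q h1 h2
      exact hc1 q _ h1 _ h2
  · simp only [dif_pos hx]
    have h0 : ∀ᶠ q in (𝒰 : Filter (Finset P × Finset A)),
        ‖c q ⟨x, hx⟩ - F y‖ ^ 2 ≤ ‖x - y‖ ^ 2 - s * ‖x - y‖ := by
      filter_upwards [hx𝒰 ⟨x, hx⟩, hy𝒰 ⟨y, hy⟩] with q h1 h2
      exact hc2 q _ h1 ⟨y, hy⟩ (Finset.mem_insert_of_mem h2)
    have hnn : 0 ≤ ‖x - y‖ ^ 2 - s * ‖x - y‖ := by
      obtain ⟨q, hq⟩ := h0.exists
      exact (by positivity : (0 : ℝ) ≤ ‖c q ⟨x, hx⟩ - F y‖ ^ 2).trans hq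
    have h1 : ‖G ⟨x, hx⟩ - F y‖ ≤ Real.sqrt (‖x - y‖ ^ 2 - s * ‖x - y‖) := by
      refine weak_norm_le (l := (𝒰 : Filter (Finset P × Finset A)))
        (v := fun q => c q ⟨x, hx⟩ - F y) (fun h => ?_) ?_
      · simp only [inner_sub_left]
        exact (hG ⟨x, hx⟩ h).sub_const _
      · filter_upwards [h0] with q hq
        exact Real.le_sqrt_of_sq_le hq
    calc ‖G ⟨x, hx⟩ - F y‖ ^ 2 ≤ (Real.sqrt (‖x - y‖ ^ 2 - s * ‖x - y‖)) ^ 2 :=
          pow_le_pow_left₀ (norm_nonneg _) h1 2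
      _ = _ := Real.sq_sqrt hnn

lemma exists_sval {ρ δ : ℝ} (hρ : 0 ≤ ρ) (hδ : 0 < δ) :
    ∃ s : ℝ, 0 < s ∧ s ≤ 1 ∧ s ≤ δ ^ 2 / (ρ + δ) / 2 ∧
      s * CC ρ δ < (δ ^ 2 / (ρ + δ)) ^ 2 / 16 := by
  have hC : 0 < CC ρ δ := by rw [CC]; positivity
  obtain ⟨k, hk⟩ : ∃ k, k = δ ^ 2 / (ρ + δ) := ⟨_, rfl⟩
  have hk0 : 0 < k := by rw [hk]; positivity
  rw [← hk]
  refine ⟨min 1 (min (k / 2) (k ^ 2 / 32 / CC ρ δ)), by positivity, min_le_left _ _,
    (min_le_right _ _).trans (min_le_left _ _), ?_⟩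
  have h1 : min 1 (min (k / 2) (k ^ 2 / 32 / CC ρ δ)) ≤ k ^ 2 / 32 / CC ρ δ :=
    (min_le_right _ _).trans (min_le_right _ _)
  calc min 1 (min (k / 2) (k ^ 2 / 32 / CC ρ δ)) * CC ρ δ ≤ k ^ 2 / 32 / CC ρ δ * CC ρ δ :=
        mul_le_mul_of_nonneg_right h1 hC.le
    _ = k ^ 2 / 32 := by field_simp
    _ < k ^ 2 / 16 := by nlinarith [sq_pos_of_pos hk0]

/-- The region of nonrigid points with a given margin. -/
def Reg (C : Set X) (F : X → H) (R δ : ℝ) : Set X := {x | ‖x‖ ≤ R ∧ ∃ c, NRat C F x c δ}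

/-- A short map is close to one which is strictly short on a whole region of nonrigid points. -/
theorem slackU {C : Set X} {F : X → H} {g : X → H} (hg : Short g)
    (hgF : ∀ y ∈ frontier C, g y = F y) {y₀ : X} (hy₀ : y₀ ∈ frontier C) (R₁ : ℝ) {δ : ℝ}
    (hδ : 0 < δ) (R : ℝ) {ε : ℝ} (hε : 0 < ε) :
    ∃ (g₁ : X → H) (t : ℝ), 0 < t ∧ t ≤ 1 / 2 ∧ Short g₁ ∧ (∀ y ∈ frontier C, g₁ y = F y) ∧
      (∀ x, ‖x‖ ≤ R → ‖g₁ x - g x‖ ≤ ε) ∧
      ∀ a ∈ Reg C F R₁ δ, ∀ b ∈ Reg C F R₁ δ, ‖g₁ a - g₁ b‖ ≤ (1 - t) * ‖a - b‖ := by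
  classical
  obtain ⟨s, hs0, hs1, hsκ, hsC⟩ := exists_sval (ρ := 2 * |R₁|) (δ := δ) (by positivity) hδ
  obtain ⟨g₀, hg₀, hg₀'⟩ := inf_slack (A := frontier C) (P := Reg C F R₁ δ) hy₀ (F := F)
    (ρ := 2 * |R₁|) (by positivity) hδ hs0 hs1 hsκ hsC (by
      rintro x ⟨hx, -⟩ x' ⟨hx', -⟩
      refine (norm_sub_le _ _).trans ?_
      have := le_abs_self R₁
      linarith) (by
      intro y hy y' hy'
      rw [← hgF y hy, ← hgF y' hy']
      exact hg y y') (by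
      rintro x ⟨-, c, -, hc⟩
      exact ⟨c, hc⟩)
  obtain ⟨τ, hτ⟩ : ∃ τ, τ = min (1 / 2) (s / 2 / (|R₁| + ‖y₀‖ + 1)) := ⟨_, rfl⟩
  have hτ0 : 0 < τ := by rw [hτ]; positivity
  have hτ1 : τ ≤ 1 / 2 := by rw [hτ]; exact min_le_left _ _
  have hτ2 : τ * (|R₁| + ‖y₀‖ + 1) ≤ s / 2 := by
    have : τ ≤ s / 2 / (|R₁| + ‖y₀‖ + 1) := by rw [hτ]; exact min_le_right _ _
    rwa [le_div_iff₀ (by positivity)] at this
  clear hτ
  obtain ⟨g₂, hg₂⟩ : ∃ g₂ : X → H, ∀ x, g₂ x = (1 - τ) • g₀ x + τ • F y₀ := ⟨_, fun x => rfl⟩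
  have hpair : ∀ x ∈ Reg C F R₁ δ, ∀ x' ∈ Reg C F R₁ δ,
      ‖g₂ x - g₂ x'‖ ≤ (1 - τ) * ‖x - x'‖ := by
    intro x hx x' hx'
    rw [hg₂, hg₂, add_sub_add_right_eq_sub, ← smul_sub, norm_smul, Real.norm_eq_abs,
      abs_of_nonneg (by linarith)]
    exact mul_le_mul_of_nonneg_left (hg₀ x hx x' hx') (by linarith)
  have hcr : ∀ x ∈ Reg C F R₁ δ, ∀ y ∈ frontier C, ‖g₂ x - F y‖ ≤ ‖x - y‖ := by
    intro x hx y hy
    have h1 := hg₀' x hx y hy
    obtain ⟨hxR, c, -, hc⟩ := hx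
    have hxy : δ ≤ ‖x - y‖ := by linarith [hc y hy, norm_nonneg (F y - c)]
    have hsr : s ≤ ‖x - y‖ := by
      have h2 : 0 ≤ ‖x - y‖ * (‖x - y‖ - s) := by
        have h3 := sq_nonneg ‖g₀ x - F y‖
        nlinarith
      have h3 : 0 ≤ ‖x - y‖ - s := nonneg_of_mul_nonneg_right h2 (by linarith)
      linarith
    have h2 : ‖g₀ x - F y‖ ≤ ‖x - y‖ - s / 2 := by
      apply le_of_sq_le_sq _ (by linarith)
      nlinarith [sq_nonneg s]
    have h3 : ‖F y₀ - F y‖ ≤ ‖x - y₀‖ + ‖x - y‖ := by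
      rw [← hgF y hy, ← hgF y₀ hy₀]
      refine (hg y₀ y).trans ?_
      have := norm_sub_le_norm_sub_add_norm_sub y₀ x y
      rwa [norm_sub_rev y₀ x] at this
    have h4 : ‖x - y₀‖ ≤ |R₁| + ‖y₀‖ := by
      refine (norm_sub_le _ _).trans ?_
      linarith [le_abs_self R₁]
    have h5 : ‖g₂ x - F y‖ ≤ (1 - τ) * ‖g₀ x - F y‖ + τ * ‖F y₀ - F y‖ := by
      have e1 : g₂ x - F y = (1 - τ) • (g₀ x - F y) + τ • (F y₀ - F y) := by
        rw [hg₂]; module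
      rw [e1]
      refine (norm_add_le _ _).trans ?_
      rw [norm_smul, norm_smul, Real.norm_eq_abs, Real.norm_eq_abs, abs_of_pos hτ0,
        abs_of_nonneg (by linarith)]
    have h6 : (1 - τ) * ‖g₀ x - F y‖ ≤ (1 - τ) * (‖x - y‖ - s / 2) :=
      mul_le_mul_of_nonneg_left h2 (by linarith)
    have h7 : τ * ‖F y₀ - F y‖ ≤ τ * (|R₁| + ‖y₀‖ + ‖x - y‖) :=
      mul_le_mul_of_nonneg_left (by linarith) hτ0.le
    nlinarith
  have hdisj : ∀ x ∈ Reg C F R₁ δ, x ∉ frontier C := by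
    rintro x ⟨-, c, hδ', hc⟩ hx
    have := hc x hx
    rw [sub_self, norm_zero] at this
    linarith [norm_nonneg (F x - c)]
  obtain ⟨h, hh, hhA⟩ := kirszbraun (frontier C ∪ Reg C F R₁ δ)
    (fun x => if x ∈ frontier C then F x else g₂ x) (by
      intro x hx y hy
      by_cases hxC : x ∈ frontier C
      · by_cases hyC : y ∈ frontier C
        · simp only [hxC, hyC, if_true]
          rw [← hgF x hxC, ← hgF y hyC]
          exact hg x y
        · simp only [hxC, hyC, if_true, if_false]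
          rcases hy with hy | hy
          · exact absurd hy hyC
          · rw [norm_sub_rev, norm_sub_rev x]
            exact hcr y hy x hxC
      · by_cases hyC : y ∈ frontier C
        · simp only [hxC, hyC, if_true, if_false]
          rcases hx with hx | hx
          · exact absurd hx hxC
          · exact hcr x hx y hyC
        · simp only [hxC, hyC, if_false]
          rcases hx with hx | hx
          · exact absurd hx hxC
          · rcases hy with hy | hy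
            · exact absurd hy hyC
            · refine (hpair x hx y hy).trans ?_
              nlinarith [norm_nonneg (x - y)])
  have hhF : ∀ y ∈ frontier C, h y = F y := by
    intro y hy
    rw [hhA y (Or.inl hy), if_pos hy]
  have hhP : ∀ x ∈ Reg C F R₁ δ, h x = g₂ x := by
    intro x hx
    rw [hhA x (Or.inr hx), if_neg (hdisj x hx)]
  set K : ℝ := 2 * (|R| + ‖y₀‖) + 1 with hK
  have hK0 : 0 < K := by positivity
  set t : ℝ := min (1 / 2) (ε / K) with ht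
  have ht0 : 0 < t := by positivity
  have ht1 : t ≤ 1 / 2 := min_le_left _ _
  refine ⟨fun x => (1 - t) • g x + t • h x, t * τ, by positivity, by nlinarith,
    short_comb hg hh ht0.le (by linarith), ?_, ?_, ?_⟩
  · intro y hy
    simp only
    rw [hgF y hy, hhF y hy, ← add_smul]
    simp
  · intro x hx
    simp only
    have e : (1 - t) • g x + t • h x - g x = t • (h x - g x) := by
      rw [smul_sub, sub_smul, one_smul]; abel
    rw [e, norm_smul, Real.norm_eq_abs, abs_of_pos ht0]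
    have h1 : ‖h x - g x‖ ≤ K := by
      have e2 : h x - g x = (h x - h y₀) + (g y₀ - g x) := by
        rw [hhF y₀ hy₀, hgF y₀ hy₀]; abel
      rw [e2]
      refine (norm_add_le _ _).trans ?_
      have h2 := hh x y₀
      have h3 := hg y₀ x
      have h4 : ‖x - y₀‖ ≤ ‖x‖ + ‖y₀‖ := norm_sub_le _ _
      rw [norm_sub_rev y₀ x] at h3
      have h5 := le_abs_self R
      linarith
    calc t * ‖h x - g x‖ ≤ (ε / K) * K :=
          mul_le_mul (min_le_right _ _) h1 (norm_nonneg _) (by positivity)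
      _ = ε := by field_simp
  · intro a ha b hb
    simp only
    rw [hhP a ha, hhP b hb]
    have e : (1 - t) • g a + t • g₂ a - ((1 - t) • g b + t • g₂ b) =
        (1 - t) • (g a - g b) + t • (g₂ a - g₂ b) := by
      rw [smul_sub, smul_sub]; abel
    rw [e]
    refine (norm_add_le _ _).trans ?_
    rw [norm_smul, norm_smul, Real.norm_eq_abs, Real.norm_eq_abs, abs_of_nonneg ht0.le,
      abs_of_nonneg (by linarith)]
    have h1 := mul_le_mul_of_nonneg_left (hg a b) (show 0 ≤ 1 - t by linarith)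
    have h2 := mul_le_mul_of_nonneg_left (hpair a ha b hb) ht0.le
    nlinarith

end

end Pool.Agent.W2helper13.Am
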