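import Mathlib
import Pool.Agent.W2helper13.Am.Ribbon
import Pool.Agent.W2helper13.Am.Slack

/-!
# Simultaneous modification on a uniformly discrete family of ribbons
-/

set_option autoImplicit false

namespace Pool.Agent.W2helper13.Am

open Set Filter Topology

universe u v w

variable {X : Type*} [NormedAddCommGroup X] [InnerProductSpace ℝ X]
  {H : Type*} [NormedAddCommGroup H] [InnerProductSpace ℝ H] [CompleteSpace H]

/-- The simultaneous step. -/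
theorem stepU {C : Set X} {F : X → H} {g : X → H} (hg : Short g)
    (hgF : ∀ y ∈ frontier C, g y = F y) {y₀ : X} (hy₀ : y₀ ∈ frontier C)
    {h1 h2 : H} (n1 : ‖h1‖ = 1) (n2 : ‖h2‖ = 1) (n12 : inner ℝ h1 h2 = 0)
    {Λ : Type*} (u v w : Λ → X) (hwn : ∀ p, ‖w p‖ = 1)
    (hwu : ∀ p p', inner ℝ (w p) (u p') = 0) (hwv : ∀ p p', inner ℝ (w p) (v p') = 0)
    (hww : ∀ p p', p ≠ p' → inner ℝ (w p) (w p') = 0) (huv : ∀ p, u p ≠ v p)
    (R₁ : ℝ) {δ : ℝ} (hδ : 0 < δ)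
    (hadm : ∀ p, ∃ x₀ c, ‖x₀‖ ≤ R₁ ∧ NRat C F x₀ c δ ∧ ‖u p - x₀‖ ≤ δ / 4 ∧ ‖v p - x₀‖ ≤ δ / 4)
    {r : ℝ} (hr : 0 < r) {l : ℝ} (hl1 : l < 1) (R : ℝ) {ε : ℝ} (hε : 0 < ε) :
    ∃ g' : X → H, Short g' ∧ (∀ y ∈ frontier C, g' y = F y) ∧
      (∀ x, ‖x‖ ≤ R → ‖g' x - g x‖ ≤ ε) ∧
      ∃ R' ε' : ℝ, 0 < ε' ∧ ∀ g'' : X → H, (∀ x, ‖x‖ ≤ R' → ‖g'' x - g' x‖ ≤ ε') →
        ∀ p, ∀ U : Set X, Metric.ball (u p) r ⊆ U → (∀ x ∈ Metric.ball (v p) r, x ∉ U) →
          ∃ a ∈ frontier U, ∃ b ∈ frontier U, l * ‖a - b‖ < ‖g'' a - g'' b‖ := by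
  classical
  obtain ⟨g₁, t, ht0, ht1, hg₁, hg₁F, hg₁g, hg₁s⟩ := slackU hg hgF hy₀ (|R₁| + δ) (δ := δ / 4)
    (by positivity) R (show 0 < ε / 2 by positivity)
  choose x₀ c hx₀R hNR hux hvx using hadm
  have hx₀R' : ∀ p, ‖x₀ p‖ ≤ |R₁| := fun p => (hx₀R p).trans (le_abs_self _)
  have hReg : ∀ p z, ‖z - x₀ p‖ ≤ 3 * δ / 4 → z ∈ Reg C F (|R₁| + δ) (δ / 4) := by
    intro p z hz
    refine ⟨?_, c p, by positivity, fun y hy => ?_⟩
    · have h3 : z = x₀ p + (z - x₀ p) := by abel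
      rw [h3]
      exact (norm_add_le _ _).trans (by linarith [hx₀R' p])
    · have h3 := (hNR p).2 y hy
      have h4 : ‖x₀ p - y‖ ≤ ‖x₀ p - z‖ + ‖z - y‖ := norm_sub_le_norm_sub_add_norm_sub _ _ _
      rw [norm_sub_rev (x₀ p) z] at h4
      linarith
  -- parameters
  obtain ⟨σ, hσ0, hσr, hσδ⟩ : ∃ σ : ℝ, 0 < σ ∧ σ ≤ r / 4 ∧ σ ≤ δ / 8 :=
    ⟨min (r / 4) (δ / 8), by positivity, min_le_left _ _, min_le_right _ _⟩
  obtain ⟨ν, hν0, hνσ, hνδ, hνε⟩ : ∃ ν : ℝ, 0 < ν ∧ ν ≤ σ / 2 ∧ ν ≤ δ / 16 ∧ ν ≤ ε / 16 :=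
    ⟨min (σ / 2) (min (δ / 16) (ε / 16)), by positivity, min_le_left _ _,
      (min_le_right _ _).trans (min_le_left _ _), (min_le_right _ _).trans (min_le_right _ _)⟩
  obtain ⟨s₀, hs0, hs1, hs2⟩ : ∃ s₀ : ℝ, 0 < s₀ ∧ s₀ ≤ t * ν / 8 ∧ s₀ ≤ σ / 8 :=
    ⟨min (t * ν / 8) (σ / 8), by positivity, min_le_left _ _, min_le_right _ _⟩
  have htν : t * ν ≤ ν / 2 := by nlinarith
  have htν0 : 0 < t * ν := by positivity
  -- geometry
  obtain ⟨ℓ, hℓ⟩ : ∃ ℓ : Λ → ℝ, ∀ p, ℓ p = ‖v p - u p‖ := ⟨_, fun p => rfl⟩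
  have hℓ0 : ∀ p, 0 < ℓ p := fun p => by
    rw [hℓ]; exact norm_pos_iff.2 (sub_ne_zero.2 (huv p).symm)
  have hℓδ : ∀ p, ℓ p ≤ δ / 2 := fun p => by
    have h3 : ‖v p - u p‖ ≤ ‖v p - x₀ p‖ + ‖x₀ p - u p‖ := norm_sub_le_norm_sub_add_norm_sub _ _ _
    rw [norm_sub_rev (x₀ p) (u p)] at h3
    rw [hℓ]
    linarith [hux p, hvx p]
  obtain ⟨e, he⟩ : ∃ e : Λ → X, ∀ p, e p = (ℓ p)⁻¹ • (v p - u p) := ⟨_, fun p => rfl⟩
  have hen : ∀ p, ‖e p‖ = 1 := fun p => by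
    rw [he, norm_smul, norm_inv, Real.norm_eq_abs, abs_of_pos (hℓ0 p), ← hℓ,
      inv_mul_cancel₀ (hℓ0 p).ne']
  have hvu : ∀ p, v p - u p = ℓ p • e p := fun p => by
    rw [he, smul_smul, mul_inv_cancel₀ (hℓ0 p).ne', one_smul]
  have hwe : ∀ p p', inner ℝ (w p) (e p') = 0 := fun p p' => by
    rw [he, real_inner_smul_right, inner_sub_right, hwu, hwv]; ring
  have hew : ∀ p, inner ℝ (e p) (w p) = 0 := fun p => by
    rw [real_inner_comm]; exact hwe p p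
  obtain ⟨u', hu'⟩ : ∃ u' : Λ → X, ∀ p, u' p = u p + σ • w p := ⟨_, fun p => rfl⟩
  -- points of the segments
  have hseg : ∀ p, ∀ τ : ℝ, 0 ≤ τ → τ ≤ ℓ p → ‖(u' p + τ • e p) - x₀ p‖ ≤ 3 * δ / 8 := by
    intro p τ h0 h1
    have e1 : (u' p + τ • e p) - x₀ p =
        ((1 - τ / ℓ p) • (u p - x₀ p) + (τ / ℓ p) • (v p - x₀ p)) + σ • w p := by
      have e2 : τ • e p = (τ / ℓ p) • (v p - u p) := by
        rw [he, smul_smul, div_eq_mul_inv]
      rw [hu', e2]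
      module
    have h2 : τ / ℓ p ≤ 1 := by rw [div_le_one (hℓ0 p)]; exact h1
    have h3 : 0 ≤ τ / ℓ p := div_nonneg h0 (hℓ0 p).le
    rw [e1]
    refine (norm_add_le _ _).trans ?_
    have h6 : ‖σ • w p‖ = σ := by
      rw [norm_smul, hwn, mul_one, Real.norm_eq_abs, abs_of_pos hσ0]
    have h7 : ‖(1 - τ / ℓ p) • (u p - x₀ p) + (τ / ℓ p) • (v p - x₀ p)‖ ≤ δ / 4 := by
      refine (norm_add_le _ _).trans ?_
      rw [norm_smul, norm_smul, Real.norm_eq_abs, Real.norm_eq_abs, abs_of_nonneg h3,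
        abs_of_nonneg (by linarith)]
      have h4 := mul_le_mul_of_nonneg_left (hux p) (show 0 ≤ 1 - τ / ℓ p by linarith)
      have h5 := mul_le_mul_of_nonneg_left (hvx p) h3
      nlinarith
    linarith
  -- the nets
  obtain ⟨M, hM⟩ := exists_nat_gt (4 * δ / (t * ν))
  have hM0 : 0 < (M : ℝ) := lt_trans (by positivity) hM
  have hM1 : ∀ p, ℓ p / M ≤ t * ν / 8 := by
    intro p
    rw [div_lt_iff₀ (by positivity)] at hM
    rw [div_le_iff₀ hM0]
    linarith [hℓδ p]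
  obtain ⟨Nb, hNb⟩ := base_PIq n1 n2 n12
  obtain ⟨B', N', hbq⟩ := brehmq (base_short n1 n2 n12) (base_le n1 n2) hNb (δ / 2)
    (‖g₁ 0‖ + (|R₁| + δ)) (M + 1)
  have hibd : ∀ p, ∀ i : ℕ, i < M + 1 → (i : ℝ) * (ℓ p / M) ≤ ℓ p := by
    intro p i hi
    have hi' : (i : ℝ) ≤ M := by
      have : i ≤ M := by omega
      exact_mod_cast this
    have h3 : 0 ≤ ℓ p / M := div_nonneg (hℓ0 p).le hM0.le
    have h4 : (i : ℝ) * (ℓ p / M) ≤ M * (ℓ p / M) := mul_le_mul_of_nonneg_right hi' h3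
    have : (M : ℝ) * (ℓ p / M) = ℓ p := by field_simp
    linarith
  have hi0 : ∀ p, ∀ i : ℕ, 0 ≤ (i : ℝ) * (ℓ p / M) := fun p i =>
    mul_nonneg (Nat.cast_nonneg i) (div_nonneg (hℓ0 p).le hM0.le)
  have hex := fun p => hbq (fun i : ℕ => (⟨i * (ℓ p / M), 0⟩ : ℂ))
    (fun i : ℕ => g₁ (u' p + ((i : ℝ) * (ℓ p / M)) • e p)) (by
      intro i hi
      refine (Complex.norm_le_abs_re_add_abs_im _).trans ?_
      simp only [abs_zero, add_zero]
      rw [abs_of_nonneg (hi0 p i)]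
      exact (hibd p i hi).trans (hℓδ p)) (by
      intro i hi
      have h3 := hseg p _ (hi0 p i) (hibd p i hi)
      set z := u' p + ((i : ℝ) * (ℓ p / M)) • e p with hz
      have h4 := hg₁ z 0
      rw [sub_zero] at h4
      have h5 : g₁ z = g₁ 0 + (g₁ z - g₁ 0) := by abel
      rw [h5]
      refine (norm_add_le _ _).trans (add_le_add le_rfl (h4.trans ?_))
      have h6 : z = x₀ p + (z - x₀ p) := by abel
      rw [h6]
      exact (norm_add_le _ _).trans (by linarith [hx₀R' p])) (by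
      intro i j _ _
      refine (hg₁ _ _).trans ?_
      have e1 : u' p + ((i : ℝ) * (ℓ p / M)) • e p - (u' p + ((j : ℝ) * (ℓ p / M)) • e p)
          = ((i : ℝ) * (ℓ p / M) - (j : ℝ) * (ℓ p / M)) • e p := by
        rw [sub_smul]; abel
      rw [e1, norm_smul, hen, mul_one, Real.norm_eq_abs]
      refine le_trans (le_of_eq ?_) (Complex.abs_re_le_norm _)
      rw [Complex.sub_re])
  choose φ hφ hφB hφP hφa using hex
  obtain ⟨ψ, hψ⟩ : ∃ ψ : Λ → X → H, ∀ p x, ψ p x = φ p (PP (u' p) (e p) (w p) x) :=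
    ⟨_, fun p x => rfl⟩
  have hψs : ∀ p, Short (ψ p) := fun p x y => by
    rw [hψ, hψ]
    exact (hφ p _ _).trans (PP_short (hen p) (hwn p) (hew p) x y)
  have hψi : ∀ p, ∀ i : ℕ, i < M + 1 → ψ p (u' p + ((i : ℝ) * (ℓ p / M)) • e p)
      = g₁ (u' p + ((i : ℝ) * (ℓ p / M)) • e p) := by
    intro p i hi
    have h1 := PP_apply (u := u' p) (hen p) (hwn p) (hew p) ((i : ℝ) * (ℓ p / M)) 0
    rw [zero_smul, add_zero] at h1
    rw [hψ, h1]
    exact hφa p i hi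
  -- the tubes
  obtain ⟨T, hT⟩ : ∃ T : Λ → Set X, ∀ p, T p =
    {x | ∃ τ : ℝ, 0 ≤ τ ∧ τ ≤ ℓ p ∧ ‖x - (u' p + τ • e p)‖ ≤ s₀} := ⟨_, fun p => rfl⟩
  have hnearT : ∀ p, ∀ x ∈ T p, ‖ψ p x - g₁ x‖ ≤ t * ν / 2 := by
    intro p x hxT
    rw [hT] at hxT
    obtain ⟨τ, h0, h1, hx⟩ := hxT
    have hlm : 0 < ℓ p / M := div_pos (hℓ0 p) hM0
    set i := ⌊τ / (ℓ p / M)⌋₊ with hi
    have h2 : (i : ℝ) * (ℓ p / M) ≤ τ := by
      have := Nat.floor_le (show 0 ≤ τ / (ℓ p / M) from div_nonneg h0 hlm.le)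
      rwa [le_div_iff₀ hlm] at this
    have h3 : τ < ((i : ℝ) + 1) * (ℓ p / M) := by
      have := Nat.lt_floor_add_one (τ / (ℓ p / M))
      rwa [div_lt_iff₀ hlm] at this
    have h4 : i < M + 1 := by
      have h5 : (i : ℝ) ≤ M := by
        have h6 : (i : ℝ) * (ℓ p / M) ≤ M * (ℓ p / M) := by
          have : (M : ℝ) * (ℓ p / M) = ℓ p := by field_simp
          rw [this]; linarith
        exact le_of_mul_le_mul_right h6 hlm
      have : i ≤ M := by exact_mod_cast h5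
      omega
    have h5 := hψi p i h4
    set xi := u' p + ((i : ℝ) * (ℓ p / M)) • e p with hxi
    have h6 : ‖x - xi‖ ≤ s₀ + ℓ p / M := by
      have e1 : x - xi = (x - (u' p + τ • e p)) + (τ - (i : ℝ) * (ℓ p / M)) • e p := by
        rw [hxi, sub_smul]; abel
      rw [e1]
      refine (norm_add_le _ _).trans (add_le_add hx ?_)
      rw [norm_smul, hen, mul_one, Real.norm_eq_abs, abs_of_nonneg (by linarith)]
      linarith
    have h7 : ‖ψ p x - g₁ x‖ ≤ ‖ψ p x - ψ p xi‖ + ‖g₁ xi - g₁ x‖ := by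
      rw [h5]
      exact norm_sub_le_norm_sub_add_norm_sub _ _ _
    have h8 := hψs p x xi
    have h9 := hg₁ xi x
    rw [norm_sub_rev xi x] at h9
    linarith [hM1 p]
  have hTball : ∀ p, ∀ x ∈ T p, ‖x - x₀ p‖ ≤ δ / 2 := by
    intro p x hxT
    rw [hT] at hxT
    obtain ⟨τ, h0, h1, h2⟩ := hxT
    have h3 := hseg p τ h0 h1
    have h4 : ‖x - x₀ p‖ ≤ ‖x - (u' p + τ • e p)‖ + ‖(u' p + τ • e p) - x₀ p‖ :=
      norm_sub_le_norm_sub_add_norm_sub _ _ _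
    linarith
  have hsep : ∀ p p', p ≠ p' → ∀ x ∈ T p, ∀ x' ∈ T p', ν ≤ ‖x - x'‖ := by
    intro p p' hpp x hx x' hx'
    rw [hT] at hx hx'
    obtain ⟨τ, -, -, h1⟩ := hx
    obtain ⟨τ', -, -, h1'⟩ := hx'
    have e1 : inner ℝ (w p) ((u' p + τ • e p) - (u' p' + τ' • e p')) = σ := by
      rw [hu', hu', inner_sub_right, inner_add_right, inner_add_right, inner_add_right,
        inner_add_right, real_inner_smul_right, real_inner_smul_right, real_inner_smul_right,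
        real_inner_smul_right, hwu, hwu, hwe, hwe, hww p p' hpp, real_inner_self_eq_norm_sq, hwn]
      ring
    have h2 : σ ≤ ‖(u' p + τ • e p) - (u' p' + τ' • e p')‖ := by
      have h3 := real_inner_le_norm (w p) ((u' p + τ • e p) - (u' p' + τ' • e p'))
      rw [e1, hwn, one_mul] at h3
      exact h3
    have e2 : (u' p + τ • e p) - (u' p' + τ' • e p') =
        -(x - (u' p + τ • e p)) + (x - x') + (x' - (u' p' + τ' • e p')) := by abel
    rw [e2] at h2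
    have h3 := (norm_add_le (-(x - (u' p + τ • e p)) + (x - x')) (x' - (u' p' + τ' • e p'))).trans
      (add_le_add (norm_add_le _ _) le_rfl)
    rw [norm_neg] at h3
    linarith
  obtain ⟨f, hfT, hfN⟩ : ∃ f : X → H, (∀ p, ∀ x ∈ T p, f x = ψ p x) ∧
      ∀ x, (∀ p, x ∉ T p) → f x = g₁ x := by
    refine ⟨fun x => if h : ∃ p, x ∈ T p then ψ h.choose x else g₁ x, fun p x hx => ?_,
      fun x hx => ?_⟩
    · have h : ∃ p, x ∈ T p := ⟨p, hx⟩
      simp only [dif_pos h]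
      have h3 : h.choose = p := by
        by_contra hne
        have := hsep _ _ hne x h.choose_spec x hx
        rw [sub_self, norm_zero] at this
        linarith
      rw [h3]
    · have h : ¬ ∃ p, x ∈ T p := fun ⟨p, hp⟩ => hx p hp
      simp only [dif_neg h]
  obtain ⟨N, hN⟩ : ∃ N : Set X, N = {x | ∀ p, ∀ τ : ℝ, 0 ≤ τ → τ ≤ ℓ p →
    s₀ + ν ≤ ‖x - (u' p + τ • e p)‖} := ⟨_, rfl⟩
  have hNT : ∀ x ∈ N, ∀ p, x ∉ T p := by
    intro x hx p hxT
    rw [hN] at hx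
    rw [hT] at hxT
    obtain ⟨τ, h0, h1, h2⟩ := hxT
    have := hx p τ h0 h1
    linarith
  have hcross1 : ∀ p p', p ≠ p' → ∀ x ∈ T p, ∀ x' ∈ T p', ‖ψ p x - ψ p' x'‖ ≤ ‖x - x'‖ := by
    intro p p' hpp x hx x' hx'
    have h3 := hsep p p' hpp x hx x' hx'
    have h4 := hg₁s x (hReg p x (by linarith [hTball p x hx])) x'
      (hReg p' x' (by linarith [hTball p' x' hx']))
    have h5 := hnearT p x hx
    have h6 := hnearT p' x' hx'
    rw [norm_sub_rev] at h6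
    have h7 : ‖ψ p x - ψ p' x'‖ ≤ ‖ψ p x - g₁ x‖ + (‖g₁ x - g₁ x'‖ + ‖g₁ x' - ψ p' x'‖) :=
      (norm_sub_le_norm_sub_add_norm_sub _ (g₁ x) _).trans
        (add_le_add le_rfl (norm_sub_le_norm_sub_add_norm_sub _ _ _))
    have h8 : t * ν ≤ t * ‖x - x'‖ := mul_le_mul_of_nonneg_left h3 ht0.le
    linarith
  have hcross0 : ∀ p, ∀ x ∈ T p, ∀ z : X, ‖z - x₀ p‖ ≤ 3 * δ / 4 → ν ≤ ‖x - z‖ →
      ‖ψ p x - g₁ z‖ ≤ ‖x - z‖ := by
    intro p x hx z hz hxz
    have h4 := hg₁s x (hReg p x (by linarith [hTball p x hx])) z (hReg p z hz)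
    have h5 := hnearT p x hx
    have h6 : ‖ψ p x - g₁ z‖ ≤ ‖ψ p x - g₁ x‖ + ‖g₁ x - g₁ z‖ :=
      norm_sub_le_norm_sub_add_norm_sub _ _ _
    have h7 : t * ν ≤ t * ‖x - z‖ := mul_le_mul_of_nonneg_left hxz ht0.le
    linarith
  have hcross : ∀ p, ∀ x ∈ T p, ∀ y ∈ N, ‖ψ p x - g₁ y‖ ≤ ‖x - y‖ := by
    intro p x hx y hy
    by_cases hyb : ‖y - x₀ p‖ ≤ 3 * δ / 4
    · refine hcross0 p x hx y hyb ?_
      rw [hT] at hx
      rw [hN] at hy
      obtain ⟨τ, h0, h1, h2⟩ := hx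
      have h3 := hy p τ h0 h1
      have h4 : ‖y - (u' p + τ • e p)‖ ≤ ‖y - x‖ + ‖x - (u' p + τ • e p)‖ :=
        norm_sub_le_norm_sub_add_norm_sub _ _ _
      rw [norm_sub_rev y x] at h4
      linarith
    · have hxb : x ∈ Metric.closedBall (x₀ p) (3 * δ / 4) := by
        rw [mem_closedBall_iff_norm]
        linarith [hTball p x hx]
      have hyb' : y ∉ Metric.closedBall (x₀ p) (3 * δ / 4) := by
        rw [mem_closedBall_iff_norm]
        exact hyb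
      obtain ⟨z, hz1, hz2⟩ := exists_frontier_seg hxb hyb'
      have hz3 := Metric.frontier_closedBall_subset_sphere hz2
      rw [mem_sphere_iff_norm] at hz3
      have e1 := norm_add_of_mem_seg hz1
      have h3 : ν ≤ ‖x - z‖ := by
        have h4 : ‖z - x₀ p‖ ≤ ‖z - x‖ + ‖x - x₀ p‖ := norm_sub_le_norm_sub_add_norm_sub _ _ _
        rw [norm_sub_rev z x] at h4
        linarith [hTball p x hx]
      have h4 := hcross0 p x hx z hz3.le h3
      have h5 := hg₁ z y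
      have h6 : ‖ψ p x - g₁ y‖ ≤ ‖ψ p x - g₁ z‖ + ‖g₁ z - g₁ y‖ :=
        norm_sub_le_norm_sub_add_norm_sub _ _ _
      linarith
  obtain ⟨g', hg', hg'A⟩ := kirszbraun ({x | ∃ p, x ∈ T p} ∪ N) f (by
    intro x hx y hy
    by_cases hxT : ∃ p, x ∈ T p
    · obtain ⟨p, hp⟩ := hxT
      by_cases hyT : ∃ p, y ∈ T p
      · obtain ⟨p', hp'⟩ := hyT
        rw [hfT p x hp, hfT p' y hp']
        rcases eq_or_ne p p' with rfl | hne
        · exact hψs p x y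
        · exact hcross1 p p' hne x hp y hp'
      · have hyN : y ∈ N := by
          rcases hy with hy | hy
          · exact absurd hy hyT
          · exact hy
        rw [hfT p x hp, hfN y (hNT y hyN)]
        exact hcross p x hp y hyN
    · have hxN : x ∈ N := by
        rcases hx with hx | hx
        · exact absurd hx hxT
        · exact hx
      rw [hfN x (hNT x hxN)]
      by_cases hyT : ∃ p, y ∈ T p
      · obtain ⟨p', hp'⟩ := hyT
        rw [hfT p' y hp', norm_sub_rev, norm_sub_rev x]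
        exact hcross p' y hp' x hxN
      · have hyN : y ∈ N := by
          rcases hy with hy | hy
          · exact absurd hy hyT
          · exact hy
        rw [hfN y (hNT y hyN)]
        exact hg₁ x y)
  have hg'T : ∀ p, ∀ x ∈ T p, g' x = ψ p x := fun p x hx => by
    rw [hg'A x (Or.inl ⟨p, hx⟩), hfT p x hx]
  have hg'N : ∀ x ∈ N, g' x = g₁ x := fun x hx => by
    rw [hg'A x (Or.inr hx), hfN x (hNT x hx)]
  have hclose : ∀ x, ‖g' x - g₁ x‖ ≤ ε / 2 := by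
    intro x
    by_cases hxN : x ∈ N
    · rw [hg'N x hxN, sub_self, norm_zero]
      positivity
    · rw [hN, mem_ofPred_eq] at hxN
      push Not at hxN
      obtain ⟨p, τ, h0, h1, h2⟩ := hxN
      have hpT : u' p + τ • e p ∈ T p := by
        rw [hT]
        exact ⟨τ, h0, h1, by rw [sub_self, norm_zero]; exact hs0.le⟩
      have h3 := hg' x (u' p + τ • e p)
      have h4 := hg₁ (u' p + τ • e p) x
      have h5 := hnearT p _ hpT
      rw [← hg'T p _ hpT] at h5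
      rw [norm_sub_rev _ x] at h4
      have h6 : ‖g' x - g₁ x‖ ≤ ‖g' x - g' (u' p + τ • e p)‖ +
          (‖g' (u' p + τ • e p) - g₁ (u' p + τ • e p)‖ + ‖g₁ (u' p + τ • e p) - g₁ x‖) :=
        (norm_sub_le_norm_sub_add_norm_sub _ (g' (u' p + τ • e p)) _).trans
          (add_le_add le_rfl (norm_sub_le_norm_sub_add_norm_sub _ _ _))
      linarith
  refine ⟨g', hg', ?_, ?_, |R₁| + δ, (1 - l) * (s₀ / (N' (δ / 2 + s₀) + 1)) / 4, ?_, ?_⟩
  · intro y hy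
    have hyN : y ∈ N := by
      rw [hN]
      intro p τ h0 h1
      have h3 : δ ≤ ‖x₀ p - y‖ := by
        have := (hNR p).2 y hy
        linarith [norm_nonneg (F y - c p)]
      have h4 := hseg p τ h0 h1
      have h5 : ‖x₀ p - y‖ ≤ ‖x₀ p - (u' p + τ • e p)‖ + ‖(u' p + τ • e p) - y‖ :=
        norm_sub_le_norm_sub_add_norm_sub _ _ _
      rw [norm_sub_rev (x₀ p) (u' p + τ • e p), norm_sub_rev (u' p + τ • e p) y] at h5
      linarith
    rw [hg'N y hyN, hg₁F y hy]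
  · intro x hx
    have h3 := hclose x
    have h4 := hg₁g x hx
    have h5 : ‖g' x - g x‖ ≤ ‖g' x - g₁ x‖ + ‖g₁ x - g x‖ :=
      norm_sub_le_norm_sub_add_norm_sub _ _ _
    linarith
  · have : 0 < 1 - l := by linarith
    positivity
  · intro g'' hg'' p U hU hV
    have hrib : ∀ τ b : ℝ, 0 ≤ τ → τ ≤ ℓ p → 0 ≤ b → b ≤ s₀ →
        u' p + (τ • e p + b • w p) ∈ T p := by
      intro τ b h0 h1 h2 h3
      rw [hT]
      refine ⟨τ, h0, h1, ?_⟩
      have : u' p + (τ • e p + b • w p) - (u' p + τ • e p) = b • w p := by abel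
      rw [this, norm_smul, hwn, mul_one, Real.norm_eq_abs, abs_of_nonneg h2]
      exact h3
    refine ribbon_cross (hφP p) (u := u' p) (hen p) (hwn p) (hew p) (hℓ0 p).le hs0
      (ϱ := δ / 2 + s₀) (by linarith [hℓδ p]) hl1 (g' := g') (g'' := g'') ?_ ?_ ?_ ?_
    · intro τ b h0 h1 h2 h3
      rw [hg'T p _ (hrib τ b h0 h1 h2 h3), hψ]
    · intro τ b h0 h1 h2 h3
      apply hg''
      have h4 := hTball p _ (hrib τ b h0 h1 h2 h3)
      have h5 : u' p + (τ • e p + b • w p) = x₀ p + (u' p + (τ • e p + b • w p) - x₀ p) := by abel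
      rw [h5]
      exact (norm_add_le _ _).trans (by linarith [hx₀R' p])
    · intro b h0 h1
      apply hU
      have : u' p + b • w p - u p = (σ + b) • w p := by
        rw [hu', add_smul]; abel
      rw [mem_ball_iff_norm, this, norm_smul, hwn, mul_one, Real.norm_eq_abs,
        abs_of_nonneg (by linarith)]
      linarith
    · intro b h0 h1
      apply hV
      have : u' p + (ℓ p • e p + b • w p) - v p = (σ + b) • w p := by
        rw [hu', add_smul, ← hvu]; abel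
      rw [mem_ball_iff_norm, this, norm_smul, hwn, mul_one, Real.norm_eq_abs,
        abs_of_nonneg (by linarith)]
      linarith

end Pool.Agent.W2helper13.Am
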