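import Mathlib
import Pool.Agent.W2helper13.Am.StepU
import Pool.Agent.W2helper13.Am.Classes
import Pool.Agent.W2helper13.Am.Reduce
import Pool.Agent.W2helper13.Am.Core

/-!
# Wild short extensions: infinite-dimensional domains of any density character
-/

set_option autoImplicit false

namespace Pool.Agent.W2helper13.Am

open Set Filter Topology

universe u v w

variable {X : Type u} [NormedAddCommGroup X] [InnerProductSpace ℝ X] [CompleteSpace X]
  {H : Type v} [NormedAddCommGroup H] [InnerProductSpace ℝ H] [CompleteSpace H]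

/-- The main theorem on wild extensions, infinite-dimensional domain. -/
theorem coreU (hinf : ¬ FiniteDimensional ℝ X)
    {h1 h2 : H} (n1 : ‖h1‖ = 1) (n2 : ‖h2‖ = 1) (n12 : inner ℝ h1 h2 = 0) : WildExt X H := by
  classical
  intro C hC hCc F hF hFG
  obtain ⟨y₀, hy₀, -⟩ := hFG 0 le_rfl one_pos
  obtain ⟨D, Q, w, avoid, hw1, hw2, hw3, hw4⟩ := exists_classes hinf
  obtain ⟨enum, henum⟩ := exists_surjective_nat (ℕ × ℕ × ℕ × ℕ)
  obtain ⟨g, hg, hgF, hgP⟩ := iterate (frontier C) F hF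
    (fun i g => ∀ p : D × D, (avoid (enum i).1 p.1 ∧ avoid (enum i).1 p.2 ∧ Q p.1 ≠ Q p.2 ∧
      ∃ x₀ c, ‖x₀‖ ≤ ((enum i).2.1 : ℝ) ∧ NRat C F x₀ c (1 / ((enum i).2.1 + 1 : ℝ)) ∧
        ‖Q p.1 - x₀‖ ≤ (1 / ((enum i).2.1 + 1 : ℝ)) / 4 ∧
        ‖Q p.2 - x₀‖ ≤ (1 / ((enum i).2.1 + 1 : ℝ)) / 4) →
      ∀ U : Set X, Metric.ball (Q p.1) (1 / ((enum i).2.2.1 + 1)) ⊆ U →
        (∀ x ∈ Metric.ball (Q p.2) (1 / ((enum i).2.2.1 + 1)), x ∉ U) →
          ∃ a ∈ frontier U, ∃ b ∈ frontier U,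
            (1 - 1 / ((enum i).2.2.2 + 1 : ℝ)) * ‖a - b‖ < ‖g a - g b‖) (by
    intro i g hg hgF R ε hε
    have hl : 1 - 1 / ((enum i).2.2.2 + 1 : ℝ) < 1 := by
      have : 0 < 1 / ((enum i).2.2.2 + 1 : ℝ) := by positivity
      linarith
    obtain ⟨g', m1, m2, m3, R', ε', m4, m5⟩ := stepU hg hgF hy₀ n1 n2 n12
      (Λ := {p : D × D // avoid (enum i).1 p.1 ∧ avoid (enum i).1 p.2 ∧ Q p.1 ≠ Q p.2 ∧
        ∃ x₀ c, ‖x₀‖ ≤ ((enum i).2.1 : ℝ) ∧ NRat C F x₀ c (1 / ((enum i).2.1 + 1 : ℝ)) ∧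
        ‖Q p.1 - x₀‖ ≤ (1 / ((enum i).2.1 + 1 : ℝ)) / 4 ∧
        ‖Q p.2 - x₀‖ ≤ (1 / ((enum i).2.1 + 1 : ℝ)) / 4})
      (fun p => Q p.1.1) (fun p => Q p.1.2) (fun p => w p.1 (enum i).1)
      (fun p => hw1 _ _) (fun p p' => hw2 _ _ _ p'.2.1) (fun p p' => hw2 _ _ _ p'.2.2.1)
      (fun p p' hpp => hw3 _ _ _ (fun h => hpp (Subtype.ext h))) (fun p => p.2.2.2.1)
      ((enum i).2.1 : ℝ) (δ := 1 / ((enum i).2.1 + 1 : ℝ)) (by positivity)
      (fun p => p.2.2.2.2) (r := 1 / ((enum i).2.2.1 + 1)) (by positivity) hl R hε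
    exact ⟨g', m1, m2, m3, R', ε', m4, fun g'' hg'' p hp => m5 g'' hg'' ⟨p, hp⟩⟩)
  refine ⟨g, hg, hgF, fun U hU hUne hUC => ?_⟩
  by_cases hrig : ∃ x ∈ U, ¬ NR C F x
  · obtain ⟨x, hx, hnr⟩ := hrig
    exact rigid_one hC hg hgF hU hUC hx hnr
  push Not at hrig
  by_cases hcross : ∃ x₀ c δ, NRat C F x₀ c δ ∧ (∃ u ∈ U, ‖u - x₀‖ < δ) ∧
      ∃ v, v ∉ closure U ∧ ‖v - x₀‖ < δ
  · obtain ⟨x₀, c, δ, hNR, ⟨u, hu, hux⟩, v, hv, hvx⟩ := hcross
    intro l hl0 hl1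
    -- a point of the frontier of the closure
    obtain ⟨z, hz1, hz2⟩ := exists_frontier_seg (subset_closure hu) hv
    have hzx : ‖z - x₀‖ < δ := by
      have h3 := (convex_ball x₀ δ).segment_subset (show u ∈ Metric.ball x₀ δ by
        rw [mem_ball_iff_norm]; exact hux) (show v ∈ Metric.ball x₀ δ by
        rw [mem_ball_iff_norm]; exact hvx) hz1
      rwa [mem_ball_iff_norm] at h3
    have hzU : z ∈ closure U := by
      have := frontier_subset_closure hz2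
      rwa [closure_closure] at this
    have hzV : z ∈ closure (closure U)ᶜ := by
      rw [frontier_eq_closure_inter_closure] at hz2
      exact hz2.2
    obtain ⟨k₁, hk₁⟩ := exists_nat_one_div_lt (show 0 < δ - ‖z - x₀‖ by linarith)
    obtain ⟨k₂, hk₂⟩ := exists_nat_ge ‖z‖
    obtain ⟨k, hk1, hk2⟩ : ∃ k : ℕ, k₁ ≤ k ∧ k₂ ≤ k := ⟨max k₁ k₂, le_max_left _ _, le_max_right _ _⟩
    have hkδ : 1 / ((k : ℝ) + 1) < δ - ‖z - x₀‖ := by
      refine lt_of_le_of_lt ?_ hk₁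
      apply one_div_le_one_div_of_le (by positivity)
      have : (k₁ : ℝ) ≤ k := by exact_mod_cast hk1
      linarith
    have hkz : ‖z‖ ≤ (k : ℝ) := hk₂.trans (by exact_mod_cast hk2)
    obtain ⟨δ', hδ'⟩ : ∃ δ' : ℝ, δ' = 1 / ((k : ℝ) + 1) := ⟨_, rfl⟩
    have hδ'0 : 0 < δ' := by rw [hδ']; positivity
    have hNRz : NRat C F z c δ' := by
      refine ⟨hδ'0, fun y hy => ?_⟩
      have h3 := hNR.2 y hy
      have h4 : ‖x₀ - y‖ ≤ ‖x₀ - z‖ + ‖z - y‖ := norm_sub_le_norm_sub_add_norm_sub _ _ _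
      rw [norm_sub_rev x₀ z] at h4
      rw [← hδ'] at hkδ
      linarith
    -- nearby points
    obtain ⟨u', hu', hzu⟩ := Metric.mem_closure_iff.1 hzU (δ' / 8) (by positivity)
    obtain ⟨v', hv', hzv⟩ := Metric.mem_closure_iff.1 hzV (δ' / 8) (by positivity)
    rw [dist_eq_norm, norm_sub_rev] at hzu hzv
    obtain ⟨ρ₁, hρ₁, hb₁⟩ := Metric.isOpen_iff.1 hU u' hu'
    obtain ⟨ρ₂, hρ₂, hb₂⟩ := Metric.isOpen_iff.1 (isClosed_closure (s := U)).isOpen_compl v' hv'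
    obtain ⟨j, hj⟩ := exists_nat_one_div_lt (show 0 < min ρ₁ ρ₂ / 2 by positivity)
    obtain ⟨m, hm⟩ := exists_nat_one_div_lt (show 0 < 1 - l by linarith)
    obtain ⟨a, b, n, hna, hnb, ha, hb⟩ := hw4 u' v' (min (min ρ₁ ρ₂ / 2) (δ' / 8)) (by positivity)
    have ha1 := ha.trans_le (min_le_left _ _)
    have ha2 := ha.trans_le (min_le_right _ _)
    have hb1 := hb.trans_le (min_le_left _ _)
    have hb2 := hb.trans_le (min_le_right _ _)
    have hsub1 : Metric.ball (Q a) (1 / ((j : ℝ) + 1)) ⊆ U := by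
      intro x hx
      apply hb₁
      rw [mem_ball_iff_norm] at hx ⊢
      have h3 : ‖x - u'‖ ≤ ‖x - Q a‖ + ‖Q a - u'‖ := norm_sub_le_norm_sub_add_norm_sub _ _ _
      linarith [min_le_left ρ₁ ρ₂]
    have hsub2 : Metric.ball (Q b) (1 / ((j : ℝ) + 1)) ⊆ (closure U)ᶜ := by
      intro x hx
      apply hb₂
      rw [mem_ball_iff_norm] at hx ⊢
      have h3 : ‖x - v'‖ ≤ ‖x - Q b‖ + ‖Q b - v'‖ := norm_sub_le_norm_sub_add_norm_sub _ _ _
      linarith [min_le_right ρ₁ ρ₂]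
    have hj0 : (0 : ℝ) < 1 / ((j : ℝ) + 1) := by positivity
    have hQa : Q a ∈ U := hsub1 (Metric.mem_ball_self hj0)
    have hQb : Q b ∉ closure U := hsub2 (Metric.mem_ball_self hj0)
    obtain ⟨i, hi⟩ := henum (n, k, j, m)
    have h3 := hgP i (a, b)
    rw [hi] at h3
    obtain ⟨p, hp, q, hq, h4⟩ := h3 ⟨hna, hnb, fun h => hQb (subset_closure (h ▸ hQa)),
      z, c, hkz, by
        simp only
        rw [← hδ']; exact hNRz, by
        simp only
        rw [← hδ']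
        have h3 : ‖Q a - z‖ ≤ ‖Q a - u'‖ + ‖u' - z‖ := norm_sub_le_norm_sub_add_norm_sub _ _ _
        linarith, by
        simp only
        rw [← hδ']
        have h3 : ‖Q b - z‖ ≤ ‖Q b - v'‖ + ‖v' - z‖ := norm_sub_le_norm_sub_add_norm_sub _ _ _
        linarith⟩ U hsub1 (fun x hx hxU => hsub2 hx (subset_closure hxU))
    refine ⟨p, hp, q, hq, lt_of_le_of_lt ?_ h4⟩
    apply mul_le_mul_of_nonneg_right _ (norm_nonneg _)
    simp only
    linarith
  · push Not at hcross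
    set Q' : Set X := {x | x ∈ C ∧ NR C F x ∧ x ∈ closure U} with hQ
    have hUQ : U ⊆ Q' := fun x hx => ⟨hUC hx, hrig x hx, subset_closure hx⟩
    have hQo : IsOpen Q' := by
      rw [isOpen_iff_mem_nhds]
      rintro x ⟨hxC, hxN, hxU⟩
      obtain ⟨c, δ, hNR⟩ := hxN
      have h3 : Metric.ball x δ ⊆ closure U := by
        intro y hy
        obtain ⟨u, hu, hxu⟩ := Metric.mem_closure_iff.1 hxU δ hNR.1
        by_contra hyU
        rw [mem_ball_iff_norm] at hy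
        rw [dist_comm, dist_eq_norm] at hxu
        have := hcross x c δ hNR ⟨u, hu, hxu⟩ y hyU
        linarith
      filter_upwards [hC.mem_nhds hxC, isOpen_NR.mem_nhds (show x ∈ {x | NR C F x} from
        ⟨c, δ, hNR⟩), Metric.ball_mem_nhds x hNR.1] with y h4 h5 h6
      exact ⟨h4, h5, h3 h6⟩
    have hQU : Q' ⊆ closure U := fun x hx => hx.2.2
    have hfr : frontier Q' ⊆ frontier U := by
      intro p hp
      rw [hQo.frontier_eq] at hp
      rw [hU.frontier_eq]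
      exact ⟨closure_minimal hQU isClosed_closure hp.1, fun h => hp.2 (hUQ h)⟩
    refine Good.mono ?_ hfr
    by_cases hCQ : C ⊆ Q'
    · have : Q' = C := Subset.antisymm (fun x hx => hx.1) hCQ
      rw [this]
      intro l h0 h1
      obtain ⟨p, hp, q, hq, h3⟩ := hFG l h0 h1
      exact ⟨p, hp, q, hq, by rw [hgF p hp, hgF q hq]; exact h3⟩
    · obtain ⟨y, hyC, hyQ⟩ := not_subset.1 hCQ
      obtain ⟨x, hx⟩ := hUne
      obtain ⟨p, hpC, hp⟩ := exists_frontier_preconn hCc (hUC hx) (hUQ hx) hyC hyQ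
      refine rigid_three hC hg hgF hQo (fun x hx => hx.1) hp hpC ?_
      intro z hz hzC hzN
      rw [hQo.frontier_eq] at hz
      exact hz.2 ⟨hzC, hzN, closure_minimal hQU isClosed_closure hz.1⟩

end Pool.Agent.W2helper13.Am
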