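import Mathlib
import Pool.Agent.W2helper13.Am.Core

/-!
# Wild short extensions: one-dimensional domain
-/

set_option autoImplicit false

namespace Pool.Agent.W2helper13.Am

open Set Filter Topology

universe u v w

variable {X : Type u} [NormedAddCommGroup X] [InnerProductSpace ℝ X]
  {H : Type v} [NormedAddCommGroup H] [InnerProductSpace ℝ H]

/-- Frontier points of a connected open set on one side of a point of it are unique. -/
lemma line_unique {C : Set X} (hC : IsOpen C) (hCc : IsPreconnected C) {e : X}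
    (hspan : ∀ x : X, x = (inner ℝ e x : ℝ) • e) {x p p' : X} (hx : x ∈ C)
    (hp : p ∈ frontier C) (hp' : p' ∈ frontier C) (h' : (inner ℝ e p' : ℝ) < inner ℝ e x)
    (hlt : (inner ℝ e p : ℝ) < inner ℝ e p') : False := by
  have hcont : Continuous fun z : X => (inner ℝ e z : ℝ) := by fun_prop
  rw [hC.frontier_eq] at hp hp'
  obtain ⟨c, hcC, hc⟩ : ∃ c ∈ C, (inner ℝ e c : ℝ) < inner ℝ e p' := by
    have := mem_closure_iff.1 hp.1 {z | (inner ℝ e z : ℝ) < inner ℝ e p'}
      (isOpen_lt hcont continuous_const) hlt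
    obtain ⟨c, hc1, hc2⟩ := this
    exact ⟨c, hc2, hc1⟩
  have hconn : IsPreconnected ((fun z : X => (inner ℝ e z : ℝ)) '' C) :=
    hCc.image _ hcont.continuousOn
  have hord := hconn.ordConnected
  have hmem : (inner ℝ e p' : ℝ) ∈ (fun z : X => (inner ℝ e z : ℝ)) '' C :=
    hord.out ⟨c, hcC, rfl⟩ ⟨x, hx, rfl⟩ ⟨hc.le, h'.le⟩
  obtain ⟨z, hz, hz2⟩ := hmem
  simp only at hz2
  apply hp'.2
  rw [hspan p', ← hz2, ← hspan z]
  exact hz

lemma line_norm {e : X} (he : ‖e‖ = 1) (hspan : ∀ x : X, x = (inner ℝ e x : ℝ) • e) (x y : X) :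
    ‖x - y‖ = |(inner ℝ e x : ℝ) - inner ℝ e y| := by
  conv_lhs => rw [hspan x, hspan y]
  rw [← sub_smul, norm_smul, he, mul_one, Real.norm_eq_abs]

lemma line_inj {e : X} (hspan : ∀ x : X, x = (inner ℝ e x : ℝ) • e) {x y : X}
    (h : (inner ℝ e x : ℝ) = inner ℝ e y) : x = y := by
  rw [hspan x, hspan y, h]

theorem core_one [CompleteSpace H] {C : Set X} (hC : IsOpen C)
    (hCc : IsPreconnected C) {F : X → H} (hF : Short F) (hFG : Good (frontier C) F)
    {e : X} (he : ‖e‖ = 1) (hspan : ∀ x : X, x = (inner ℝ e x : ℝ) • e) :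
    ∃ g : X → H, Short g ∧ (∀ y ∈ frontier C, g y = F y) ∧
      ∀ U : Set X, IsOpen U → U.Nonempty → U ⊆ C → Good (frontier U) g := by
  refine ⟨F, hF, fun _ _ => rfl, ?_⟩
  rintro U hU ⟨x, hx⟩ hUC
  refine rigid_one hC hF (fun _ _ => rfl) hU hUC hx ?_
  rintro ⟨c, δ, hδ, hc⟩
  have hxC := hUC hx
  have hne' : ∀ p ∈ frontier C, (inner ℝ e p : ℝ) ≠ inner ℝ e x := by
    intro p hp h
    rw [hC.frontier_eq] at hp
    exact hp.2 (line_inj hspan h ▸ hxC)
  -- the opposite unit vector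
  have hspan' : ∀ x : X, x = (inner ℝ (-e) x : ℝ) • (-e) := by
    intro x
    rw [inner_neg_left, neg_smul, smul_neg, neg_neg]
    exact hspan x
  have hleft : ∀ p ∈ frontier C, ∀ p' ∈ frontier C, (inner ℝ e p : ℝ) < inner ℝ e x →
      (inner ℝ e p' : ℝ) < inner ℝ e x → p = p' := by
    intro p hp p' hp' h h'
    apply line_inj hspan
    rcases lt_trichotomy (inner ℝ e p : ℝ) (inner ℝ e p') with h1 | h1 | h1
    · exact (line_unique hC hCc hspan hxC hp hp' h' h1).elim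
    · exact h1
    · exact (line_unique hC hCc hspan hxC hp' hp h h1).elim
  have hright : ∀ p ∈ frontier C, ∀ p' ∈ frontier C, (inner ℝ e x : ℝ) < inner ℝ e p →
      (inner ℝ e x : ℝ) < inner ℝ e p' → p = p' := by
    intro p hp p' hp' h h'
    apply line_inj hspan
    rcases lt_trichotomy (inner ℝ e p : ℝ) (inner ℝ e p') with h1 | h1 | h1
    · refine (line_unique hC hCc hspan' hxC hp' hp ?_ ?_).elim
      · rw [inner_neg_left, inner_neg_left]; linarith
      · rw [inner_neg_left, inner_neg_left]; linarith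
    · exact h1
    · refine (line_unique hC hCc hspan' hxC hp hp' ?_ ?_).elim
      · rw [inner_neg_left, inner_neg_left]; linarith
      · rw [inner_neg_left, inner_neg_left]; linarith
  -- pairs
  have hpair : ∀ p ∈ frontier C, ∀ q ∈ frontier C, p ≠ q → ‖F p - F q‖ ≤ ‖p - q‖ - 2 * δ := by
    intro p hp q hq hpq
    have h1 := hc p hp
    have h2 := hc q hq
    have h3 : ‖F p - F q‖ ≤ ‖F p - c‖ + ‖F q - c‖ := by
      have : F p - F q = (F p - c) - (F q - c) := by abel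
      rw [this]
      exact norm_sub_le _ _
    have h4 : ‖x - p‖ + ‖x - q‖ = ‖p - q‖ := by
      rw [line_norm he hspan, line_norm he hspan, line_norm he hspan]
      rcases lt_or_gt_of_ne (hne' p hp) with a1 | a1 <;>
        rcases lt_or_gt_of_ne (hne' q hq) with a2 | a2
      · exact absurd (hleft p hp q hq a1 a2) hpq
      · rw [abs_of_pos (by linarith), abs_of_neg (by linarith), abs_of_neg (by linarith)]
        ring
      · rw [abs_of_neg (by linarith), abs_of_pos (by linarith), abs_of_pos (by linarith)]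
        ring
      · exact absurd (hright p hp q hq a1 a2) hpq
    linarith
  obtain ⟨p₀, hp₀, q₀, hq₀, h0⟩ := hFG 0 le_rfl one_pos
  rw [zero_mul] at h0
  have hpq₀ : p₀ ≠ q₀ := by
    rintro rfl
    rw [sub_self, norm_zero] at h0
    exact lt_irrefl _ h0
  have hD : 0 < ‖p₀ - q₀‖ := norm_pos_iff.2 (sub_ne_zero.2 hpq₀)
  have h00 := hpair p₀ hp₀ q₀ hq₀ hpq₀
  have hδD : δ / ‖p₀ - q₀‖ < 1 := by
    rw [div_lt_one hD]
    linarith
  obtain ⟨p, hp, q, hq, h1⟩ := hFG (1 - δ / ‖p₀ - q₀‖) (by linarith) (by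
    have : 0 < δ / ‖p₀ - q₀‖ := by positivity
    linarith)
  have hpq : p ≠ q := by
    rintro rfl
    rw [sub_self, sub_self, norm_zero, norm_zero, mul_zero] at h1
    exact lt_irrefl _ h1
  have h2 := hpair p hp q hq hpq
  have hsame : ‖p - q‖ = ‖p₀ - q₀‖ := by
    rcases lt_or_gt_of_ne (hne' p hp) with a1 | a1 <;>
      rcases lt_or_gt_of_ne (hne' q hq) with a2 | a2
    · exact absurd (hleft p hp q hq a1 a2) hpq
    · rcases lt_or_gt_of_ne (hne' p₀ hp₀) with b1 | b1 <;>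
        rcases lt_or_gt_of_ne (hne' q₀ hq₀) with b2 | b2
      · exact absurd (hleft p₀ hp₀ q₀ hq₀ b1 b2) hpq₀
      · rw [hleft p hp p₀ hp₀ a1 b1, hright q hq q₀ hq₀ a2 b2]
      · rw [hleft p hp q₀ hq₀ a1 b2, hright q hq p₀ hp₀ a2 b1, norm_sub_rev]
      · exact absurd (hright p₀ hp₀ q₀ hq₀ b1 b2) hpq₀
    · rcases lt_or_gt_of_ne (hne' p₀ hp₀) with b1 | b1 <;>
        rcases lt_or_gt_of_ne (hne' q₀ hq₀) with b2 | b2
      · exact absurd (hleft p₀ hp₀ q₀ hq₀ b1 b2) hpq₀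
      · rw [hright p hp q₀ hq₀ a1 b2, hleft q hq p₀ hp₀ a2 b1, norm_sub_rev]
      · rw [hright p hp p₀ hp₀ a1 b1, hleft q hq q₀ hq₀ a2 b2]
      · exact absurd (hright p₀ hp₀ q₀ hq₀ b1 b2) hpq₀
    · exact absurd (hright p hp q hq a1 a2) hpq
  rw [hsame] at h1 h2
  have h3 : (1 - δ / ‖p₀ - q₀‖) * ‖p₀ - q₀‖ = ‖p₀ - q₀‖ - δ := by
    field_simp
  linarith

end Pool.Agent.W2helper13.Am
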