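import Mathlib
import Pool.Agent.W2helper13.Am.Brehm

/-!
# Absolutely minimal extensions of real functions on normed spaces
-/

set_option autoImplicit false

namespace Pool.Agent.W2helper13.Am

open Set Filter Topology

universe u v w

section scalar

variable {X : Type u} [NormedAddCommGroup X] [NormedSpace ℝ X]

/-- Lipschitz bound on a set. -/
def LB (v : X → ℝ) (S : Set X) (ℓ : ℝ) : Prop := ∀ p ∈ S, ∀ q ∈ S, |v p - v q| ≤ ℓ * ‖p - q‖

/-- One sided absolute minimality. -/
def Sub (C : Set X) (v : X → ℝ) : Prop :=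
  ∀ V : Set X, IsOpen V → V ⊆ C → ∀ ℓ : ℝ, 0 ≤ ℓ → LB v (frontier V) ℓ →
    ∀ x ∈ V, ∀ z ∈ frontier V, v x ≤ v z + ℓ * ‖x - z‖

lemma cone_diff {z p q : X} {ℓ : ℝ} (hℓ : 0 ≤ ℓ) : ℓ * ‖p - z‖ ≤ ℓ * ‖q - z‖ + ℓ * ‖p - q‖ := by
  rw [← mul_add]
  refine mul_le_mul_of_nonneg_left ?_ hℓ
  rw [add_comm]
  exact norm_sub_le_norm_sub_add_norm_sub _ _ _

/-- Comparison with cones from above. -/
lemma compare {C : Set X} {v : X → ℝ} (hc : Continuous v) (hv : Sub C v) {V : Set X}
    (hV : IsOpen V) (hVC : V ⊆ C) {z : X} (hz : z ∉ V) {a ℓ : ℝ} (hℓ : 0 ≤ ℓ)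
    (h : ∀ p ∈ frontier V, v p ≤ a + ℓ * ‖p - z‖) : ∀ x ∈ V, v x ≤ a + ℓ * ‖x - z‖ := by
  intro x₀ hx₀
  by_contra hcon
  push Not at hcon
  obtain ⟨ε, hε, hεx⟩ : ∃ ε > 0, a + ℓ * ‖x₀ - z‖ + ε < v x₀ := by
    refine ⟨(v x₀ - (a + ℓ * ‖x₀ - z‖)) / 2, by linarith, by linarith⟩
  have hk : Continuous fun x : X => a + ℓ * ‖x - z‖ + ε := by fun_prop
  set W : Set X := {x | x ∈ V ∧ a + ℓ * ‖x - z‖ + ε < v x} with hW
  have hWo : IsOpen W := hV.inter (isOpen_lt hk hc)
  have hxW : x₀ ∈ W := ⟨hx₀, hεx⟩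
  have hWV : W ⊆ V := fun x hx => hx.1
  have hfr : ∀ p ∈ frontier W, v p = a + ℓ * ‖p - z‖ + ε := by
    intro p hp
    rw [hWo.frontier_eq] at hp
    have h1 : a + ℓ * ‖p - z‖ + ε ≤ v p := by
      have : closure W ⊆ {x | a + ℓ * ‖x - z‖ + ε ≤ v x} :=
        closure_minimal (fun x hx => hx.2.le) (isClosed_le hk hc)
      exact this hp.1
    have hpV : p ∈ V := by
      by_contra hpV
      have : p ∈ frontier V := by
        rw [hV.frontier_eq]
        exact ⟨closure_mono hWV hp.1, hpV⟩
      linarith [h p this]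
    apply le_antisymm _ h1
    by_contra hlt
    push Not at hlt
    exact hp.2 ⟨hpV, hlt⟩
  obtain ⟨w, hw1, hw2⟩ := exists_frontier_seg hxW (fun h => hz (hWV h))
  have e := norm_add_of_mem_seg hw1
  have h1 := hv W hWo (hWV.trans hVC) ℓ hℓ (by
    intro p hp q hq
    rw [hfr p hp, hfr q hq, abs_le]
    have h1 := cone_diff (z := z) (p := p) (q := q) hℓ
    have h2 := cone_diff (z := z) (p := q) (q := p) hℓ
    rw [norm_sub_rev q p] at h2
    constructor <;> linarith) x₀ hxW w hw2
  rw [hfr w hw2] at h1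
  have h2 : ℓ * ‖x₀ - w‖ + ℓ * ‖w - z‖ = ℓ * ‖x₀ - z‖ := by rw [← mul_add, e]
  have := hxW.2
  linarith

/-- Negative cones. -/
lemma sub_cone {C : Set X} {y : X} (hy : y ∉ C) (b : ℝ) {L : ℝ} (hL : 0 ≤ L) :
    Sub C fun x => b - L * ‖x - y‖ := by
  intro V hV hVC ℓ hℓ hlb x hx z hz
  simp only
  have hLip : ∀ p q : X, (b - L * ‖p - y‖) ≤ (b - L * ‖q - y‖) + L * ‖p - q‖ := by
    intro p q
    have := cone_diff (z := y) (p := q) (q := p) hL
    rw [norm_sub_rev q p] at this
    linarith
  rcases le_or_gt ℓ L with h | h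
  · obtain ⟨w, hw1, hw2⟩ := exists_frontier_seg hx (fun h => hy (hVC h))
    have e := norm_add_of_mem_seg hw1
    have h1 := (abs_le.1 (hlb w hw2 z hz)).2
    simp only at h1
    have h2 : L * ‖x - w‖ + L * ‖w - y‖ = L * ‖x - y‖ := by rw [← mul_add, e]
    have h3 : ℓ * ‖w - z‖ ≤ ℓ * ‖x - z‖ + ℓ * ‖w - x‖ := cone_diff hℓ
    have h4 : ℓ * ‖w - x‖ ≤ L * ‖x - w‖ := by
      rw [norm_sub_rev]
      exact mul_le_mul_of_nonneg_right h (norm_nonneg _)
    linarith
  · have h1 := hLip x z
    have h2 : L * ‖x - z‖ ≤ ℓ * ‖x - z‖ := mul_le_mul_of_nonneg_right h.le (norm_nonneg _)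
    linarith

/-- The Perron class. -/
def Cls (C : Set X) (f : X → ℝ) (L : ℝ) : Set (X → ℝ) :=
  {v | (∀ x y, |v x - v y| ≤ L * ‖x - y‖) ∧ (∀ p ∈ frontier C, v p ≤ f p) ∧ Sub C v}

lemma cont_of_lip {v : X → ℝ} {L : ℝ} (h : ∀ x y, |v x - v y| ≤ L * ‖x - y‖) : Continuous v := by
  have : LipschitzWith (Real.toNNReal L) v := LipschitzWith.of_dist_le_mul fun x y => by
    rw [dist_eq_norm, dist_eq_norm, Real.norm_eq_abs]
    refine (h x y).trans (mul_le_mul_of_nonneg_right (Real.le_coe_toNNReal L) (norm_nonneg _))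
  exact this.continuous

/-- Existence for real functions. -/
theorem scalar_core {C : Set X} (hC : IsOpen C) (hne : (frontier C).Nonempty) (f : X → ℝ) {L : ℝ}
    (hL : 0 ≤ L) (hf : LB f (frontier C) L) :
    ∃ u : X → ℝ, (∀ x y, |u x - u y| ≤ L * ‖x - y‖) ∧ (∀ p ∈ frontier C, u p = f p) ∧
      ∀ V : Set X, IsOpen V → V ⊆ C → ∀ ℓ : ℝ, 0 ≤ ℓ → LB u (frontier V) ℓ → LB u V ℓ := by
  classical
  obtain ⟨y₀, hy₀⟩ := hne
  have hfC : ∀ p ∈ frontier C, p ∉ C := fun p hp => by
    rw [hC.frontier_eq] at hp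
    exact hp.2
  -- negative cones are in the class
  have hcone : ∀ y ∈ frontier C, (fun x => f y - L * ‖x - y‖) ∈ Cls C f L := by
    intro y hy
    refine ⟨fun p q => ?_, fun p hp => ?_, sub_cone (hfC y hy) _ hL⟩
    · simp only
      rw [abs_le]
      have h1 := cone_diff (z := y) (p := p) (q := q) hL
      have h2 := cone_diff (z := y) (p := q) (q := p) hL
      rw [norm_sub_rev q p] at h2
      constructor <;> linarith
    · have := (abs_le.1 (hf y hy p hp)).2
      rw [norm_sub_rev] at this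
      linarith
  have hub : ∀ v ∈ Cls C f L, ∀ x, v x ≤ f y₀ + L * ‖x - y₀‖ := by
    intro v hv x
    have h1 := (abs_le.1 (hv.1 x y₀)).2
    have h2 := hv.2.1 y₀ hy₀
    linarith
  have hneC : Nonempty (Cls C f L) := ⟨⟨_, hcone y₀ hy₀⟩⟩
  obtain ⟨u, hu⟩ : ∃ u : X → ℝ, ∀ x, u x = ⨆ v : Cls C f L, (v : X → ℝ) x := ⟨_, fun x => rfl⟩
  have hbdd : ∀ x, BddAbove (Set.range fun v : Cls C f L => (v : X → ℝ) x) := fun x =>
    ⟨f y₀ + L * ‖x - y₀‖, by rintro _ ⟨v, rfl⟩; exact hub v v.2 x⟩
  have hle : ∀ v ∈ Cls C f L, ∀ x, v x ≤ u x := fun v hv x => by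
    rw [hu]
    exact le_ciSup (hbdd x) ⟨v, hv⟩
  have hleast : ∀ x (a : ℝ), (∀ v ∈ Cls C f L, v x ≤ a) → u x ≤ a := fun x a h => by
    rw [hu]
    exact ciSup_le fun v => h v v.2
  have huL : ∀ x y, |u x - u y| ≤ L * ‖x - y‖ := by
    have key : ∀ x y, u x ≤ u y + L * ‖x - y‖ := by
      intro x y
      refine hleast x _ fun v hv => ?_
      have h1 := (abs_le.1 (hv.1 x y)).2
      have h2 := hle v hv y
      linarith
    intro x y
    rw [abs_le]
    have h1 := key x y
    have h2 := key y x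
    rw [norm_sub_rev] at h2
    constructor <;> linarith
  have huc := cont_of_lip huL
  have huf : ∀ p ∈ frontier C, u p = f p := by
    intro p hp
    apply le_antisymm
    · exact hleast p _ fun v hv => hv.2.1 p hp
    · have := hle _ (hcone p hp) p
      simp only [sub_self, norm_zero, mul_zero, sub_zero] at this
      exact this
  have huS : Sub C u := by
    intro V hV hVC ℓ hℓ hlb x hx z hz
    have hzV : z ∉ V := by
      rw [hV.frontier_eq] at hz
      exact hz.2
    refine hleast x _ fun v hv => ?_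
    refine compare (cont_of_lip hv.1) hv.2.2 hV hVC hzV hℓ (fun p hp => ?_) x hx
    have h1 := hle v hv p
    have h2 := (abs_le.1 (hlb p hp z hz)).2
    linarith
  -- the other side
  have huP : ∀ V : Set X, IsOpen V → V ⊆ C → ∀ ℓ : ℝ, 0 ≤ ℓ → LB u (frontier V) ℓ →
      ∀ x ∈ V, ∀ z ∈ frontier V, u z - ℓ * ‖x - z‖ ≤ u x := by
    intro V hV hVC ℓ hℓ hlb x₀ hx₀ z hz
    rcases le_or_gt L ℓ with hLℓ | hℓL
    · have h1 := (abs_le.1 (huL x₀ z)).1
      have h2 : L * ‖x₀ - z‖ ≤ ℓ * ‖x₀ - z‖ := mul_le_mul_of_nonneg_right hLℓ (norm_nonneg _)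
      linarith
    by_contra hcon
    push Not at hcon
    have hzV : z ∉ V := by
      rw [hV.frontier_eq] at hz
      exact hz.2
    obtain ⟨c, hc⟩ : ∃ c : X → ℝ, ∀ x, c x = u z - ℓ * ‖x - z‖ := ⟨_, fun x => rfl⟩
    have hcc : Continuous c := by
      have : c = fun x => u z - ℓ * ‖x - z‖ := funext hc
      rw [this]; fun_prop
    have hcL : ∀ p q, c p ≤ c q + ℓ * ‖p - q‖ := by
      intro p q
      rw [hc, hc]
      have := cone_diff (z := z) (p := q) (q := p) hℓ
      rw [norm_sub_rev q p] at this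
      linarith
    set W : Set X := {x | x ∈ V ∧ u x < c x} with hW
    have hWo : IsOpen W := hV.inter (isOpen_lt huc hcc)
    have hWV : W ⊆ V := fun x hx => hx.1
    have hxW : x₀ ∈ W := ⟨hx₀, by rw [hc]; exact hcon⟩
    have hfr : ∀ p ∈ frontier W, u p = c p := by
      intro p hp
      rw [hWo.frontier_eq] at hp
      have h1 : u p ≤ c p := by
        have : closure W ⊆ {x | u x ≤ c x} :=
          closure_minimal (fun x hx => hx.2.le) (isClosed_le huc hcc)
        exact this hp.1
      apply le_antisymm h1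
      by_cases hpV : p ∈ V
      · by_contra hlt
        push Not at hlt
        exact hp.2 ⟨hpV, hlt⟩
      · have hpV' : p ∈ frontier V := by
          rw [hV.frontier_eq]
          exact ⟨closure_mono hWV hp.1, hpV⟩
        have h2 := (abs_le.1 (hlb p hpV' z hz)).1
        rw [hc]
        linarith
    obtain ⟨u', hu'⟩ : ∃ u' : X → ℝ, ∀ x, u' x = if x ∈ W then c x else u x := ⟨_, fun x => rfl⟩
    have hu'W : ∀ x ∈ W, u' x = c x := fun x hx => by rw [hu', if_pos hx]
    have hu'N : ∀ x, x ∉ W → u' x = u x := fun x hx => by rw [hu', if_neg hx]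
    have hu'cl : ∀ x ∈ closure W, u' x = c x := by
      intro x hx
      by_cases hxW : x ∈ W
      · exact hu'W x hxW
      · rw [hu'N x hxW]
        apply hfr
        rw [hWo.frontier_eq]
        exact ⟨hx, hxW⟩
    have huu' : ∀ x, u x ≤ u' x := by
      intro x
      by_cases hxW : x ∈ W
      · rw [hu'W x hxW]; exact hxW.2.le
      · rw [hu'N x hxW]
    have hu'mem : u' ∈ Cls C f L := by
      refine ⟨?_, ?_, ?_⟩
      · -- Lipschitz
        have hcL' : ∀ p q, |c p - c q| ≤ L * ‖p - q‖ := by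
          intro p q
          have h1 := hcL p q
          have h2 := hcL q p
          rw [norm_sub_rev q p] at h2
          have h3 : ℓ * ‖p - q‖ ≤ L * ‖p - q‖ := mul_le_mul_of_nonneg_right hℓL.le (norm_nonneg _)
          rw [abs_le]
          constructor <;> linarith
        have key : ∀ x y, x ∈ W → y ∉ W → |u' x - u' y| ≤ L * ‖x - y‖ := by
          intro x y hx hy
          obtain ⟨w, hw1, hw2⟩ := exists_frontier_seg hx hy
          have e := norm_add_of_mem_seg hw1
          rw [hu'W x hx, hu'N y hy]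
          have h1 := hcL' x w
          have h2 := huL w y
          rw [hfr w hw2] at h2
          calc |c x - u y| ≤ |c x - c w| + |c w - u y| := abs_sub_le _ _ _
            _ ≤ L * ‖x - w‖ + L * ‖w - y‖ := add_le_add h1 h2
            _ = L * ‖x - y‖ := by rw [← mul_add, e]
        intro x y
        by_cases hx : x ∈ W
        · by_cases hy : y ∈ W
          · rw [hu'W x hx, hu'W y hy]
            exact hcL' x y
          · exact key x y hx hy
        · by_cases hy : y ∈ W
          · rw [abs_sub_comm, norm_sub_rev]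
            exact key y x hy hx
          · rw [hu'N x hx, hu'N y hy]
            exact huL x y
      · intro p hp
        rw [hu'N p (fun h => hfC p hp (hVC (hWV h))), huf p hp]
      · -- one sided minimality
        intro V' hV' hVC' ℓ' hℓ' hlb' x₁ hx₁ z' hz'
        have hzV' : z' ∉ V' := by
          rw [hV'.frontier_eq] at hz'
          exact hz'.2
        obtain ⟨k, hk⟩ : ∃ k : X → ℝ, ∀ x, k x = u' z' + ℓ' * ‖x - z'‖ := ⟨_, fun x => rfl⟩
        have hkc : Continuous k := by
          have : k = fun x => u' z' + ℓ' * ‖x - z'‖ := funext hk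
          rw [this]; fun_prop
        have hkL : ∀ p q, k p ≤ k q + ℓ' * ‖p - q‖ := by
          intro p q
          rw [hk, hk]
          have := cone_diff (z := z') (p := p) (q := q) hℓ'
          linarith
        have hkfr : ∀ p ∈ frontier V', u' p ≤ k p := by
          intro p hp
          have h2 := (abs_le.1 (hlb' p hp z' hz')).2
          rw [hk]
          linarith
        have hstep1 : ∀ x ∈ V', u x ≤ k x := by
          intro x hx
          have := compare huc huS hV' hVC' hzV' hℓ' (a := u' z') (fun p hp => by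
            have h1 := hkfr p hp
            rw [hk] at h1
            exact (huu' p).trans h1) x hx
          rw [hk]
          exact this
        rw [← hk]
        by_contra hcon'
        push Not at hcon'
        have hx₁W : x₁ ∈ W := by
          by_contra h
          rw [hu'N x₁ h] at hcon'
          linarith [hstep1 x₁ hx₁]
        rw [hu'W x₁ hx₁W] at hcon'
        obtain ⟨ε, hε, hεx⟩ : ∃ ε > 0, k x₁ + ε < c x₁ :=
          ⟨(c x₁ - k x₁) / 2, by linarith, by linarith⟩
        set W' : Set X := {x | x ∈ V' ∧ x ∈ W ∧ k x + ε < c x} with hW'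
        have hW'o : IsOpen W' := hV'.inter (hWo.inter (isOpen_lt (by fun_prop) hcc))
        have hx₁W' : x₁ ∈ W' := ⟨hx₁, hx₁W, hεx⟩
        have hfr' : ∀ p ∈ frontier W', c p = k p + ε := by
          intro p hp
          rw [hW'o.frontier_eq] at hp
          have h1 : k p + ε ≤ c p := by
            have : closure W' ⊆ {x | k x + ε ≤ c x} :=
              closure_minimal (fun x hx => hx.2.2.le) (isClosed_le (by fun_prop) hcc)
            exact this hp.1
          have hpW : p ∈ closure W := closure_mono (fun x hx => hx.2.1) hp.1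
          have hpV' : p ∈ closure V' := closure_mono (fun x hx => hx.1) hp.1
          have hpV'' : p ∈ V' := by
            by_contra h
            have h2 := hkfr p (by rw [hV'.frontier_eq]; exact ⟨hpV', h⟩)
            rw [hu'cl p hpW] at h2
            linarith
          have hpW' : p ∈ W := by
            by_contra h
            have h2 := hfr p (by rw [hWo.frontier_eq]; exact ⟨hpW, h⟩)
            have h3 := hstep1 p hpV''
            linarith
          apply le_antisymm _ h1
          by_contra hlt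
          push Not at hlt
          exact hp.2 ⟨hpV'', hpW', hlt⟩
        -- exit towards `z`
        obtain ⟨w, hw1, hw2⟩ := exists_frontier_seg hx₁W' (fun h : z ∈ W' => hzV (hWV h.2.1))
        have e := norm_add_of_mem_seg hw1
        have h1 : c w = c x₁ + ℓ * ‖x₁ - w‖ := by
          rw [hc, hc, ← e]; ring
        have h2 := hkL w x₁
        rw [norm_sub_rev w x₁] at h2
        have h3 := hfr' w hw2
        have h4 : ℓ * ‖x₁ - w‖ < ℓ' * ‖x₁ - w‖ := by linarith
        have h5 : ℓ < ℓ' := lt_of_mul_lt_mul_right h4 (norm_nonneg _)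
        -- exit towards `z'`
        obtain ⟨w', hw1', hw2'⟩ := exists_frontier_seg hx₁W' (fun h : z' ∈ W' => hzV' h.1)
        have e' := norm_add_of_mem_seg hw1'
        have h6 : k x₁ = k w' + ℓ' * ‖x₁ - w'‖ := by
          rw [hk, hk, ← e']; ring
        have h7 := hcL x₁ w'
        have h8 := hfr' w' hw2'
        have h9 : ℓ' * ‖x₁ - w'‖ < ℓ * ‖x₁ - w'‖ := by linarith
        have h10 : ℓ' < ℓ := lt_of_mul_lt_mul_right h9 (norm_nonneg _)
        linarith
    have h1 := hle u' hu'mem x₀
    rw [hu'W x₀ hxW] at h1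
    have h2 := hxW.2
    linarith
  refine ⟨u, huL, huf, ?_⟩
  intro V hV hVC ℓ hℓ hlb
  have key : ∀ x ∈ V, ∀ y ∈ V, u y ≤ u x + ℓ * ‖y - x‖ := by
    intro x hx y hy
    rcases eq_or_ne y x with rfl | hyx
    · simp
    · have hV1 : IsOpen (V \ {x}) := hV.sdiff isClosed_singleton
      refine compare huc huS hV1 (sdiff_subset.trans hVC) (z := x) (fun h => h.2 rfl) hℓ
        (fun p hp => ?_) y ⟨hy, hyx⟩
      have hpcl : p ∈ closure V := closure_mono sdiff_subset hp.1
      by_cases hpx : p = x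
      · rw [hpx]; simp
      · have hpV : p ∈ frontier V := by
          rw [hV.frontier_eq]
          refine ⟨hpcl, fun h => ?_⟩
          rw [hV1.frontier_eq] at hp
          exact hp.2 ⟨h, hpx⟩
        have := huP V hV hVC ℓ hℓ hlb x hx p hpV
        rw [norm_sub_rev x p] at this
        linarith
  intro x hx y hy
  rw [abs_le]
  have h1 := key x hx y hy
  have h2 := key y hy x hx
  rw [norm_sub_rev y x] at h1
  constructor <;> linarith

end scalar

end Pool.Agent.W2helper13.Am
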