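import Mathlib
import Pool.Agent.W2helper13.Am.One
import Pool.Agent.W2helper13.Am.Scalar
import Pool.Agent.W2helper13.Am.Reduce

/-!
# Absolutely minimal Lipschitz extensions: assembling the cases
-/

set_option autoImplicit false

namespace Pool.Agent.W2helper13.Am

open Set Filter Topology
open scoped ENNReal NNReal

universe u v w

variable {X : Type u} [NormedAddCommGroup X] [InnerProductSpace ℝ X]
  {H : Type v} [NormedAddCommGroup H] [InnerProductSpace ℝ H] [CompleteSpace H]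

/-- Separable domain. -/
theorem wild_separable [TopologicalSpace.SeparableSpace X] {h1 h2 : H} (n1 : ‖h1‖ = 1)
    (n2 : ‖h2‖ = 1) (n12 : inner ℝ h1 h2 = 0) : WildExt X H := by
  intro C hC hCc F hF hFG
  by_cases hX : ∀ e : X, ‖e‖ = 1 → ∃ w : X, ‖w‖ = 1 ∧ inner ℝ e w = 0
  · exact core hC hCc hF hFG hX n1 n2 n12
  · push Not at hX
    obtain ⟨e, he, hno⟩ := hX
    refine core_one hC hCc hF hFG he fun x => ?_
    by_contra hne
    have h0 : x - (inner ℝ e x : ℝ) • e ≠ 0 := sub_ne_zero.2 hne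
    have hpos : 0 < ‖x - (inner ℝ e x : ℝ) • e‖ := norm_pos_iff.2 h0
    apply hno (‖x - (inner ℝ e x : ℝ) • e‖⁻¹ • (x - (inner ℝ e x : ℝ) • e))
    · rw [norm_smul, norm_inv, norm_norm, inv_mul_cancel₀ hpos.ne']
    · rw [real_inner_smul_right, inner_sub_right, real_inner_smul_right,
        real_inner_self_eq_norm_sq, he]
      ring

omit [CompleteSpace H] in
/-- Two orthonormal vectors. -/
lemma exists_two (h : ¬ Module.rank ℝ H ≤ 1) :
    ∃ h1 h2 : H, ‖h1‖ = 1 ∧ ‖h2‖ = 1 ∧ inner ℝ h1 h2 = 0 := by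
  rw [rank_le_one_iff] at h
  push Not at h
  obtain ⟨v, hv⟩ := h 0
  have hv0 : v ≠ 0 := by
    rintro rfl
    exact hv 0 (by simp)
  have hvp : 0 < ‖v‖ := norm_pos_iff.2 hv0
  obtain ⟨x, hx⟩ := h v
  set e : H := ‖v‖⁻¹ • v with he
  have hen : ‖e‖ = 1 := by
    rw [he, norm_smul, norm_inv, norm_norm, inv_mul_cancel₀ hvp.ne']
  have h0 : x - (inner ℝ e x : ℝ) • e ≠ 0 := by
    intro h0
    apply hx ((inner ℝ e x : ℝ) * ‖v‖⁻¹)
    rw [← smul_smul, ← he]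
    exact (sub_eq_zero.1 h0).symm
  have hpos : 0 < ‖x - (inner ℝ e x : ℝ) • e‖ := norm_pos_iff.2 h0
  refine ⟨e, ‖x - (inner ℝ e x : ℝ) • e‖⁻¹ • (x - (inner ℝ e x : ℝ) • e), hen, ?_, ?_⟩
  · rw [norm_smul, norm_inv, norm_norm, inv_mul_cancel₀ hpos.ne']
  · rw [real_inner_smul_right, inner_sub_right, real_inner_smul_right,
      real_inner_self_eq_norm_sq, hen]
    ring

omit [CompleteSpace H] in
/-- One-dimensional target. -/
lemma amle_scalar (h : Module.rank ℝ H ≤ 1) {Y : Set X} (hY : IsClosed Y) (hYne : Y.Nonempty)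
    {f : X → H} {K₀ : ℝ} (hK₀ : 0 ≤ K₀)
    (hf : ∀ x ∈ Y, ∀ y ∈ Y, ‖f x - f y‖ ≤ K₀ * ‖x - y‖) :
    ∃ g : X → H, (∀ y ∈ Y, g y = f y) ∧ ∀ U : Set X, IsOpen U → U ⊆ Yᶜ → ∀ K : ℝ, 0 ≤ K →
      (∀ p ∈ frontier U, ∀ q ∈ frontier U, ‖g p - g q‖ ≤ K * ‖p - q‖) →
        ∀ x ∈ U, ∀ y ∈ U, ‖g x - g y‖ ≤ K * ‖x - y‖ := by
  classical
  rw [rank_le_one_iff] at h
  obtain ⟨v, hv⟩ := h
  rcases eq_or_ne v 0 with rfl | hv0
  · have hall : ∀ x : H, x = 0 := fun x => by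
      obtain ⟨r, hr⟩ := hv x
      rw [← hr, smul_zero]
    refine ⟨fun _ => 0, fun y _ => (hall _).symm, fun U _ _ K hK _ x _ y _ => ?_⟩
    rw [sub_self, norm_zero]
    positivity
  have hvp : 0 < ‖v‖ := norm_pos_iff.2 hv0
  set e : H := ‖v‖⁻¹ • v with he
  have hen : ‖e‖ = 1 := by
    rw [he, norm_smul, norm_inv, norm_norm, inv_mul_cancel₀ hvp.ne']
  have hspan : ∀ x : H, (inner ℝ e x : ℝ) • e = x := by
    intro x
    obtain ⟨r, hr⟩ := hv x
    have h1 : x = (r * ‖v‖) • e := by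
      rw [he, smul_smul, mul_assoc, mul_inv_cancel₀ hvp.ne', mul_one, hr]
    rw [h1, real_inner_smul_right, real_inner_self_eq_norm_sq, hen]
    ring_nf
  have hnorm : ∀ a b : ℝ, ‖a • e - b • e‖ = |a - b| := by
    intro a b
    rw [← sub_smul, norm_smul, hen, mul_one, Real.norm_eq_abs]
  by_cases hYu : Y = univ
  · refine ⟨f, fun _ _ => rfl, fun U _ hU K hK _ x hx => ?_⟩
    have := hU hx
    rw [hYu] at this
    simp at this
  obtain ⟨x₀, hx₀⟩ := (ne_univ_iff_exists_notMem Y).1 hYu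
  obtain ⟨y₀, hy₀⟩ := hYne
  obtain ⟨z₀, -, hz₀⟩ := exists_frontier_seg (S := Yᶜ) (x := x₀) (y := y₀) hx₀
    (fun h => h hy₀)
  have hfr : frontier Yᶜ ⊆ Y := by
    rw [frontier_compl]
    exact hY.frontier_subset
  obtain ⟨u, hu1, hu2, hu3⟩ := scalar_core hY.isOpen_compl ⟨z₀, hz₀⟩
    (fun x => (inner ℝ e (f x) : ℝ)) hK₀ (by
      intro p hp q hq
      have h1 := hf p (hfr hp) q (hfr hq)
      rw [← hspan (f p), ← hspan (f q), hnorm] at h1
      exact h1)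
  have hg : ∀ x ∈ closure Yᶜ, (if x ∈ Y then f x else u x • e) = u x • e := by
    intro x hx
    by_cases hxY : x ∈ Y
    · rw [if_pos hxY, hu2 x (by
        rw [hY.isOpen_compl.frontier_eq]
        exact ⟨hx, fun h => h hxY⟩), hspan]
    · rw [if_neg hxY]
  refine ⟨fun x => if x ∈ Y then f x else u x • e, fun y hy => by simp only [if_pos hy],
    fun U hU hUY K hK hKU x hx y hy => ?_⟩
  have hcl : closure U ⊆ closure Yᶜ := closure_mono hUY
  simp only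
  rw [hg x (hcl (subset_closure hx)), hg y (hcl (subset_closure hy)), hnorm]
  refine hu3 U hU hUY K hK (fun p hp q hq => ?_) x hx y hy
  have h1 := hKU p hp q hq
  simp only at h1
  rw [hg p (hcl (frontier_subset_closure hp)), hg q (hcl (frontier_subset_closure hq)),
    hnorm] at h1
  exact h1

/-- The cases together. -/
theorem amle_K (hcase : Module.rank ℝ H ≤ 1 ∨ WildExt X H) {Y : Set X} (hY : IsClosed Y)
    {f : X → H} {K₀ : ℝ} (hK₀ : 0 ≤ K₀)
    (hf : ∀ x ∈ Y, ∀ y ∈ Y, ‖f x - f y‖ ≤ K₀ * ‖x - y‖) :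
    ∃ g : X → H, (∀ y ∈ Y, g y = f y) ∧ ∀ U : Set X, IsOpen U → U ⊆ Yᶜ → ∀ K : ℝ, 0 ≤ K →
      (∀ p ∈ frontier U, ∀ q ∈ frontier U, ‖g p - g q‖ ≤ K * ‖p - q‖) →
        ∀ x ∈ U, ∀ y ∈ U, ‖g x - g y‖ ≤ K * ‖x - y‖ := by
  rcases Y.eq_empty_or_nonempty with rfl | hYne
  · refine ⟨fun _ => 0, fun y hy => absurd hy (notMem_empty _), fun U _ _ K hK _ x _ y _ => ?_⟩
    rw [sub_self, norm_zero]
    positivity
  rcases hcase with h | h
  · exact amle_scalar h hY hYne hK₀ hf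
  · exact amle_of_wild h hY hYne hK₀ hf

/-- The Lipschitz constant of `g` on `S`. -/
noncomputable def LipOn {X : Type u} [MetricSpace X] {Z : Type v} [MetricSpace Z] (g : X → Z)
    (S : Set X) : ℝ≥0∞ := ⨆ (x ∈ S) (y ∈ S) (_ : x ≠ y), edist (g x) (g y) / edist x y

omit [InnerProductSpace ℝ X] [InnerProductSpace ℝ H] [CompleteSpace H] in
lemma LipOn_le_iff {g : X → H} {S : Set X} {K : ℝ≥0} :
    LipOn g S ≤ K ↔ ∀ x ∈ S, ∀ y ∈ S, ‖g x - g y‖ ≤ K * ‖x - y‖ := by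
  have h1 : ∀ x y : X, x ≠ y → (edist (g x) (g y) / edist x y ≤ (K : ℝ≥0∞) ↔
      ‖g x - g y‖ ≤ K * ‖x - y‖) := by
    intro x y hxy
    have hpos : 0 < dist x y := dist_pos.2 hxy
    rw [ENNReal.div_le_iff (edist_pos.2 hxy |>.ne') (edist_ne_top x y), edist_dist, edist_dist,
      ← ENNReal.ofReal_coe_nnreal, ← ENNReal.ofReal_mul (NNReal.coe_nonneg K), dist_eq_norm, dist_eq_norm,
      ENNReal.ofReal_le_ofReal_iff (by positivity)]
  rw [LipOn]
  simp only [iSup_le_iff]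
  constructor
  · intro h x hx y hy
    rcases eq_or_ne x y with rfl | hxy
    · simp
    · exact (h1 x y hxy).1 (h x hx y hy hxy)
  · intro h x hx y hy hxy
    exact (h1 x y hxy).2 (h x hx y hy)

/-- The final form. -/
theorem amle_final (hcase : Module.rank ℝ H ≤ 1 ∨ WildExt X H) {Y : Set X} (hY : IsClosed Y)
    (f : Y → H) {K₀ : ℝ≥0} (hf : LipschitzWith K₀ f) :
    ∃ g : X → H, (∀ y : Y, g y = f y) ∧ ∀ U : Set X, IsOpen U → U ⊆ Yᶜ →
      LipOn g U ≤ LipOn g (frontier U) := by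
  classical
  obtain ⟨g, hg1, hg2⟩ := amle_K hcase hY (f := fun x => if h : x ∈ Y then f ⟨x, h⟩ else 0)
    (K₀ := K₀) K₀.2 (by
      intro x hx y hy
      simp only [dif_pos hx, dif_pos hy]
      have := hf.dist_le_mul ⟨x, hx⟩ ⟨y, hy⟩
      rw [dist_eq_norm, Subtype.dist_eq, dist_eq_norm] at this
      exact this)
  refine ⟨g, fun y => by rw [hg1 y y.2]; simp only [dif_pos y.2], fun U hU hUY => ?_⟩
  rcases eq_or_ne (LipOn g (frontier U)) ⊤ with h | h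
  · rw [h]; exact le_top
  · lift LipOn g (frontier U) to ℝ≥0 using h with K hK
    rw [LipOn_le_iff]
    refine hg2 U hU hUY K K.2 ?_
    exact LipOn_le_iff.1 hK.ge

end Pool.Agent.W2helper13.Am
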