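import Mathlib
import Pool.Agent.W2helper13.Am.Final

/-!
# Absolutely minimal Lipschitz extensions between Hilbert spaces

`Lip_S(g)` is the supremum of `d(g x, g y) / d(x, y)` over distinct `x, y ∈ S` (it is `0` if `S`
has fewer than two points).  An absolutely minimal Lipschitz extension (AMLE) of `f : Y → Z`,
`Y ⊆ X` closed, is a map `g : X → Z` with `g = f` on `Y` and `Lip_U(g) ≤ Lip_{∂U}(g)` for every
open `U ⊆ X \ Y`.
-/

set_option autoImplicit false

namespace Pool.Agent.Results.MP_1e31fb_an.AmleSeparable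

open Set
open scoped ENNReal NNReal

universe u v

/-- The Lipschitz constant of `g` on `S`, as an extended nonnegative real. -/
noncomputable def LipOn {X : Type u} [MetricSpace X] {Z : Type v} [MetricSpace Z] (g : X → Z)
    (S : Set X) : ℝ≥0∞ := ⨆ (x ∈ S) (y ∈ S) (_ : x ≠ y), edist (g x) (g y) / edist x y

/-- `g` is an absolutely minimal Lipschitz extension of `f : Y → Z`. -/
structure IsAMLE {X : Type u} [MetricSpace X] {Z : Type v} [MetricSpace Z] (Y : Set X)
    (f : Y → Z) (g : X → Z) : Prop where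
  eq_on : ∀ y : Y, g y = f y
  minimal : ∀ U : Set X, IsOpen U → U ⊆ Yᶜ → LipOn g U ≤ LipOn g (frontier U)

/-- Let `H₁, H₂` be real Hilbert spaces such that `H₁` is separable or `H₂` has dimension at most
one.  Then every Lipschitz map from a closed subset of `H₁` to `H₂` has an AMLE. -/
theorem result (H₁ : Type u) [NormedAddCommGroup H₁] [InnerProductSpace ℝ H₁] [CompleteSpace H₁]
    (H₂ : Type v) [NormedAddCommGroup H₂] [InnerProductSpace ℝ H₂] [CompleteSpace H₂]
    (hcase : TopologicalSpace.SeparableSpace H₁ ∨ Module.rank ℝ H₂ ≤ 1)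
    (Y : Set H₁) (hY : IsClosed Y) (f : Y → H₂) (hf : ∃ K : ℝ≥0, LipschitzWith K f) :
    ∃ g : H₁ → H₂, IsAMLE Y f g := by
  obtain ⟨K, hK⟩ := hf
  have hc : Module.rank ℝ H₂ ≤ 1 ∨ W2helper13.Am.WildExt H₁ H₂ := by
    by_cases h : Module.rank ℝ H₂ ≤ 1
    · exact Or.inl h
    · rcases hcase with hs | hr
      · obtain ⟨h1, h2, n1, n2, n12⟩ := W2helper13.Am.exists_two h
        exact Or.inr (W2helper13.Am.wild_separable n1 n2 n12)
      · exact Or.inl hr
  obtain ⟨g, h1, h2⟩ := W2helper13.Am.amle_final hc hY f hK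
  exact ⟨g, h1, h2⟩

end Pool.Agent.Results.MP_1e31fb_an.AmleSeparable
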